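import Mathlib

namespace Pool.Agent.LDC

open Filter Real

theorem polylog_le_rpow (k : ℕ) (A η : ℝ) (hA : 0 ≤ A) (hη : 0 < η) :
    ∀ᶠ x : ℝ in atTop, (A * Real.log x) ^ k ≤ x ^ η := by
  have hr : 0 < η / (k + 1) := by positivity
  have h1 := (isLittleO_log_rpow_atTop hr).bound (show (0 : ℝ) < 1 / (A + 1) by positivity)
  filter_upwards [h1, eventually_ge_atTop 1] with x hx hx1
  have hlog : 0 ≤ Real.log x := Real.log_nonneg hx1
  have hxr : 0 ≤ x ^ (η / (k + 1)) := by positivity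
  rw [Real.norm_of_nonneg hlog, Real.norm_of_nonneg hxr] at hx
  have h2 : A * Real.log x ≤ x ^ (η / (k + 1)) := by
    calc A * Real.log x ≤ (A + 1) * (1 / (A + 1) * x ^ (η / (k + 1))) := by
          apply mul_le_mul (by linarith) hx hlog (by linarith)
      _ = x ^ (η / (k + 1)) := by field_simp
  calc (A * Real.log x) ^ k ≤ (x ^ (η / (k + 1))) ^ k := by gcongr
    _ = x ^ (η / (k + 1) * k) := by rw [← Real.rpow_natCast, ← Real.rpow_mul (by linarith)]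
    _ ≤ x ^ η := by
        apply Real.rpow_le_rpow_of_exponent_le hx1
        rw [div_mul_eq_mul_div, div_le_iff₀ (by positivity)]
        nlinarith

/-- powers close to one -/
theorem pow_sub_one_le {n : ℕ} {t : ℝ} (ht : 0 ≤ t) (hnt : n * t ≤ 1) :
    (1 + t) ^ n - 1 ≤ 2 * (n * t) := by
  have h1 : (1 + t) ^ n ≤ Real.exp (n * t) := by
    rw [Real.exp_nat_mul]
    have := Real.add_one_le_exp t
    have h2 : 1 + t ≤ Real.exp t := by linarith
    gcongr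
  have h3 : |(n : ℝ) * t| ≤ 1 := by
    rw [abs_of_nonneg (by positivity)]; exact hnt
  have h4 := Real.abs_exp_sub_one_le h3
  rw [abs_of_nonneg (show 0 ≤ (n : ℝ) * t by positivity)] at h4
  have h5 := le_abs_self (Real.exp (n * t) - 1)
  linarith

theorem cond_lam (ε : ℝ) (hε : 0 < ε) (M : ℕ) (b : ℝ) (hb : 1 ≤ b) :
    ∃ κ : ℝ, 0 < κ ∧ ∀ᶠ n : ℕ in atTop, ∀ D : ℕ,
      (D : ℝ) ≤ κ * (Real.log n / Real.log (Real.log n)) ^ 2 →
      (D : ℝ) ≤ (Real.log n) ^ 2 ∧ ∀ Γ : ℝ,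
      Γ = 2 * b * (2 + ((2 * D + 2 * M * D : ℝ) ^ 2 + 1) ^ M) →
      ((4 * (D : ℝ) ^ 2 + 1) * Γ ^ 2) ^ (Nat.sqrt D + 1) ≤ (n : ℝ) ^ (ε / 2) := by
  set a : ℝ := (2 + 2 * M : ℝ) ^ 2 + 1 with ha
  have ha1 : 1 ≤ a := by
    have : (0 : ℝ) ≤ (2 + 2 * M : ℝ) ^ 2 := by positivity
    linarith
  set A : ℝ := 5 * (6 * b * a ^ M) ^ 2 with hA
  have hA1 : 1 ≤ A := by
    have h2 : (1 : ℝ) ≤ a ^ M := one_le_pow₀ ha1
    have h3 : (1 : ℝ) ≤ b * a ^ M := one_le_mul_of_one_le_of_one_le hb h2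
    have h4 : (1 : ℝ) ≤ (6 * b * a ^ M) ^ 2 := one_le_pow₀ (by linarith)
    linarith
  have hA0 : 0 < A := by linarith
  set k : ℝ := ((8 * M + 4 : ℕ) : ℝ) with hk
  have hk0 : 0 < k := by rw [hk]; positivity
  set c : ℝ := min 1 (ε / (8 * k)) with hc
  have hc0 : 0 < c := by
    rw [hc]
    exact lt_min one_pos (by positivity)
  have hc1 : c ≤ 1 := min_le_left _ _
  have hc2 : c ≤ ε / (8 * k) := min_le_right _ _
  refine ⟨c ^ 2, by positivity, ?_⟩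
  have hlog : Tendsto (fun n : ℕ => Real.log (n : ℝ)) atTop atTop :=
    Real.tendsto_log_atTop.comp tendsto_natCast_atTop_atTop
  have e1 : ∀ᶠ x : ℝ in atTop, Real.log x ≤ c * x := by
    have h1 := Real.isLittleO_log_id_atTop.bound hc0
    filter_upwards [h1, eventually_ge_atTop 1] with x hx hx1
    have h2 : 0 ≤ Real.log x := Real.log_nonneg hx1
    rw [Real.norm_of_nonneg h2, id, Real.norm_of_nonneg (by linarith)] at hx
    exact hx
  have e2 : ∀ᶠ x : ℝ in atTop, max 1 (Real.log A) ≤ Real.log x :=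
    Real.tendsto_log_atTop.eventually (eventually_ge_atTop _)
  filter_upwards [hlog.eventually e1, hlog.eventually e2,
    hlog.eventually (eventually_ge_atTop 1), eventually_ge_atTop 1] with n hn1 hn2 hL1 hn
  intro D hD
  set L := Real.log (n : ℝ) with hL
  set l := Real.log L with hl
  have hn0 : (0 : ℝ) < n := by exact_mod_cast hn
  have hL0 : 0 < L := by linarith
  have hl1 : 1 ≤ l := (le_max_left _ _).trans hn2
  have hl0 : 0 < l := by linarith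
  have hlA : Real.log A ≤ l := (le_max_right _ _).trans hn2
  have hD1 : (D : ℝ) ≤ (c * (L / l)) ^ 2 := by rw [mul_pow]; exact hD
  have hLl : L / l ≤ L := div_le_self hL0.le hl1
  have hLl0 : 0 < L / l := by positivity
  have hDc : (D : ℝ) ≤ L ^ 2 := by
    refine hD1.trans ?_
    have : c * (L / l) ≤ L := by
      calc c * (L / l) ≤ 1 * L := by gcongr
        _ = L := one_mul _
    gcongr
  refine ⟨hDc, ?_⟩
  intro Γ hΓ
  have hD0 : (0 : ℝ) ≤ D := Nat.cast_nonneg _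
  have hL4 : 1 ≤ L ^ 4 := one_le_pow₀ hL1
  have h1 : 4 * (D : ℝ) ^ 2 + 1 ≤ 5 * L ^ 4 := by
    have h2 : (D : ℝ) ^ 2 ≤ (L ^ 2) ^ 2 := by gcongr
    nlinarith
  have h2 : (2 * D + 2 * M * D : ℝ) ^ 2 + 1 ≤ a * L ^ 4 := by
    have h3 : (2 * D + 2 * M * D : ℝ) ≤ (2 + 2 * M) * L ^ 2 := by
      have : (2 * D + 2 * M * D : ℝ) = (2 + 2 * M) * D := by ring
      rw [this]
      gcongr
    have h4 : (2 * D + 2 * M * D : ℝ) ^ 2 ≤ ((2 + 2 * M) * L ^ 2) ^ 2 := by gcongr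
    rw [ha]
    nlinarith
  have hΓ0 : 0 ≤ Γ := by rw [hΓ]; positivity
  have h3 : Γ ≤ 6 * b * a ^ M * L ^ (4 * M) := by
    rw [hΓ]
    have h4 : ((2 * D + 2 * M * D : ℝ) ^ 2 + 1) ^ M ≤ a ^ M * L ^ (4 * M) := by
      calc _ ≤ (a * L ^ 4) ^ M := by gcongr
        _ = _ := by rw [mul_pow, ← pow_mul]
    have h5 : (1 : ℝ) ≤ a ^ M * L ^ (4 * M) :=
      one_le_mul_of_one_le_of_one_le (one_le_pow₀ ha1) (one_le_pow₀ hL1)
    calc 2 * b * (2 + ((2 * D + 2 * M * D : ℝ) ^ 2 + 1) ^ M)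
        ≤ 2 * b * (2 * (a ^ M * L ^ (4 * M)) + a ^ M * L ^ (4 * M)) := by
          gcongr
          linarith
      _ = _ := by ring
  have hΛ : (4 * (D : ℝ) ^ 2 + 1) * Γ ^ 2 ≤ (A * L) ^ (8 * M + 4) := by
    calc (4 * (D : ℝ) ^ 2 + 1) * Γ ^ 2
        ≤ (5 * L ^ 4) * (6 * b * a ^ M * L ^ (4 * M)) ^ 2 := by gcongr
      _ = A * L ^ (8 * M + 4) := by
          rw [hA]
          ring
      _ ≤ A ^ (8 * M + 4) * L ^ (8 * M + 4) := by
          apply mul_le_mul_of_nonneg_right _ (by positivity)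
          calc A = A ^ 1 := (pow_one A).symm
            _ ≤ A ^ (8 * M + 4) := pow_le_pow_right₀ hA1 (by omega)
      _ = (A * L) ^ (8 * M + 4) := (mul_pow A L (8 * M + 4)).symm
  have hAL : 1 ≤ A * L := one_le_mul_of_one_le_of_one_le hA1 hL1
  have hAL0 : 0 < A * L := by linarith
  have hs1 : ((Nat.sqrt D + 1 : ℕ) : ℝ) ≤ 2 * (c * (L / l)) := by
    push_cast
    have h4 : ((Nat.sqrt D : ℕ) : ℝ) ≤ Real.sqrt D := Real.nat_sqrt_le_real_sqrt
    have h5 : Real.sqrt D ≤ c * (L / l) := by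
      apply Real.sqrt_le_iff.2
      exact ⟨by positivity, hD1⟩
    have h6 : 1 ≤ c * (L / l) := by
      rw [← mul_div_assoc, one_le_div hl0]
      exact hn1
    linarith
  have hlogAL : Real.log (A * L) ≤ 2 * l := by
    rw [Real.log_mul hA0.ne' hL0.ne']
    linarith
  calc ((4 * (D : ℝ) ^ 2 + 1) * Γ ^ 2) ^ (Nat.sqrt D + 1)
      ≤ ((A * L) ^ (8 * M + 4)) ^ (Nat.sqrt D + 1) := by gcongr
    _ = Real.exp (((Nat.sqrt D + 1 : ℕ) : ℝ) * (((8 * M + 4 : ℕ) : ℝ) * Real.log (A * L))) := by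
        rw [Real.exp_nat_mul, Real.exp_nat_mul, Real.exp_log hAL0]
    _ ≤ Real.exp ((ε / 2) * L) := by
        apply Real.exp_le_exp.2
        have h7 := Real.log_nonneg hAL
        calc ((Nat.sqrt D + 1 : ℕ) : ℝ) * (k * Real.log (A * L))
            ≤ (2 * (c * (L / l))) * (k * (2 * l)) := by gcongr
          _ = (4 * k * c) * L := by field_simp; norm_num
          _ ≤ (4 * k * (ε / (8 * k))) * L := by gcongr
          _ = (ε / 2) * L := by field_simp; norm_num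
    _ = (n : ℝ) ^ (ε / 2) := by
        rw [Real.rpow_def_of_pos hn0, mul_comm]

theorem cond_mom (M : ℕ) (b : ℝ) (hb : 1 ≤ b) :
    ∀ᶠ n : ℕ in atTop, ∀ D : ℕ, (D : ℝ) ≤ (Real.log n) ^ 2 →
      (b * ((2 + 2 * M * (2 * ((6 * M + 5) * D + 7) : ℕ) : ℝ) ^ 2 + 1) ^ M) ^ 4 ≤ (n : ℝ) := by
  set a : ℝ := 3 + 4 * M * ((6 * M + 5) + 7) with ha
  have ha1 : 1 ≤ a := by
    have : (0 : ℝ) ≤ 4 * M * ((6 * M + 5) + 7) := by positivity
    linarith
  have h1 := polylog_le_rpow (16 * M + 4) (b * a) 1 (by positivity) one_pos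
  have hlog : Tendsto (fun n : ℕ => Real.log (n : ℝ)) atTop atTop :=
    Real.tendsto_log_atTop.comp tendsto_natCast_atTop_atTop
  filter_upwards [h1.natCast_atTop, hlog.eventually (eventually_ge_atTop 1),
    eventually_ge_atTop 1] with n hn hL1 hn1
  intro D hD
  set L := Real.log (n : ℝ) with hL
  have hL0 : 0 ≤ L := by linarith
  have hL2 : 1 ≤ L ^ 2 := one_le_pow₀ hL1
  have h2 : (2 + 2 * M * (2 * ((6 * M + 5) * D + 7) : ℕ) : ℝ) ≤ (a - 1) * L ^ 2 := by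
    push_cast
    have h3 : (6 * M + 5 : ℝ) * D + 7 ≤ ((6 * M + 5) + 7) * L ^ 2 := by
      have h4 : (6 * M + 5 : ℝ) * D ≤ (6 * M + 5) * L ^ 2 := by gcongr
      nlinarith
    have h5 : 4 * (M : ℝ) * ((6 * M + 5 : ℝ) * D + 7) ≤
        4 * M * (((6 * M + 5) + 7) * L ^ 2) := by gcongr
    rw [ha]
    nlinarith
  have h3 : (2 + 2 * M * (2 * ((6 * M + 5) * D + 7) : ℕ) : ℝ) ^ 2 + 1 ≤ (a * L ^ 2) ^ 2 := by
    have h5 : (2 + 2 * M * (2 * ((6 * M + 5) * D + 7) : ℕ) : ℝ) ^ 2 ≤ ((a - 1) * L ^ 2) ^ 2 := by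
      gcongr
    have h6 : 0 ≤ (a - 1) * L ^ 2 := by
      apply mul_nonneg _ (by positivity)
      linarith
    have h7 : ((a - 1) * L ^ 2) ^ 2 + (L ^ 2) ^ 2 ≤ (a * L ^ 2) ^ 2 := by
      have : (a * L ^ 2) ^ 2 =
          ((a - 1) * L ^ 2) ^ 2 + 2 * ((a - 1) * L ^ 2) * L ^ 2 + (L ^ 2) ^ 2 := by ring
      rw [this]
      nlinarith
    have h8 : 1 ≤ (L ^ 2) ^ 2 := one_le_pow₀ hL2
    linarith
  have haL : 1 ≤ a * L := one_le_mul_of_one_le_of_one_le ha1 hL1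
  have haL2 : a * L ^ 2 ≤ (a * L) ^ 2 := by
    rw [mul_pow]
    have : a ≤ a ^ 2 := by nlinarith
    gcongr
  calc (b * ((2 + 2 * M * (2 * ((6 * M + 5) * D + 7) : ℕ) : ℝ) ^ 2 + 1) ^ M) ^ 4
      ≤ (b * (((a * L) ^ 2) ^ 2) ^ M) ^ 4 := by
        have h9 : (2 + 2 * M * (2 * ((6 * M + 5) * D + 7) : ℕ) : ℝ) ^ 2 + 1 ≤
            ((a * L) ^ 2) ^ 2 := by
          refine h3.trans ?_
          gcongr
        gcongr
    _ = b ^ 4 * (a * L) ^ (16 * M) := by ring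
    _ ≤ b ^ (16 * M + 4) * (a * L) ^ (16 * M + 4) := by
        apply mul_le_mul (pow_le_pow_right₀ hb (by omega)) (pow_le_pow_right₀ haL (by omega))
          (by positivity) (by positivity)
    _ = (b * a * L) ^ (16 * M + 4) := by rw [← mul_pow, mul_assoc]
    _ ≤ (n : ℝ) ^ (1 : ℝ) := hn
    _ = n := Real.rpow_one _

end Pool.Agent.LDC
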