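import Mathlib

namespace Pool.Agent.LDC

open Finset

set_option linter.unusedSectionVars false

/-- average over a finite type -/
noncomputable def av {α : Type*} [Fintype α] (F : α → ℝ) : ℝ := (∑ x, F x) / (Fintype.card α : ℝ)

section av

variable {α : Type*} [Fintype α]

theorem av_const [Nonempty α] (r : ℝ) : av (fun _ : α => r) = r := by
  unfold av
  rw [Finset.sum_const, card_univ, nsmul_eq_mul]
  have : (Fintype.card α : ℝ) ≠ 0 := by exact_mod_cast Fintype.card_ne_zero
  field_simp

theorem av_add (F G : α → ℝ) : av (fun x => F x + G x) = av F + av G := by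
  unfold av
  rw [Finset.sum_add_distrib, add_div]

theorem av_sub (F G : α → ℝ) : av (fun x => F x - G x) = av F - av G := by
  unfold av
  rw [Finset.sum_sub_distrib, sub_div]

theorem av_mul_left (r : ℝ) (F : α → ℝ) : av (fun x => r * F x) = r * av F := by
  unfold av
  rw [← Finset.mul_sum, mul_div_assoc]

theorem av_mul_right (r : ℝ) (F : α → ℝ) : av (fun x => F x * r) = av F * r := by
  unfold av
  rw [← Finset.sum_mul, div_mul_eq_mul_div]

theorem av_neg (F : α → ℝ) : av (fun x => - F x) = - av F := by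
  unfold av
  rw [Finset.sum_neg_distrib, neg_div]

theorem av_sum {ι : Type*} (s : Finset ι) (F : ι → α → ℝ) :
    av (fun x => ∑ i ∈ s, F i x) = ∑ i ∈ s, av (F i) := by
  unfold av
  rw [Finset.sum_comm, Finset.sum_div]

theorem av_mono {F G : α → ℝ} (h : ∀ x, F x ≤ G x) : av F ≤ av G := by
  unfold av
  apply div_le_div_of_nonneg_right _ (Nat.cast_nonneg _)
  exact Finset.sum_le_sum (fun x _ => h x)

theorem av_nonneg {F : α → ℝ} (h : ∀ x, 0 ≤ F x) : 0 ≤ av F := by
  unfold av
  exact div_nonneg (Finset.sum_nonneg (fun x _ => h x)) (Nat.cast_nonneg _)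

theorem abs_av_le (F : α → ℝ) : |av F| ≤ av (fun x => |F x|) := by
  unfold av
  rw [abs_div, abs_of_nonneg (Nat.cast_nonneg (α := ℝ) _)]
  apply div_le_div_of_nonneg_right _ (Nat.cast_nonneg _)
  exact Finset.abs_sum_le_sum_abs _ _

theorem abs_av_le_of_bound [Nonempty α] {F : α → ℝ} {B : ℝ} (h : ∀ x, |F x| ≤ B) : |av F| ≤ B :=
  (abs_av_le F).trans ((av_mono h).trans_eq (av_const B))

theorem av_comp_equiv (e : α ≃ α) (F : α → ℝ) : av (fun x => F (e x)) = av F := by
  unfold av
  rw [Equiv.sum_comp e F]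

theorem av_eq_zero_of_flip (e : α ≃ α) (F : α → ℝ) (h : ∀ x, F (e x) = - F x) : av F = 0 := by
  have h1 := av_comp_equiv e F
  have h2 : av (fun x => F (e x)) = - av F := by
    rw [← av_neg]
    congr 1
    funext x
    exact h x
  linarith

end av

section indep

variable {ι κ : Type*} [Fintype ι] [DecidableEq ι] [Fintype κ]

/-- a function depending only on the coordinates in `A` -/
def DependsOn' (F : (ι → κ) → ℝ) (A : Set ι) : Prop :=
  ∀ x y : ι → κ, (∀ i ∈ A, x i = y i) → F x = F y

open Classical in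
/-- the swap of coordinates -/
noncomputable def swapEquiv (A : Set ι) : ((ι → κ) × (ι → κ)) ≃ ((ι → κ) × (ι → κ)) where
  toFun p := (fun i => if i ∈ A then p.1 i else p.2 i, fun i => if i ∈ A then p.2 i else p.1 i)
  invFun p := (fun i => if i ∈ A then p.1 i else p.2 i, fun i => if i ∈ A then p.2 i else p.1 i)
  left_inv := by
    rintro ⟨x, y⟩
    ext i <;> by_cases h : i ∈ A <;> simp [h]
  right_inv := by
    rintro ⟨x, y⟩
    ext i <;> by_cases h : i ∈ A <;> simp [h]

theorem av_mul_indep {F G : (ι → κ) → ℝ} {A B : Set ι} (hAB : Disjoint A B)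
    (hF : DependsOn' F A) (hG : DependsOn' G B) :
    av (fun x => F x * G x) = av F * av G := by
  classical
  by_cases hne : Nonempty (ι → κ)
  swap
  · rw [not_nonempty_iff] at hne
    unfold av
    simp
  have hcard : (Fintype.card (ι → κ) : ℝ) ≠ 0 := by exact_mod_cast Fintype.card_ne_zero
  have h1 : (∑ x, F x) * (∑ y, G y) =
      (Fintype.card (ι → κ) : ℝ) * ∑ x, F x * G x := by
    rw [Finset.sum_mul_sum, ← Finset.sum_product', Finset.univ_product_univ]
    have h2 : ∀ p : (ι → κ) × (ι → κ), F p.1 * G p.2 =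
        (fun r : (ι → κ) × (ι → κ) => F r.1 * G r.1) (swapEquiv A p) := by
      rintro ⟨x, y⟩
      simp only [swapEquiv, Equiv.coe_fn_mk]
      congr 1
      · apply hF
        intro i hi
        simp [hi]
      · apply hG
        intro i hi
        have : i ∉ A := fun h => (Set.disjoint_left.1 hAB) h hi
        simp [this]
    rw [Finset.sum_congr rfl (fun p _ => h2 p), Equiv.sum_comp (swapEquiv A)
      (fun r : (ι → κ) × (ι → κ) => F r.1 * G r.1)]
    rw [← Finset.univ_product_univ, Finset.sum_product]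
    simp only [Finset.sum_const, card_univ, nsmul_eq_mul]
    rw [← Finset.mul_sum]
  unfold av
  rw [div_mul_div_comm, h1]
  field_simp

theorem DependsOn'.mono {F : (ι → κ) → ℝ} {A B : Set ι} (h : DependsOn' F A) (hAB : A ⊆ B) :
    DependsOn' F B := fun x y hxy => h x y (fun i hi => hxy i (hAB hi))

theorem DependsOn'.prod {β : Type*} {s : Finset β} {F : β → (ι → κ) → ℝ} {A : β → Set ι}
    (h : ∀ b ∈ s, DependsOn' (F b) (A b)) :
    DependsOn' (fun x => ∏ b ∈ s, F b x) (⋃ b ∈ s, A b) := by
  intro x y hxy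
  apply Finset.prod_congr rfl
  intro b hb
  apply h b hb
  intro i hi
  apply hxy
  rw [Set.mem_iUnion₂]
  exact ⟨b, hb, hi⟩

theorem av_prod_indep [Nonempty (ι → κ)] {β : Type*} [DecidableEq β] {s : Finset β}
    {F : β → (ι → κ) → ℝ} {A : β → Set ι}
    (h : ∀ b ∈ s, DependsOn' (F b) (A b))
    (hd : ∀ b ∈ s, ∀ b' ∈ s, b ≠ b' → Disjoint (A b) (A b')) :
    av (fun x => ∏ b ∈ s, F b x) = ∏ b ∈ s, av (F b) := by
  induction s using Finset.induction_on with
  | empty => simp [av_const]
  | insert b s hb ih =>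
    simp_rw [Finset.prod_insert hb]
    rw [av_mul_indep (A := A b) (B := ⋃ b' ∈ s, A b') _ (h b (mem_insert_self _ _))
      (DependsOn'.prod (fun b' hb' => h b' (mem_insert_of_mem hb')))]
    · rw [ih (fun b' hb' => h b' (mem_insert_of_mem hb'))
        (fun b1 h1 b2 h2 => hd b1 (mem_insert_of_mem h1) b2 (mem_insert_of_mem h2))]
    · rw [Set.disjoint_iUnion₂_right]
      intro b' hb'
      apply hd b (mem_insert_self _ _) b' (mem_insert_of_mem hb')
      rintro rfl
      exact hb hb'

end indep

section pi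

variable {E τ : Type*} [Fintype E] [DecidableEq E] [DecidableEq τ]

/-- configurations supported on `H` -/
def TT (o : E → Finset τ) (d : τ) (H : Finset E) : Finset (E → τ) :=
  Fintype.piFinset (fun f => if f ∈ H then o f else {d})

theorem mem_TT {o : E → Finset τ} {d : τ} {H : Finset E} {T : E → τ} :
    T ∈ TT o d H ↔ (∀ f ∈ H, T f ∈ o f) ∧ (∀ f, f ∉ H → T f = d) := by
  unfold TT
  rw [Fintype.mem_piFinset]
  constructor
  · intro h
    refine ⟨fun f hf => ?_, fun f hf => ?_⟩
    · have := h f
      rwa [if_pos hf] at this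
    · have := h f
      rwa [if_neg hf, mem_singleton] at this
  · rintro ⟨h1, h2⟩ f
    by_cases hf : f ∈ H
    · rw [if_pos hf]; exact h1 f hf
    · rw [if_neg hf, mem_singleton]; exact h2 f hf

theorem prod_sum_TT (o : E → Finset τ) (d : τ) (H : Finset E) (F : E → τ → ℝ) :
    ∏ f ∈ H, ∑ t ∈ o f, F f t = ∑ T ∈ TT o d H, ∏ f ∈ H, F f (T f) := by
  have h1 : ∏ f ∈ H, ∑ t ∈ o f, F f t =
      ∏ f, ∑ t ∈ (if f ∈ H then o f else {d}), (if f ∈ H then F f t else 1) := by
    rw [← Finset.prod_subset (Finset.subset_univ H)]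
    · apply Finset.prod_congr rfl
      intro f hf
      simp [hf]
    · intro f _ hf
      simp [hf]
  rw [h1, Finset.prod_univ_sum]
  apply Finset.sum_congr rfl
  intro T _
  symm
  rw [← Finset.prod_subset (Finset.subset_univ H)]
  · apply Finset.prod_congr rfl
    intro f hf
    simp [hf]
  · intro f _ hf
    simp [hf]

/-- dependence on the coordinates in `A` only -/
def Loc (F : (E → τ) → ℝ) (A : Finset E) : Prop :=
  ∀ S T : E → τ, (∀ f ∈ A, S f = T f) → F S = F T

theorem sum_TT_mul {o : E → Finset τ} {d : τ} {A B : Finset E} (hAB : Disjoint A B)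
    {F G : (E → τ) → ℝ} (hF : Loc F A) (hG : Loc G B) :
    (∑ T ∈ TT o d A, F T) * (∑ T ∈ TT o d B, G T) = ∑ T ∈ TT o d (A ∪ B), F T * G T := by
  rw [Finset.sum_mul_sum, ← Finset.sum_product']
  apply Finset.sum_bij' (i := fun p _ => fun f => if f ∈ A then p.1 f else p.2 f)
    (j := fun T _ => (fun f => if f ∈ A then T f else d, fun f => if f ∈ B then T f else d))
  · rintro ⟨T1, T2⟩ h
    rw [mem_product, mem_TT, mem_TT] at h
    obtain ⟨⟨h1, h2⟩, h3, h4⟩ := h
    rw [mem_TT]
    refine ⟨fun f hf => ?_, fun f hf => ?_⟩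
    · by_cases hfA : f ∈ A
      · simp only [hfA, if_true]; exact h1 f hfA
      · simp only [hfA, if_false]
        exact h3 f ((mem_union.1 hf).resolve_left hfA)
    · rw [mem_union, not_or] at hf
      simp only [hf.1, if_false]
      exact h4 f hf.2
  · intro T h
    rw [mem_TT] at h
    rw [mem_product, mem_TT, mem_TT]
    refine ⟨⟨fun f hf => ?_, fun f hf => ?_⟩, fun f hf => ?_, fun f hf => ?_⟩
    · simp only [hf, if_true]; exact h.1 f (mem_union_left _ hf)
    · simp only [hf, if_false]
    · simp only [hf, if_true]; exact h.1 f (mem_union_right _ hf)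
    · simp only [hf, if_false]
  · rintro ⟨T1, T2⟩ h
    rw [mem_product, mem_TT, mem_TT] at h
    obtain ⟨⟨h1, h2⟩, h3, h4⟩ := h
    simp only at h1 h2 h3 h4
    ext f
    · by_cases hfA : f ∈ A
      · simp [hfA]
      · simp [hfA, h2 f hfA]
    · by_cases hfB : f ∈ B
      · have : f ∉ A := fun h => (Finset.disjoint_left.1 hAB) h hfB
        simp [hfB, this]
      · simp [hfB, h4 f hfB]
  · intro T h
    rw [mem_TT] at h
    funext f
    by_cases hfA : f ∈ A
    · simp [hfA]
    · by_cases hfB : f ∈ B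
      · simp [hfA, hfB]
      · simp only [hfA, hfB, if_false]
        exact (h.2 f (by simp [hfA, hfB])).symm
  · rintro ⟨T1, T2⟩ h
    rw [mem_product, mem_TT, mem_TT] at h
    obtain ⟨⟨h1, h2⟩, h3, h4⟩ := h
    simp only at h1 h2 h3 h4 ⊢
    congr 1
    · apply hF
      intro f hf
      simp [hf]
    · apply hG
      intro f hf
      have : f ∉ A := fun h => (Finset.disjoint_left.1 hAB) h hf
      simp [this]

theorem prod_sum_comp {o : E → Finset τ} {d : τ} {C : Finset (Finset E)}
    (hd : ∀ c ∈ C, ∀ c' ∈ C, c ≠ c' → Disjoint c c') {F : Finset E → (E → τ) → ℝ}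
    (hF : ∀ c ∈ C, Loc (F c) c) :
    ∏ c ∈ C, ∑ T ∈ TT o d c, F c T = ∑ T ∈ TT o d (C.biUnion id), ∏ c ∈ C, F c T := by
  induction C using Finset.induction_on with
  | empty =>
    simp only [Finset.prod_empty, Finset.biUnion_empty]
    have : TT o d (∅ : Finset E) = {fun _ => d} := by
      ext T
      rw [mem_TT, mem_singleton]
      constructor
      · intro h
        funext f
        exact h.2 f (notMem_empty _)
      · rintro rfl
        simp
    rw [this]
    simp
  | insert c C hc ih =>
    rw [Finset.prod_insert hc, ih (fun c1 h1 c2 h2 => hd c1 (mem_insert_of_mem h1) c2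
      (mem_insert_of_mem h2)) (fun c1 h1 => hF c1 (mem_insert_of_mem h1)),
      Finset.biUnion_insert]
    simp only [id]
    rw [sum_TT_mul]
    · apply Finset.sum_congr rfl
      intro T _
      rw [Finset.prod_insert hc]
    · rw [Finset.disjoint_biUnion_right]
      intro c' hc'
      apply hd c (mem_insert_self _ _) c' (mem_insert_of_mem hc')
      rintro rfl
      exact hc hc'
    · exact hF c (mem_insert_self _ _)
    · intro S T h
      apply Finset.prod_congr rfl
      intro c' hc'
      apply hF c' (mem_insert_of_mem hc')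
      intro f hf
      apply h
      rw [mem_biUnion]
      exact ⟨c', hc', hf⟩

end pi

end Pool.Agent.LDC
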