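import Mathlib

namespace Pool.Agent.LDC

open Finset

set_option linter.unusedSectionVars false

section Comb

variable {V E : Type*} [Fintype V] [DecidableEq V] [Fintype E] [DecidableEq E]

/-- vertex set of a set of edges -/
def vs (ends : E → Finset V) (g : Finset E) : Finset V := g.biUnion ends

/-- cut-connectedness of a set of edges -/
def Conn (ends : E → Finset V) (g : Finset E) : Prop :=
  ∀ A : Finset V, (∀ e ∈ g, ends e ⊆ A ∨ Disjoint (ends e) A) →
    (∀ e ∈ g, ends e ⊆ A) ∨ (∀ e ∈ g, Disjoint (ends e) A)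

theorem mem_vs {ends : E → Finset V} {g : Finset E} {v : V} :
    v ∈ vs ends g ↔ ∃ e ∈ g, v ∈ ends e := by
  simp [vs]

theorem ends_subset_vs {ends : E → Finset V} {g : Finset E} {e : E} (he : e ∈ g) :
    ends e ⊆ vs ends g := by
  intro v hv
  exact mem_vs.2 ⟨e, he, hv⟩

theorem vs_mono {ends : E → Finset V} {g g' : Finset E} (h : g ⊆ g') :
    vs ends g ⊆ vs ends g' := by
  intro v hv
  obtain ⟨e, he, hv⟩ := mem_vs.1 hv
  exact mem_vs.2 ⟨e, h he, hv⟩

theorem exists_components (ends : E → Finset V) (H : Finset E) :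
    ∃ C : Finset (Finset E), (∀ c ∈ C, c.Nonempty ∧ Conn ends c) ∧
      (∀ c ∈ C, ∀ c' ∈ C, c ≠ c' → Disjoint (vs ends c) (vs ends c')) ∧
      C.biUnion id = H := by
  induction hn : H.card using Nat.strong_induction_on generalizing H with
  | _ n ih =>
    rcases H.eq_empty_or_nonempty with rfl | hne
    · exact ⟨∅, by simp, by simp, by simp⟩
    by_cases hc : Conn ends H
    · refine ⟨{H}, ?_, ?_, by simp⟩
      · intro c hcc
        rw [mem_singleton] at hcc
        subst hcc
        exact ⟨hne, hc⟩
      · intro c h1 c' h2 h3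
        rw [mem_singleton] at h1 h2
        exact absurd (h1.trans h2.symm) h3
    · unfold Conn at hc
      push Not at hc
      obtain ⟨A, hA, h1, h2⟩ := hc
      obtain ⟨e1, he1, he1'⟩ := h1
      obtain ⟨e2, he2, he2'⟩ := h2
      set H1 := H.filter (fun e => ends e ⊆ A) with hH1
      set H2 := H.filter (fun e => ¬ ends e ⊆ A) with hH2
      have e1H2 : e1 ∈ H2 := by rw [hH2, mem_filter]; exact ⟨he1, he1'⟩
      have e2H1 : e2 ∈ H1 := by
        rw [hH1, mem_filter]
        exact ⟨he2, (hA e2 he2).resolve_right he2'⟩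
      have hcard : H1.card + H2.card = H.card := by
        rw [hH1, hH2]
        exact card_filter_add_card_filter_not _
      have c1 : 0 < H1.card := card_pos.2 ⟨_, e2H1⟩
      have c2 : 0 < H2.card := card_pos.2 ⟨_, e1H2⟩
      obtain ⟨C1, a1, b1, d1⟩ := ih H1.card (by omega) H1 rfl
      obtain ⟨C2, a2, b2, d2⟩ := ih H2.card (by omega) H2 rfl
      have hv1 : vs ends H1 ⊆ A := by
        intro v hv
        obtain ⟨e, he, hv⟩ := mem_vs.1 hv
        exact (mem_filter.1 he).2 hv
      have hv2 : Disjoint (vs ends H2) A := by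
        rw [Finset.disjoint_left]
        intro v hv
        obtain ⟨e, he, hv⟩ := mem_vs.1 hv
        have := (mem_filter.1 he)
        have h3 := (hA e this.1).resolve_left this.2
        exact fun hvA => (Finset.disjoint_left.1 h3) hv hvA
      have sub1 : ∀ c ∈ C1, vs ends c ⊆ A := by
        intro c hc
        refine (vs_mono ?_).trans hv1
        rw [← d1]
        exact Finset.subset_biUnion_of_mem id hc
      have sub2 : ∀ c ∈ C2, Disjoint (vs ends c) A := by
        intro c hc
        refine Disjoint.mono_left (vs_mono ?_) hv2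
        rw [← d2]
        exact Finset.subset_biUnion_of_mem id hc
      refine ⟨C1 ∪ C2, ?_, ?_, ?_⟩
      · intro c hc
        rcases mem_union.1 hc with h | h
        · exact a1 c h
        · exact a2 c h
      · intro c hc c' hc' hcc
        rcases mem_union.1 hc with h | h <;> rcases mem_union.1 hc' with h' | h'
        · exact b1 c h c' h' hcc
        · exact (Disjoint.mono_right (sub1 c h) (sub2 c' h')).symm
        · exact Disjoint.mono_right (sub1 c' h') (sub2 c h)
        · exact b2 c h c' h' hcc
      · rw [Finset.union_biUnion, d1, d2, hH1, hH2]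
        exact filter_union_filter_not_eq _ _

/-- colour lemma -/
theorem color_lemma {q : ℕ} [NeZero q] (ends : E → Finset V)
    (c : Finset E) (hc : Conn ends c) (hcne : (vs ends c).Nonempty)
    (I : Finset E) {ι : Type*} (A : Finset ι) (e : ι → Finset V)
    (hcov : ∀ f ∈ c, f ∉ I → ∃ a ∈ A, ends f ⊆ e a) :
    (univ.filter (fun σ : V → ZMod q =>
      ∀ f ∈ I, ∀ u ∈ ends f, ∀ v ∈ ends f, σ u = σ v)).card * q ^ ((vs ends c).card - 1)
      ≤ q ^ (Fintype.card V + ∑ a ∈ A, ((e a).card - 1)) := by
  classical
  obtain ⟨v0, hv0⟩ := hcne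
  set W := (vs ends c).erase v0 with hW
  let b : ι → V := fun a => if h : (e a).Nonempty then h.choose else v0
  have hb : ∀ a, (e a).Nonempty → b a ∈ e a := by
    intro a h
    simp only [b, dif_pos h]
    exact h.choose_spec
  let K := {σ : V → ZMod q // ∀ f ∈ I, ∀ u ∈ ends f, ∀ v ∈ ends f, σ u = σ v}
  let T := ({v // v ∉ W} → ZMod q) × (∀ a : A, {v // v ∈ (e a.1).erase (b a.1)} → ZMod q)
  let φ : K → T := fun σ => (fun v => σ.1 v.1, fun a v => σ.1 v.1 - σ.1 (b a.1))
  have hφ : Function.Injective φ := by
    intro σ τ h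
    have h1 : ∀ v, v ∉ W → σ.1 v = τ.1 v := by
      intro v hv
      have := congrFun (congrArg Prod.fst h) ⟨v, hv⟩
      exact this
    have h2 : ∀ a ∈ A, ∀ v ∈ e a, σ.1 v - σ.1 (b a) = τ.1 v - τ.1 (b a) := by
      intro a ha v hv
      by_cases hvb : v = b a
      · rw [hvb]; simp
      · have := congrFun (congrFun (congrArg Prod.snd h) ⟨a, ha⟩) ⟨v, mem_erase.2 ⟨hvb, hv⟩⟩
        exact this
    have key := hc (univ.filter (fun v => σ.1 v = τ.1 v)) (by
      intro f hf
      by_cases hfI : f ∈ I
      · by_cases hex : ∃ u ∈ ends f, σ.1 u = τ.1 u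
        · left
          obtain ⟨u, hu, huu⟩ := hex
          intro v hv
          rw [mem_filter]
          refine ⟨mem_univ _, ?_⟩
          rw [σ.2 f hfI v hv u hu, τ.2 f hfI v hv u hu, huu]
        · right
          rw [Finset.disjoint_left]
          intro u hu hu'
          exact hex ⟨u, hu, (mem_filter.1 hu').2⟩
      · obtain ⟨a, ha, hfa⟩ := hcov f hf hfI
        by_cases hex : ∃ u ∈ ends f, σ.1 u = τ.1 u
        · left
          obtain ⟨u, hu, huu⟩ := hex
          intro v hv
          rw [mem_filter]
          refine ⟨mem_univ _, ?_⟩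
          have e1 := h2 a ha u (hfa hu)
          have e2 := h2 a ha v (hfa hv)
          have e3 : σ.1 (b a) = τ.1 (b a) := by
            rw [huu] at e1
            exact sub_right_injective e1
          rw [e3] at e2
          exact sub_left_injective e2
        · right
          rw [Finset.disjoint_left]
          intro u hu hu'
          exact hex ⟨u, hu, (mem_filter.1 hu').2⟩)
    have hall : ∀ f ∈ c, ends f ⊆ univ.filter (fun v => σ.1 v = τ.1 v) := by
      rcases key with h3 | h3
      · exact h3
      · exfalso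
        obtain ⟨f, hf, hvf⟩ := mem_vs.1 hv0
        have h4 := h3 f hf
        have h5 : v0 ∈ univ.filter (fun v => σ.1 v = τ.1 v) := by
          rw [mem_filter]
          exact ⟨mem_univ _, h1 v0 (by rw [hW]; exact notMem_erase _ _)⟩
        exact (Finset.disjoint_left.1 h4) hvf h5
    apply Subtype.ext
    funext v
    by_cases hv : v ∈ W
    · have hv' : v ∈ vs ends c := (mem_erase.1 hv).2
      obtain ⟨f, hf, hvf⟩ := mem_vs.1 hv'
      exact (mem_filter.1 (hall f hf hvf)).2
    · exact h1 v hv
  have hcard := Fintype.card_le_of_injective φ hφ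
  have hK : Fintype.card K = (univ.filter (fun σ : V → ZMod q =>
      ∀ f ∈ I, ∀ u ∈ ends f, ∀ v ∈ ends f, σ u = σ v)).card := Fintype.card_subtype _
  have hT : Fintype.card T ≤ q ^ (Fintype.card V - ((vs ends c).card - 1) +
      ∑ a ∈ A, ((e a).card - 1)) := by
    rw [Fintype.card_prod, Fintype.card_fun, Fintype.card_pi, pow_add]
    apply Nat.mul_le_mul
    · rw [ZMod.card]
      apply le_of_eq
      congr 1
      rw [Fintype.card_subtype_compl, Fintype.card_coe, hW, card_erase_of_mem hv0]
    · rw [Finset.univ_eq_attach]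
      rw [Finset.prod_attach A (fun a => Fintype.card ({v // v ∈ (e a).erase (b a)} → ZMod q))]
      rw [← Finset.prod_pow_eq_pow_sum]
      apply Finset.prod_le_prod'
      intro a ha
      rw [Fintype.card_fun, ZMod.card, Fintype.card_coe]
      apply Nat.pow_le_pow_right (Nat.pos_of_ne_zero (NeZero.ne q))
      by_cases hn : (e a).Nonempty
      · rw [card_erase_of_mem (hb a hn)]
      · rw [not_nonempty_iff_eq_empty] at hn
        rw [hn]; simp
  have hle : (vs ends c).card - 1 ≤ Fintype.card V :=
    (Nat.sub_le _ _).trans (card_le_univ _)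
  calc _ = Fintype.card K * q ^ ((vs ends c).card - 1) := by rw [hK]
    _ ≤ q ^ (Fintype.card V - ((vs ends c).card - 1) +
      ∑ a ∈ A, ((e a).card - 1)) * q ^ ((vs ends c).card - 1) :=
        Nat.mul_le_mul_right _ (hcard.trans hT)
    _ = q ^ (Fintype.card V + ∑ a ∈ A, ((e a).card - 1)) := by
        rw [← pow_add]
        congr 1
        omega

end Comb

end Pool.Agent.LDC
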