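import Mathlib
import Pool.Agent.LDC.Comb

namespace Pool.Agent.LDC

open Finset

set_option linter.unusedSectionVars false

section Expo

variable {V E : Type*} [Fintype V] [DecidableEq V] [Fintype E] [DecidableEq E]

/-- vertices of the component `c` covered by gadgets of other components -/
def Ntouch (ends : E → Finset V) (S : Finset E) (g : E → Finset E) (c : Finset E) : Finset V :=
  (vs ends c).filter (fun z => ∃ f ∈ S, f ∉ c ∧ z ∈ vs ends (g f))

/-- vertices touched by the configuration restricted to `c` -/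
def Vof (ends : E → Finset V) (S : Finset E) (g : E → Finset E) (c : Finset E) : Finset V :=
  vs ends c ∪ (S.filter (· ∈ c)).biUnion (fun f => vs ends (g f))

/-- external vertices -/
def Ext (ends : E → Finset V) (S : Finset E) (g : E → Finset E) (H : Finset E) : Finset V :=
  (S.biUnion (fun f => vs ends (g f))) \ vs ends H

section

variable {ends : E → Finset V} (hends : ∀ e, (ends e).Nonempty)
  {C : Finset (Finset E)}
  (hdisj : ∀ c ∈ C, ∀ c' ∈ C, c ≠ c' → Disjoint (vs ends c) (vs ends c'))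

include hends hdisj in
theorem comp_unique {c c' : Finset E} (hc : c ∈ C) (hc' : c' ∈ C) {f : E} (h : f ∈ c)
    (h' : f ∈ c') : c = c' := by
  by_contra hne
  obtain ⟨v, hv⟩ := hends f
  exact (Finset.disjoint_left.1 (hdisj c hc c' hc' hne)) (mem_vs.2 ⟨f, h, hv⟩)
    (mem_vs.2 ⟨f, h', hv⟩)

variable {S : Finset E} (hS : S ⊆ C.biUnion id) {g : E → Finset E}
  (hg : ∀ f ∈ S, f ∈ g f ∧ Conn ends (g f))
  {Bs : Finset E} (hBs : Bs ⊆ C.biUnion id)
  (P1 : ∀ f ∈ S, ∀ f' ∈ g f, f' ≠ f → (∃ f'' ∈ S, f'' ≠ f ∧ f' ∈ g f'') ∨ f' ∈ Bs)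

include hends hdisj hS hg hBs P1 in
theorem exists_w {c : Finset E} (hc : c ∈ C) (ht : Ntouch ends S g c = ∅)
    (hJ : ∃ c' ∈ C, c' ≠ c ∧ ¬ Disjoint (Vof ends S g c) (Vof ends S g c')) :
    ∃ z, z ∉ vs ends c ∧ 2 ≤ (S.filter (fun f => f ∈ c ∧ z ∈ vs ends (g f))).card ∧
      ((∃ c' ∈ C, c' ≠ c ∧ z ∈ vs ends c') ∨ (∃ f ∈ S, f ∉ c ∧ z ∈ vs ends (g f))) := by
  classical
  have hN : ∀ z ∈ vs ends c, ∀ f ∈ S, f ∉ c → z ∉ vs ends (g f) := by
    intro z hz f hf hfc hzf
    have : z ∈ Ntouch ends S g c := by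
      rw [Ntouch, mem_filter]
      exact ⟨hz, f, hf, hfc, hzf⟩
    rw [ht] at this
    exact absurd this (notMem_empty _)
  -- touched predicate
  let tch : V → Prop := fun z => (∃ c' ∈ C, c' ≠ c ∧ z ∈ vs ends c') ∨
    (∃ f ∈ S, f ∉ c ∧ z ∈ vs ends (g f))
  have hunt : ∀ z ∈ vs ends c, ¬ tch z := by
    intro z hz h
    rcases h with ⟨c', hc', hne, hz'⟩ | ⟨f, hf, hfc, hzf⟩
    · exact (Finset.disjoint_left.1 (hdisj c' hc' c hc hne)) hz' hz
    · exact hN z hz f hf hfc hzf
  obtain ⟨c', hc', hne, hnd⟩ := hJ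
  rw [Finset.not_disjoint_iff] at hnd
  obtain ⟨z0, hz1, hz2⟩ := hnd
  have htz : z0 ∉ vs ends c → tch z0 := by
    intro _
    rw [Vof, mem_union, mem_biUnion] at hz2
    rcases hz2 with h | ⟨f1, hf1, hz⟩
    · exact Or.inl ⟨c', hc', hne, h⟩
    · rw [mem_filter] at hf1
      refine Or.inr ⟨f1, hf1.1, ?_, hz⟩
      intro hfc
      exact hne (comp_unique hends hdisj hc' hc hf1.2 hfc)
  have hz0c : z0 ∉ vs ends c := by
    intro hz0
    rw [Vof, mem_union, mem_biUnion] at hz2
    rcases hz2 with h | ⟨f1, hf1, hz⟩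
    · exact (Finset.disjoint_left.1 (hdisj c' hc' c hc hne)) h hz0
    · rw [mem_filter] at hf1
      exact hN z0 hz0 f1 hf1.1 (fun hfc => hne (comp_unique hends hdisj hc' hc hf1.2 hfc)) hz
  have htz0 := htz hz0c
  rw [Vof, mem_union, mem_biUnion] at hz1
  obtain ⟨f0, hf0, hz0f⟩ := hz1.resolve_left hz0c
  rw [mem_filter] at hf0
  obtain ⟨hf0S, hf0c⟩ := hf0
  set A : Finset V := (vs ends (g f0)).filter (fun z => ¬ tch z) with hA
  have hf0A : ends f0 ⊆ A := by
    intro v hv
    rw [hA, mem_filter]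
    exact ⟨ends_subset_vs (hg f0 hf0S).1 hv, hunt v (ends_subset_vs hf0c hv)⟩
  have hex : ∃ e ∈ g f0, ¬ (ends e ⊆ A ∨ Disjoint (ends e) A) := by
    by_contra hcon
    push Not at hcon
    have h1 := (hg f0 hf0S).2 A (by
      intro e he
      by_cases h : ends e ⊆ A
      · exact Or.inl h
      · exact Or.inr (by
          by_contra h2
          exact h2 ((hcon e he).resolve_left h)))
    rcases h1 with h1 | h1
    · obtain ⟨e, he, hze⟩ := mem_vs.1 hz0f
      have := h1 e he hze
      rw [hA, mem_filter] at this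
      exact this.2 htz0
    · obtain ⟨v, hv⟩ := hends f0
      exact (Finset.disjoint_left.1 (h1 f0 (hg f0 hf0S).1)) hv (hf0A hv)
  obtain ⟨e, he, hne2⟩ := hex
  rw [not_or] at hne2
  obtain ⟨hn1, hn2⟩ := hne2
  rw [Finset.not_disjoint_iff] at hn2
  obtain ⟨a, hae, haA⟩ := hn2
  rw [Finset.not_subset] at hn1
  obtain ⟨b, hbe, hbA⟩ := hn1
  have hau : ¬ tch a := (mem_filter.1 haA).2
  have hbg : b ∈ vs ends (g f0) := ends_subset_vs he hbe
  have hbt : tch b := by
    by_contra h
    exact hbA (mem_filter.2 ⟨hbg, h⟩)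
  have hbc : b ∉ vs ends c := fun h => hunt b h hbt
  have hef : e ≠ f0 := by
    rintro rfl
    exact hbA (hf0A hbe)
  refine ⟨b, hbc, ?_, hbt⟩
  rcases P1 f0 hf0S e he hef with ⟨f'', hf'', hne3, hef''⟩ | hB
  · have hc'' : f'' ∈ c := by
      by_contra h
      exact hau (Or.inr ⟨f'', hf'', h, ends_subset_vs hef'' hae⟩)
    have hsub : ({f0, f''} : Finset E) ⊆ S.filter (fun f => f ∈ c ∧ b ∈ vs ends (g f)) := by
      intro x hx
      rw [mem_insert, mem_singleton] at hx
      rcases hx with rfl | rfl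
      · exact mem_filter.2 ⟨hf0S, hf0c, hbg⟩
      · exact mem_filter.2 ⟨hf'', hc'', ends_subset_vs hef'' hbe⟩
    have := card_le_card hsub
    rwa [card_pair (Ne.symm hne3)] at this
  · exfalso
    obtain ⟨c1, hc1, hec1⟩ := mem_biUnion.1 (hBs hB)
    by_cases h : c1 = c
    · subst h
      exact hbc (ends_subset_vs hec1 hbe)
    · exact hau (Or.inl ⟨c1, hc1, h, ends_subset_vs hec1 hae⟩)

include hends hdisj hS hg hBs P1 in
theorem expo_lemma [Nonempty V] (J : Finset (Finset E)) (hJC : J ⊆ C)
    (hJ : ∀ c ∈ J, ∃ c' ∈ C, c' ≠ c ∧ ¬ Disjoint (Vof ends S g c) (Vof ends S g c')) :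
    ∑ c ∈ C, ∑ f ∈ S.filter (· ∈ c), ((vs ends (g f) ∩ vs ends c).card - 1) +
      ∑ c ∈ C, ((Ntouch ends S g c).card - 1) +
      2 * (Ext ends S g (C.biUnion id)).card + J.card ≤ ∑ f ∈ S, ((vs ends (g f)).card - 1) := by
  classical
  have hcp : ∀ f ∈ S, ∃ c ∈ C, f ∈ c := by
    intro f hf
    obtain ⟨c, hc, h⟩ := mem_biUnion.1 (hS hf)
    exact ⟨c, hc, h⟩
  set J0 := J.filter (fun c => Ntouch ends S g c = ∅) with hJ0
  have hw : ∀ c : Finset E, ∃ z : V, c ∈ J0 → (z ∉ vs ends c ∧
      2 ≤ (S.filter (fun f => f ∈ c ∧ z ∈ vs ends (g f))).card ∧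
      ((∃ c' ∈ C, c' ≠ c ∧ z ∈ vs ends c') ∨ (∃ f ∈ S, f ∉ c ∧ z ∈ vs ends (g f)))) := by
    intro c
    by_cases h : c ∈ J0
    · have h' := h
      rw [hJ0, mem_filter] at h
      obtain ⟨z, hz⟩ := exists_w hends hdisj hS hg hBs P1 (hJC h.1) h.2 (hJ c h.1)
      exact ⟨z, fun _ => hz⟩
    · exact ⟨Classical.arbitrary V, fun h' => absurd h' h⟩
  choose w hw using hw
  have hJ0C : ∀ c ∈ J0, c ∈ C := fun c hc => hJC (mem_filter.1 hc).1
  -- coverage numbers
  set k : Finset E → V → ℕ := fun c z =>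
    (S.filter (fun f => f ∈ c ∧ z ∈ vs ends (g f) ∧ z ∉ vs ends c)).card with hk
  set cov : V → ℕ := fun z => ∑ c ∈ C, k c z with hcov
  set r : V → ℕ := fun z => (J0.filter (fun c => w c = z)).card with hr
  have hk2 : ∀ c ∈ J0, 2 ≤ k c (w c) := by
    intro c hc
    obtain ⟨h1, h2, h3⟩ := hw c hc
    have : (S.filter (fun f => f ∈ c ∧ w c ∈ vs ends (g f))) =
        (S.filter (fun f => f ∈ c ∧ w c ∈ vs ends (g f) ∧ w c ∉ vs ends c)) := by
      apply filter_congr
      intro f _
      simp [h1]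
    rw [hk]
    simpa [← this] using h2
  have hNle : ∀ z, (C.filter (fun c => z ∈ Ntouch ends S g c)).card ≤ 1 := by
    intro z
    rw [card_le_one]
    intro c hc c' hc'
    rw [mem_filter] at hc hc'
    by_contra hne
    exact (Finset.disjoint_left.1 (hdisj c hc.1 c' hc'.1 hne)) (mem_filter.1 hc.2).1
      (mem_filter.1 hc'.2).1
  -- foreign gadgets give coverage
  have hfor : ∀ c ∈ C, ∀ f ∈ S, f ∉ c → ∀ z ∈ vs ends (g f), (z ∈ vs ends c ∨
      ∀ c' ∈ C, z ∉ vs ends c') → ∃ c' ∈ C, c' ≠ c ∧ 1 ≤ k c' z := by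
    intro c hc f hf hfc z hz hor
    obtain ⟨c', hc', hfc'⟩ := hcp f hf
    have hne : c' ≠ c := by rintro rfl; exact hfc hfc'
    refine ⟨c', hc', hne, ?_⟩
    have hzc' : z ∉ vs ends c' := by
      rcases hor with h | h
      · exact fun h' => (Finset.disjoint_left.1 (hdisj c' hc' c hc hne)) h' h
      · exact h c' hc'
    rw [hk]
    apply card_pos.2
    exact ⟨f, mem_filter.2 ⟨hf, hfc', hz, hzc'⟩⟩
  have hExtN : ∀ z ∈ Ext ends S g (C.biUnion id), ∀ c ∈ C, z ∉ vs ends c := by
    intro z hz c hc hzc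
    rw [Ext, mem_sdiff] at hz
    exact hz.2 (vs_mono (subset_biUnion_of_mem id hc) hzc)
  have claim : ∀ z, (C.filter (fun c => z ∈ Ntouch ends S g c)).card +
      2 * (if z ∈ Ext ends S g (C.biUnion id) then 1 else 0) + r z ≤ cov z := by
    intro z
    have hsumr : 2 * r z ≤ ∑ c ∈ J0.filter (fun c => w c = z), k c z := by
      rw [hr, mul_comm, ← smul_eq_mul, ← Finset.sum_const]
      apply Finset.sum_le_sum
      intro c hc
      rw [mem_filter] at hc
      have := hk2 c hc.1
      rwa [hc.2] at this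
    have hsub : J0.filter (fun c => w c = z) ⊆ C := fun c hc => hJ0C c (mem_filter.1 hc).1
    have hcr : ∑ c ∈ J0.filter (fun c => w c = z), k c z ≤ cov z :=
      Finset.sum_le_sum_of_subset hsub
    by_cases hz : z ∈ Ext ends S g (C.biUnion id)
    · have hN0 : (C.filter (fun c => z ∈ Ntouch ends S g c)).card = 0 := by
        rw [card_eq_zero, filter_eq_empty_iff]
        intro c hc hzc
        exact hExtN z hz c hc (mem_filter.1 hzc).1
      rw [hN0, if_pos hz]
      rcases Nat.lt_or_ge (r z) 2 with hlt | hge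
      · rcases Nat.eq_zero_or_pos (r z) with h0 | hpos
        · -- r = 0
          rw [h0]
          have hz' := hz
          rw [Ext, mem_sdiff, mem_biUnion] at hz'
          obtain ⟨⟨f, hf, hzf⟩, hzH⟩ := hz'
          obtain ⟨f', hf', hzf'⟩ := mem_vs.1 hzf
          have hne : f' ≠ f := by
            rintro rfl
            exact hzH (mem_vs.2 ⟨f', hS hf, hzf'⟩)
          rcases P1 f hf f' hf' hne with ⟨f'', hf'', hne2, hfg⟩ | hB
          · obtain ⟨c, hc, hfc⟩ := hcp f hf
            obtain ⟨c'', hc'', hfc''⟩ := hcp f'' hf''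
            by_cases hcc : c = c''
            · subst hcc
              have hsub2 : ({f, f''} : Finset E) ⊆
                  S.filter (fun f => f ∈ c ∧ z ∈ vs ends (g f) ∧ z ∉ vs ends c) := by
                intro x hx
                rw [mem_insert, mem_singleton] at hx
                rcases hx with rfl | rfl
                · exact mem_filter.2 ⟨hf, hfc, hzf, hExtN z hz c hc⟩
                · exact mem_filter.2 ⟨hf'', hfc'', ends_subset_vs hfg hzf', hExtN z hz c hc⟩
              have h2 := card_le_card hsub2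
              rw [card_pair (Ne.symm hne2)] at h2
              have : k c z ≤ cov z :=
                Finset.single_le_sum (f := fun c => k c z) (fun _ _ => Nat.zero_le _) hc
              simp only [hk] at this
              omega
            · have h1 : 1 ≤ k c z := card_pos.2 ⟨f, mem_filter.2 ⟨hf, hfc, hzf, hExtN z hz c hc⟩⟩
              have h2 : 1 ≤ k c'' z := card_pos.2
                ⟨f'', mem_filter.2 ⟨hf'', hfc'', ends_subset_vs hfg hzf', hExtN z hz c'' hc''⟩⟩
              have h3 : ∑ c ∈ ({c, c''} : Finset (Finset E)), k c z ≤ cov z := by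
                apply Finset.sum_le_sum_of_subset
                intro x hx
                rw [mem_insert, mem_singleton] at hx
                rcases hx with rfl | rfl
                · exact hc
                · exact hc''
              rw [Finset.sum_pair hcc] at h3
              omega
          · exact absurd (mem_vs.2 ⟨f', hBs hB, hzf'⟩) hzH
        · -- r = 1
          have h1 : r z = 1 := by omega
          rw [h1]
          obtain ⟨c, hcs⟩ := card_eq_one.1 h1
          have hcm : c ∈ J0.filter (fun c => w c = z) := by rw [hcs]; exact mem_singleton_self _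
          rw [mem_filter] at hcm
          obtain ⟨hcJ0, hwc⟩ := hcm
          have h2 := hk2 c hcJ0
          rw [hwc] at h2
          obtain ⟨_, _, h3⟩ := hw c hcJ0
          rw [hwc] at h3
          rcases h3 with ⟨c', hc', _, hzc'⟩ | ⟨f, hf, hfc, hzf⟩
          · exact absurd hzc' (hExtN z hz c' hc')
          · obtain ⟨c', hc', hne', hk'⟩ := hfor c (hJ0C c hcJ0) f hf hfc z hzf
              (Or.inr (fun c' hc' => hExtN z hz c' hc'))
            have h3 : ∑ c ∈ ({c, c'} : Finset (Finset E)), k c z ≤ cov z := by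
              apply Finset.sum_le_sum_of_subset
              intro x hx
              rw [mem_insert, mem_singleton] at hx
              rcases hx with rfl | rfl
              · exact hJ0C _ hcJ0
              · exact hc'
            rw [Finset.sum_pair (Ne.symm hne')] at h3
            omega
      · omega
    · rw [if_neg hz]
      have hle := hNle z
      rcases Nat.eq_zero_or_pos (r z) with h0 | hpos
      · rw [h0]
        rcases Nat.eq_zero_or_pos ((C.filter (fun c => z ∈ Ntouch ends S g c)).card) with h1 | h1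
        · omega
        · obtain ⟨c, hc⟩ := card_pos.1 h1
          rw [mem_filter] at hc
          obtain ⟨hcC, hcN⟩ := hc
          rw [Ntouch, mem_filter] at hcN
          obtain ⟨hzc, f, hf, hfc, hzf⟩ := hcN
          obtain ⟨c', hc', hne', hk'⟩ := hfor c hcC f hf hfc z hzf (Or.inl hzc)
          have : k c' z ≤ cov z :=
            Finset.single_le_sum (f := fun c => k c z) (fun _ _ => Nat.zero_le _) hc'
          omega
      · omega
  -- sum over z
  have hsum : ∑ c ∈ C, (Ntouch ends S g c).card + 2 * (Ext ends S g (C.biUnion id)).card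
      + J0.card ≤ ∑ z, cov z := by
    have h1 : ∑ z : V, (C.filter (fun c => z ∈ Ntouch ends S g c)).card =
        ∑ c ∈ C, (Ntouch ends S g c).card := by
      simp_rw [Finset.card_filter]
      rw [Finset.sum_comm]
      apply Finset.sum_congr rfl
      intro c _
      rw [← Finset.card_filter]
      congr 1
      ext z
      simp
    have h2 : ∑ z : V, 2 * (if z ∈ Ext ends S g (C.biUnion id) then 1 else 0) =
        2 * (Ext ends S g (C.biUnion id)).card := by
      rw [← Finset.mul_sum]
      simp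
    have h3 : ∑ z : V, r z = J0.card := by
      rw [hr]
      exact (Finset.card_eq_sum_card_fiberwise (fun _ _ => mem_univ _)).symm
    rw [← h1, ← h2, ← h3, ← Finset.sum_add_distrib, ← Finset.sum_add_distrib]
    exact Finset.sum_le_sum (fun z _ => claim z)
  -- double counting
  have hdc : ∑ z, cov z = ∑ c ∈ C, ∑ f ∈ S.filter (· ∈ c), (vs ends (g f) \ vs ends c).card := by
    rw [hcov, Finset.sum_comm]
    apply Finset.sum_congr rfl
    intro c _
    simp_rw [hk, Finset.card_filter]
    rw [Finset.sum_comm, Finset.sum_filter]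
    apply Finset.sum_congr rfl
    intro f _
    by_cases hfc : f ∈ c
    · simp only [hfc, true_and, if_true]
      rw [← Finset.card_filter]
      congr 1
      ext z
      simp [mem_sdiff]
    · simp [hfc]
  have hpart : ∀ F : E → ℕ, ∑ f ∈ S, F f = ∑ c ∈ C, ∑ f ∈ S.filter (· ∈ c), F f := by
    intro F
    simp_rw [Finset.sum_filter]
    rw [Finset.sum_comm]
    apply Finset.sum_congr rfl
    intro f hf
    obtain ⟨c, hc, hfc⟩ := hcp f hf
    rw [Finset.sum_eq_single_of_mem c hc]
    · rw [if_pos hfc]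
    · intro c' hc' hne
      rw [if_neg]
      intro h
      exact hne (comp_unique hends hdisj hc' hc h hfc)
  have hsplit : ∑ f ∈ S, ((vs ends (g f)).card - 1) =
      ∑ c ∈ C, ∑ f ∈ S.filter (· ∈ c), ((vs ends (g f) ∩ vs ends c).card - 1) +
      ∑ c ∈ C, ∑ f ∈ S.filter (· ∈ c), (vs ends (g f) \ vs ends c).card := by
    rw [hpart, ← Finset.sum_add_distrib]
    apply Finset.sum_congr rfl
    intro c _
    rw [← Finset.sum_add_distrib]
    apply Finset.sum_congr rfl
    intro f hf
    rw [mem_filter] at hf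
    have h1 : 1 ≤ (vs ends (g f) ∩ vs ends c).card := by
      apply card_pos.2
      obtain ⟨v, hv⟩ := hends f
      exact ⟨v, mem_inter.2 ⟨ends_subset_vs (hg f hf.1).1 hv, ends_subset_vs hf.2 hv⟩⟩
    have h2 := card_sdiff_add_card_inter (vs ends (g f)) (vs ends c)
    omega
  have hJcard : J.card ≤ J0.card + (C.filter (fun c => Ntouch ends S g c ≠ ∅)).card := by
    have := card_filter_add_card_filter_not (s := J) (fun c => Ntouch ends S g c = ∅)
    have h2 : (J.filter (fun c => ¬ Ntouch ends S g c = ∅)).card ≤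
        (C.filter (fun c => Ntouch ends S g c ≠ ∅)).card :=
      card_le_card (filter_subset_filter _ hJC)
    rw [hJ0]
    omega
  have hNN : ∑ c ∈ C, ((Ntouch ends S g c).card - 1) +
      (C.filter (fun c => Ntouch ends S g c ≠ ∅)).card ≤ ∑ c ∈ C, (Ntouch ends S g c).card := by
    rw [Finset.card_filter, ← Finset.sum_add_distrib]
    apply Finset.sum_le_sum
    intro c _
    split_ifs with h
    · have : 0 < (Ntouch ends S g c).card := card_pos.2 (nonempty_iff_ne_empty.2 h)
      omega
    · simp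
  rw [hsplit, ← hdc]
  omega

end

end Expo

end Pool.Agent.LDC
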