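import Mathlib
import Pool.Agent.LDC.Comb
import Pool.Agent.LDC.Expo
import Pool.Agent.LDC.Avg

namespace Pool.Agent.LDC

open Finset

set_option linter.unusedSectionVars false

/-- options for an edge: `none` = inside a colour class, `some none` = base,
`some (some g)` = gadget -/
abbrev Opt (E : Type*) := Option (Option (Finset E))

/-- the hidden variable with values `0, 0, 1, -1` -/
noncomputable def xi (a : Fin 4) : ℝ := if a = 2 then 1 else if a = 3 then -1 else 0

/-- exchange of the two signs -/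
def sw : Equiv.Perm (Fin 4) := Equiv.swap 2 3

theorem xi_sw (a : Fin 4) : xi (sw a) = - xi a := by
  fin_cases a <;> simp [xi, sw, Equiv.swap_apply_def]

theorem abs_xi_le (a : Fin 4) : |xi a| ≤ 1 := by
  fin_cases a <;> simp [xi]

theorem xi_sq_mem (a : Fin 4) : 0 ≤ 1 - xi a ^ 2 ∧ 1 - xi a ^ 2 ≤ 1 := by
  fin_cases a <;> simp [xi]

section Model

variable {V E : Type*} [Fintype V] [DecidableEq V] [Fintype E] [DecidableEq E]

/-- options available at `f` -/
def opts (Gd : Finset (Finset E)) (f : E) : Finset (Opt E) :=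
  insert none (insert (some none) ((Gd.filter (fun g => f ∈ g)).image (fun g => some (some g))))

/-- the edge `f` is monochromatic -/
def Within {q : ℕ} (ends : E → Finset V) (σ : V → ZMod q) (f : E) : Prop :=
  ∀ u ∈ ends f, ∀ v ∈ ends f, σ u = σ v

/-- monomials -/
noncomputable def mon (f : E) (t : Opt E) (ω : E → Fin 4) : ℝ :=
  match t with
  | none => 1
  | some none => xi (ω f)
  | some (some g) => (1 - xi (ω f) ^ 2) * ∏ f' ∈ g.erase f, xi (ω f')

open Classical in
/-- colour factors -/
noncomputable def col {q : ℕ} (ends : E → Finset V) (f : E) (t : Opt E) (σ : V → ZMod q) : ℝ :=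
  match t with
  | none => if Within ends σ f then -1 else 0
  | some _ => if Within ends σ f then 0 else 1

/-- weights -/
def wt (lam : Finset E → ℝ) (t : Opt E) : ℝ :=
  match t with
  | some (some g) => lam g
  | _ => 1

/-- the bias of the output edges -/
noncomputable def mf (Gd : Finset (Finset E)) (lam : Finset E → ℝ) (f : E) (ω : E → Fin 4) : ℝ :=
  ∑ g ∈ Gd.filter (fun g => f ∈ g), lam g * ∏ f' ∈ g.erase f, xi (ω f')

open Classical in
/-- the conditional mean of the edge variable -/
noncomputable def mu {q : ℕ} (ends : E → Finset V) (Gd : Finset (Finset E))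
    (lam : Finset E → ℝ) (f : E) (σ : V → ZMod q) (ω : E → Fin 4) : ℝ :=
  if Within ends σ f then -1 else xi (ω f) + (1 - xi (ω f) ^ 2) * mf Gd lam f ω

theorem sum_opts (Gd : Finset (Finset E)) (f : E) (F : Opt E → ℝ) :
    ∑ t ∈ opts Gd f, F t = F none + (F (some none) +
      ∑ g ∈ Gd.filter (fun g => f ∈ g), F (some (some g))) := by
  unfold opts
  rw [Finset.sum_insert, Finset.sum_insert, Finset.sum_image]
  · intro a _ b _ h
    simpa using h
  · simp
  · simp

variable {q : ℕ} [NeZero q] (ends : E → Finset V) (Gd : Finset (Finset E))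
  (lam : Finset E → ℝ)

theorem mu_eq (f : E) (σ : V → ZMod q) (ω : E → Fin 4) :
    mu ends Gd lam f σ ω = ∑ t ∈ opts Gd f, col ends f t σ * (wt lam t * mon f t ω) := by
  classical
  rw [sum_opts]
  unfold mu mf col wt mon
  by_cases h : Within ends σ f
  · simp [h]
  · simp only [h, if_false, zero_mul, zero_add, one_mul]
    congr 1
    rw [Finset.mul_sum]
    apply Finset.sum_congr rfl
    intro g _
    ring

/-- colour coefficient -/
noncomputable def kap (q : ℕ) [NeZero q] (ends : E → Finset V) (c : Finset E) (T : E → Opt E) : ℝ :=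
  av (fun σ : V → ZMod q => ∏ f ∈ c, col ends f (T f) σ)

/-- product of the weights -/
noncomputable def Wt (lam : Finset E → ℝ) (c : Finset E) (T : E → Opt E) : ℝ :=
  ∏ f ∈ c, wt lam (T f)

/-- product of the monomials -/
noncomputable def Mon (c : Finset E) (T : E → Opt E) (ω : E → Fin 4) : ℝ :=
  ∏ f ∈ c, mon f (T f) ω

/-- the colour average -/
noncomputable def psi (q : ℕ) [NeZero q] (ends : E → Finset V) (Gd : Finset (Finset E))
    (lam : Finset E → ℝ) (c : Finset E) (ω : E → Fin 4) : ℝ :=
  av (fun σ : V → ZMod q => ∏ f ∈ c, mu ends Gd lam f σ ω)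

/-- the untruncated moment -/
noncomputable def Phi (q : ℕ) [NeZero q] (ends : E → Finset V) (Gd : Finset (Finset E))
    (lam : Finset E → ℝ) (H : Finset E) : ℝ :=
  av (fun ω : E → Fin 4 => psi q ends Gd lam H ω)

theorem psi_eq (c : Finset E) (ω : E → Fin 4) :
    psi q ends Gd lam c ω =
      ∑ T ∈ TT (opts Gd) none c, kap q ends c T * Wt lam c T * Mon c T ω := by
  unfold psi
  have h1 : ∀ σ : V → ZMod q, ∏ f ∈ c, mu ends Gd lam f σ ω =
      ∑ T ∈ TT (opts Gd) none c, (∏ f ∈ c, col ends f (T f) σ) * (Wt lam c T * Mon c T ω) := by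
    intro σ
    rw [Finset.prod_congr rfl (fun f _ => mu_eq ends Gd lam f σ ω),
      prod_sum_TT (opts Gd) none c (fun f t => col ends f t σ * (wt lam t * mon f t ω))]
    apply Finset.sum_congr rfl
    intro T _
    rw [Finset.prod_mul_distrib, Finset.prod_mul_distrib]
    rfl
  simp_rw [h1]
  rw [av_sum]
  apply Finset.sum_congr rfl
  intro T _
  rw [av_mul_right]
  unfold kap
  ring

theorem Phi_eq (H : Finset E) :
    Phi q ends Gd lam H =
      ∑ T ∈ TT (opts Gd) none H, kap q ends H T * Wt lam H T * av (Mon H T) := by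
  unfold Phi
  simp_rw [psi_eq]
  rw [av_sum]
  apply Finset.sum_congr rfl
  intro T _
  rw [av_mul_left]

theorem within_dep (f : E) {σ τ : V → ZMod q} (h : ∀ v ∈ ends f, σ v = τ v) :
    Within ends σ f ↔ Within ends τ f := by
  unfold Within
  constructor
  · intro h1 u hu v hv
    rw [← h u hu, ← h v hv]
    exact h1 u hu v hv
  · intro h1 u hu v hv
    rw [h u hu, h v hv]
    exact h1 u hu v hv

theorem mu_dep (c : Finset E) (ω : E → Fin 4) :
    DependsOn' (fun σ : V → ZMod q => ∏ f ∈ c, mu ends Gd lam f σ ω) (vs ends c : Set V) := by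
  intro σ τ h
  apply Finset.prod_congr rfl
  intro f hf
  have : Within ends σ f ↔ Within ends τ f := by
    apply within_dep
    intro v hv
    exact h v (ends_subset_vs hf hv)
  show mu ends Gd lam f σ ω = mu ends Gd lam f τ ω
  unfold mu
  by_cases h1 : Within ends σ f
  · rw [if_pos h1, if_pos (this.1 h1)]
  · rw [if_neg h1, if_neg (fun h2 => h1 (this.2 h2))]

theorem psi_prod {C : Finset (Finset E)}
    (hdisj : ∀ c ∈ C, ∀ c' ∈ C, c ≠ c' → Disjoint (vs ends c) (vs ends c'))
    (hedge : ∀ c ∈ C, ∀ c' ∈ C, c ≠ c' → Disjoint c c') (ω : E → Fin 4) :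
    psi q ends Gd lam (C.biUnion id) ω = ∏ c ∈ C, psi q ends Gd lam c ω := by
  unfold psi
  have h1 : ∀ σ : V → ZMod q, ∏ f ∈ C.biUnion id, mu ends Gd lam f σ ω =
      ∏ c ∈ C, ∏ f ∈ c, mu ends Gd lam f σ ω := by
    intro σ
    rw [Finset.prod_biUnion]
    · rfl
    · intro c hc c' hc' hne
      exact hedge c hc c' hc' hne
  rw [show (fun σ : V → ZMod q => ∏ f ∈ C.biUnion id, mu ends Gd lam f σ ω) =
    fun σ => ∏ c ∈ C, ∏ f ∈ c, mu ends Gd lam f σ ω from funext h1]
  exact av_prod_indep (fun c _ => mu_dep ends Gd lam c ω)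
    (fun c hc c' hc' hne => by
      rw [Finset.disjoint_coe]
      exact hdisj c hc c' hc' hne)

theorem kap_loc (c : Finset E) : Loc (kap q ends c) c := by
  intro S T h
  unfold kap
  congr 1
  funext σ
  apply Finset.prod_congr rfl
  intro f hf
  rw [h f hf]

theorem Wt_loc (c : Finset E) : Loc (Wt lam c) c := by
  intro S T h
  unfold Wt
  apply Finset.prod_congr rfl
  intro f hf
  rw [h f hf]

theorem Mon_loc (c : Finset E) {S T : E → Opt E} (h : ∀ f ∈ c, S f = T f) (ω : E → Fin 4) :
    Mon c S ω = Mon c T ω := by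
  unfold Mon
  apply Finset.prod_congr rfl
  intro f hf
  rw [h f hf]

/-- the term of a component -/
noncomputable def Mc (q : ℕ) [NeZero q] (ends : E → Finset V) (lam : Finset E → ℝ)
    (c : Finset E) (T : E → Opt E) (ω : E → Fin 4) : ℝ :=
  kap q ends c T * Wt lam c T * Mon c T ω

theorem Mc_loc (c : Finset E) {S T : E → Opt E} (h : ∀ f ∈ c, S f = T f) (ω : E → Fin 4) :
    Mc q ends lam c S ω = Mc q ends lam c T ω := by
  unfold Mc
  rw [kap_loc ends c S T h, Wt_loc lam c S T h, Mon_loc c h ω]

/-- centring constants -/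
noncomputable def bet (q : ℕ) [NeZero q] (ends : E → Finset V) (lam : Finset E → ℝ)
    (Sm : Finset (Finset E)) (c : Finset E) (T : E → Opt E) : ℝ :=
  if c ∈ Sm then av (Mc q ends lam c T) else 0

theorem Phi_centred {C Sm : Finset (Finset E)}
    (hdisj : ∀ c ∈ C, ∀ c' ∈ C, c ≠ c' → Disjoint (vs ends c) (vs ends c'))
    (hedge : ∀ c ∈ C, ∀ c' ∈ C, c ≠ c' → Disjoint c c')
    (hSm : ∀ c ∈ Sm, Phi q ends Gd lam c = 0) :
    Phi q ends Gd lam (C.biUnion id) =
      ∑ T ∈ TT (opts Gd) none (C.biUnion id),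
        av (fun ω => ∏ c ∈ C, (Mc q ends lam c T ω + - bet q ends lam Sm c T)) := by
  unfold Phi
  have h1 : ∀ c ∈ C, ∀ ω, psi q ends Gd lam c ω =
      ∑ T ∈ TT (opts Gd) none c, (Mc q ends lam c T ω + - bet q ends lam Sm c T) := by
    intro c _ ω
    rw [psi_eq, Finset.sum_add_distrib]
    have h2 : ∑ T ∈ TT (opts Gd) none c, - bet q ends lam Sm c T = 0 := by
      unfold bet
      by_cases hc : c ∈ Sm
      · simp only [hc, if_true]
        rw [Finset.sum_neg_distrib, neg_eq_zero]
        have := hSm c hc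
        rw [Phi_eq] at this
        rw [← this]
        apply Finset.sum_congr rfl
        intro T _
        unfold Mc
        rw [av_mul_left]
      · simp [hc]
    rw [h2, add_zero]
    rfl
  have h3 : ∀ ω, psi q ends Gd lam (C.biUnion id) ω =
      ∑ T ∈ TT (opts Gd) none (C.biUnion id),
        ∏ c ∈ C, (Mc q ends lam c T ω + - bet q ends lam Sm c T) := by
    intro ω
    rw [psi_prod ends Gd lam hdisj hedge, Finset.prod_congr rfl (fun c hc => h1 c hc ω)]
    rw [prod_sum_comp hedge (F := fun c T => (Mc q ends lam c T ω + - bet q ends lam Sm c T))]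
    intro c _ S T h
    simp only
    rw [Mc_loc ends lam c h ω]
    congr 2
    unfold bet
    by_cases hc : c ∈ Sm
    · simp only [hc, if_true]
      congr 1
      funext ω'
      exact Mc_loc ends lam c h ω'
    · simp [hc]
  simp_rw [h3]
  rw [av_sum]

end Model

end Pool.Agent.LDC
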