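import Mathlib
import Pool.Agent.LDC.Model

namespace Pool.Agent.LDC

open Finset

set_option linter.unusedSectionVars false

section Parity

variable {V E : Type*} [Fintype V] [DecidableEq V] [Fintype E] [DecidableEq E]

/-- is the option a gadget -/
def isGad (t : Opt E) : Bool :=
  match t with
  | some (some _) => true
  | _ => false

/-- the gadget at `f` -/
def gad (T : E → Opt E) (f : E) : Finset E :=
  match T f with
  | some (some g) => g
  | _ => ∅

/-- gadget edges -/
def SG (H : Finset E) (T : E → Opt E) : Finset E := H.filter (fun f => isGad (T f) = true)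

/-- base edges -/
def BS (H : Finset E) (T : E → Opt E) : Finset E := H.filter (fun f => T f = some none)

/-- inner edges -/
def INN (H : Finset E) (T : E → Opt E) : Finset E := H.filter (fun f => T f = none)

theorem mem_SG {H : Finset E} {T : E → Opt E} {f : E} :
    f ∈ SG H T ↔ f ∈ H ∧ T f = some (some (gad T f)) := by
  unfold SG
  rw [mem_filter]
  constructor
  · rintro ⟨h1, h2⟩
    refine ⟨h1, ?_⟩
    unfold isGad at h2
    unfold gad
    match hT : T f, h2 with
    | some (some g), _ => rfl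
    | some none, h2 => simp at h2
    | none, h2 => simp at h2
  · rintro ⟨h1, h2⟩
    refine ⟨h1, ?_⟩
    rw [h2]
    rfl

theorem gad_of_eq {T : E → Opt E} {f : E} {g : Finset E} (h : T f = some (some g)) :
    gad T f = g := by
  unfold gad
  rw [h]

theorem mem_SG_of_TT {Gd : Finset (Finset E)} {H : Finset E} {T : E → Opt E}
    (hT : T ∈ TT (opts Gd) none H) {f : E} (hf : f ∈ SG H T) :
    gad T f ∈ Gd ∧ f ∈ gad T f := by
  rw [mem_SG] at hf
  have h1 := (mem_TT.1 hT).1 f hf.1
  rw [hf.2] at h1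
  unfold opts at h1
  simp only [mem_insert, reduceCtorEq, Option.some.injEq, mem_image, mem_filter, false_or,
    exists_eq_right] at h1
  exact h1

theorem cases_opt {H : Finset E} {T : E → Opt E} {f : E} (hf : f ∈ H) :
    f ∈ INN H T ∨ f ∈ BS H T ∨ f ∈ SG H T := by
  match hT : T f with
  | none => exact Or.inl (mem_filter.2 ⟨hf, hT⟩)
  | some none => exact Or.inr (Or.inl (mem_filter.2 ⟨hf, hT⟩))
  | some (some g) =>
    refine Or.inr (Or.inr (mem_SG.2 ⟨hf, ?_⟩))
    rw [gad_of_eq hT]; exact hT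

/-- the variable of `e` occurs oddly in the monomial of `f` -/
def ch (f : E) (t : Opt E) (e : E) : Bool :=
  match t with
  | none => false
  | some none => decide (f = e)
  | some (some g) => decide (e ∈ g.erase f)

/-- sign flip at `e` -/
def flipE (e : E) : (E → Fin 4) ≃ (E → Fin 4) :=
  Equiv.piCongrRight (fun i => if i = e then sw else Equiv.refl _)

theorem xi_flipE (e i : E) (ω : E → Fin 4) :
    xi (flipE e ω i) = (if i = e then -1 else 1) * xi (ω i) := by
  unfold flipE
  rw [Equiv.piCongrRight_apply, Pi.map_apply]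
  by_cases h : i = e
  · simp only [h, if_true]
    rw [xi_sw]; ring
  · simp only [h, if_false]
    simp

theorem mon_flip (f : E) (t : Opt E) (e : E) (ω : E → Fin 4) :
    mon f t (flipE e ω) = (if ch f t e = true then -1 else 1) * mon f t ω := by
  match t with
  | none => simp [mon, ch]
  | some none =>
    simp only [mon, ch, decide_eq_true_eq]
    exact xi_flipE e f ω
  | some (some g) =>
    simp only [mon, ch, decide_eq_true_eq]
    have h1 : xi (flipE e ω f) ^ 2 = xi (ω f) ^ 2 := by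
      rw [xi_flipE]
      split_ifs <;> ring
    have h2 : ∏ f' ∈ g.erase f, xi (flipE e ω f') =
        (if e ∈ g.erase f then -1 else 1) * ∏ f' ∈ g.erase f, xi (ω f') := by
      rw [Finset.prod_congr rfl (fun f' _ => xi_flipE e f' ω), Finset.prod_mul_distrib]
      congr 1
      rw [Finset.prod_ite_eq']
    rw [h1, h2]
    ring

theorem Mon_flip (F : Finset E) (T : E → Opt E) (e : E) (ω : E → Fin 4) :
    Mon F T (flipE e ω) =
      (-1) ^ (F.filter (fun f => ch f (T f) e = true)).card * Mon F T ω := by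
  unfold Mon
  rw [Finset.prod_congr rfl (fun f _ => mon_flip f (T f) e ω), Finset.prod_mul_distrib]
  congr 1
  rw [Finset.prod_ite]
  simp

theorem parity {F : Finset E} {T : E → Opt E} (h : av (Mon F T) ≠ 0) (e : E) :
    Even (F.filter (fun f => ch f (T f) e = true)).card := by
  by_contra hodd
  rw [Nat.not_even_iff_odd] at hodd
  apply h
  apply av_eq_zero_of_flip (flipE e)
  intro ω
  rw [Mon_flip, hodd.neg_one_pow]
  ring

/-- the second occurrence -/
theorem second_occ {F : Finset E} {T : E → Opt E} (h : av (Mon F T) ≠ 0) {e f : E} (hf : f ∈ F)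
    (hch : ch f (T f) e = true) : ∃ f' ∈ F, f' ≠ f ∧ ch f' (T f') e = true := by
  have hev := parity h e
  have h1 : f ∈ F.filter (fun f => ch f (T f) e = true) := mem_filter.2 ⟨hf, hch⟩
  have h2 : 1 < (F.filter (fun f => ch f (T f) e = true)).card := by
    have h3 : 0 < (F.filter (fun f => ch f (T f) e = true)).card := card_pos.2 ⟨f, h1⟩
    obtain ⟨k, hk⟩ := hev
    omega
  obtain ⟨f', hf', hne⟩ := exists_mem_ne h2 f
  rw [mem_filter] at hf'
  exact ⟨f', hf'.1, hne, hf'.2⟩

theorem abs_mon_le (f : E) (t : Opt E) (ω : E → Fin 4) : |mon f t ω| ≤ 1 := by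
  match t with
  | none => simp [mon]
  | some none => exact abs_xi_le _
  | some (some g) =>
    simp only [mon]
    rw [abs_mul, Finset.abs_prod]
    have h1 : |1 - xi (ω f) ^ 2| ≤ 1 := by
      obtain ⟨h1, h2⟩ := xi_sq_mem (ω f)
      rw [abs_of_nonneg h1]; exact h2
    have h2 : ∏ f' ∈ g.erase f, |xi (ω f')| ≤ 1 :=
      Finset.prod_le_one (fun _ _ => abs_nonneg _) (fun _ _ => abs_xi_le _)
    exact mul_le_one₀ h1 (Finset.prod_nonneg (fun _ _ => abs_nonneg _)) h2

theorem abs_Mon_le (F : Finset E) (T : E → Opt E) (ω : E → Fin 4) : |Mon F T ω| ≤ 1 := by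
  unfold Mon
  rw [Finset.abs_prod]
  exact Finset.prod_le_one (fun _ _ => abs_nonneg _) (fun f _ => abs_mon_le f _ ω)

variable {q : ℕ} [NeZero q] (ends : E → Finset V) (Gd : Finset (Finset E))
  (lam : Finset E → ℝ)

/-- the coefficient of a configuration -/
noncomputable def coef (q : ℕ) [NeZero q] (ends : E → Finset V) (lam : Finset E → ℝ)
    (C : Finset (Finset E)) (T : E → Opt E) : ℝ :=
  ∏ c ∈ C, (kap q ends c T * Wt lam c T)

theorem prod_Mc {t : Finset (Finset E)} (hedge : ∀ c ∈ t, ∀ c' ∈ t, c ≠ c' → Disjoint c c')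
    (T : E → Opt E) (ω : E → Fin 4) :
    ∏ c ∈ t, Mc q ends lam c T ω = coef q ends lam t T * Mon (t.biUnion id) T ω := by
  unfold Mc coef
  rw [Finset.prod_mul_distrib]
  congr 1
  unfold Mon
  rw [Finset.prod_biUnion]
  · rfl
  · intro c hc c' hc' hne
    exact hedge c hc c' hc' hne

/-- centred product -/
noncomputable def cen (q : ℕ) [NeZero q] (ends : E → Finset V) (lam : Finset E → ℝ)
    (C Sm : Finset (Finset E)) (T : E → Opt E) : ℝ :=
  av (fun ω => ∏ c ∈ C, (Mc q ends lam c T ω + - bet q ends lam Sm c T))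

theorem cen_expand (C Sm : Finset (Finset E))
    (hedge : ∀ c ∈ C, ∀ c' ∈ C, c ≠ c' → Disjoint c c') (T : E → Opt E) :
    cen q ends lam C Sm T = ∑ t ∈ C.powerset, coef q ends lam t T *
      av (Mon (t.biUnion id) T) * ∏ c ∈ C \ t, (- bet q ends lam Sm c T) := by
  unfold cen
  simp_rw [Finset.prod_add]
  rw [av_sum]
  apply Finset.sum_congr rfl
  intro t ht
  rw [mem_powerset] at ht
  rw [av_mul_right]
  congr 1
  rw [← av_mul_left]
  congr 1
  funext ω
  exact prod_Mc ends lam (fun c hc c' hc' => hedge c (ht hc) c' (ht hc')) T ω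

theorem av_Mc (c : Finset E) (T : E → Opt E) :
    av (Mc q ends lam c T) = kap q ends c T * Wt lam c T * av (Mon c T) := by
  unfold Mc
  rw [av_mul_left]

theorem abs_bet_le (Sm : Finset (Finset E)) (c : Finset E) (T : E → Opt E) :
    |bet q ends lam Sm c T| ≤ |kap q ends c T * Wt lam c T| := by
  unfold bet
  split_ifs
  · rw [av_Mc, abs_mul]
    have : |av (Mon c T)| ≤ 1 := abs_av_le_of_bound (abs_Mon_le c T)
    calc |kap q ends c T * Wt lam c T| * |av (Mon c T)| ≤ |kap q ends c T * Wt lam c T| * 1 :=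
          mul_le_mul_of_nonneg_left this (abs_nonneg _)
      _ = _ := mul_one _
  · rw [abs_zero]; exact abs_nonneg _

theorem abs_cen_le (C Sm : Finset (Finset E))
    (hedge : ∀ c ∈ C, ∀ c' ∈ C, c ≠ c' → Disjoint c c') (T : E → Opt E) :
    |cen q ends lam C Sm T| ≤ 2 ^ C.card * |coef q ends lam C T| := by
  rw [cen_expand ends lam C Sm hedge T]
  refine (Finset.abs_sum_le_sum_abs _ _).trans ?_
  have h1 : ∀ t ∈ C.powerset, |coef q ends lam t T * av (Mon (t.biUnion id) T) *
      ∏ c ∈ C \ t, (- bet q ends lam Sm c T)| ≤ |coef q ends lam C T| := by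
    intro t ht
    rw [mem_powerset] at ht
    rw [abs_mul, abs_mul, Finset.abs_prod]
    have h2 : ∏ c ∈ C \ t, |(- bet q ends lam Sm c T)| ≤
        ∏ c ∈ C \ t, |kap q ends c T * Wt lam c T| := by
      apply Finset.prod_le_prod (fun _ _ => abs_nonneg _)
      intro c _
      rw [abs_neg]
      exact abs_bet_le ends lam Sm c T
    have h3 : |av (Mon (t.biUnion id) T)| ≤ 1 := abs_av_le_of_bound (abs_Mon_le _ T)
    have h4 : |coef q ends lam C T| = |coef q ends lam t T| *
        ∏ c ∈ C \ t, |kap q ends c T * Wt lam c T| := by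
      unfold coef
      rw [Finset.abs_prod, Finset.abs_prod, mul_comm, Finset.prod_sdiff ht]
    rw [h4]
    apply mul_le_mul _ h2 (Finset.prod_nonneg (fun _ _ => abs_nonneg _)) (abs_nonneg _)
    calc |coef q ends lam t T| * |av (Mon (t.biUnion id) T)| ≤ |coef q ends lam t T| * 1 :=
          mul_le_mul_of_nonneg_left h3 (abs_nonneg _)
      _ = _ := mul_one _
  refine (Finset.sum_le_sum h1).trans ?_
  rw [Finset.sum_const, card_powerset, nsmul_eq_mul]
  push_cast
  exact le_refl _

/-- if the centred product does not vanish then the parity conditions hold -/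
theorem cen_ne_zero {C Sm : Finset (Finset E)}
    (hedge : ∀ c ∈ C, ∀ c' ∈ C, c ≠ c' → Disjoint c c') {T : E → Opt E}
    (h : cen q ends lam C Sm T ≠ 0) : ∃ t ⊆ C, av (Mon (t.biUnion id) T) ≠ 0 ∧
      ∀ c ∈ C \ t, av (Mon c T) ≠ 0 := by
  rw [cen_expand ends lam C Sm hedge T] at h
  obtain ⟨t, ht, hne⟩ := Finset.exists_ne_zero_of_sum_ne_zero h
  rw [mem_powerset] at ht
  refine ⟨t, ht, ?_, ?_⟩
  · intro h0
    apply hne
    rw [h0]; ring
  · intro c hc h0
    apply hne
    have : ∏ c ∈ C \ t, (- bet q ends lam Sm c T) = 0 := by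
      apply Finset.prod_eq_zero hc
      unfold bet
      split_ifs
      · rw [av_Mc, h0]; simp
      · simp
    rw [this]; ring

theorem cen_P {C Sm : Finset (Finset E)}
    (hedge : ∀ c ∈ C, ∀ c' ∈ C, c ≠ c' → Disjoint c c') {T : E → Opt E}
    (h : cen q ends lam C Sm T ≠ 0) :
    (∀ f ∈ SG (C.biUnion id) T, ∀ f' ∈ gad T f, f' ≠ f →
      (∃ f'' ∈ SG (C.biUnion id) T, f'' ≠ f ∧ f' ∈ gad T f'') ∨ f' ∈ BS (C.biUnion id) T) ∧
    (∀ f' ∈ BS (C.biUnion id) T, ∃ f ∈ SG (C.biUnion id) T, f' ∈ gad T f) := by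
  obtain ⟨t, ht, h1, h2⟩ := cen_ne_zero ends lam hedge h
  -- a common form
  have key : ∀ f ∈ C.biUnion id, ∀ e, ch f (T f) e = true →
      ∃ f' ∈ C.biUnion id, f' ≠ f ∧ ch f' (T f') e = true := by
    intro f hf e hch
    obtain ⟨c, hc, hfc⟩ := mem_biUnion.1 hf
    by_cases hct : c ∈ t
    · obtain ⟨f', hf', hne, hch'⟩ := second_occ h1 (mem_biUnion.2 ⟨c, hct, hfc⟩) hch
      exact ⟨f', biUnion_subset_biUnion_of_subset_left _ ht hf', hne, hch'⟩
    · obtain ⟨f', hf', hne, hch'⟩ := second_occ (h2 c (mem_sdiff.2 ⟨hc, hct⟩)) hfc hch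
      exact ⟨f', mem_biUnion.2 ⟨c, hc, hf'⟩, hne, hch'⟩
  have hchcase : ∀ f ∈ C.biUnion id, ∀ e, ch f (T f) e = true →
      (f = e ∧ f ∈ BS (C.biUnion id) T) ∨ (f ∈ SG (C.biUnion id) T ∧ e ∈ gad T f ∧ e ≠ f) := by
    intro f hf e hch
    match hT : T f with
    | none => rw [hT] at hch; simp [ch] at hch
    | some none =>
      rw [hT] at hch
      simp only [ch, decide_eq_true_eq] at hch
      exact Or.inl ⟨hch, mem_filter.2 ⟨hf, hT⟩⟩
    | some (some g) =>
      rw [hT] at hch
      simp only [ch, decide_eq_true_eq, mem_erase] at hch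
      have hg := gad_of_eq hT
      refine Or.inr ⟨mem_SG.2 ⟨hf, by rw [hg]; exact hT⟩, by rw [hg]; exact hch.2, hch.1⟩
  constructor
  · intro f hf f' hf' hne
    have hf1 := mem_SG.1 hf
    have hch : ch f (T f) f' = true := by
      rw [hf1.2]
      simp only [ch, decide_eq_true_eq, mem_erase]
      exact ⟨hne, hf'⟩
    obtain ⟨f2, hf2, hne2, hch2⟩ := key f hf1.1 f' hch
    rcases hchcase f2 hf2 f' hch2 with ⟨rfl, h3⟩ | ⟨h3, h4, _⟩
    · exact Or.inr h3
    · exact Or.inl ⟨f2, h3, hne2, h4⟩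
  · intro f' hf'
    have hf1 := mem_filter.1 hf'
    have hch : ch f' (T f') f' = true := by
      rw [hf1.2]
      simp [ch]
    obtain ⟨f2, hf2, hne2, hch2⟩ := key f' hf1.1 f' hch
    rcases hchcase f2 hf2 f' hch2 with ⟨rfl, h3⟩ | ⟨h3, h4, _⟩
    · exact absurd rfl hne2
    · exact ⟨f2, h3, h4⟩

theorem Mc_dep {C : Finset (Finset E)} {c : Finset E} (hc : c ∈ C) (T : E → Opt E)
    (Sm : Finset (Finset E)) :
    DependsOn' (fun ω => Mc q ends lam c T ω + - bet q ends lam Sm c T)
      {e | ends e ⊆ Vof ends (SG (C.biUnion id) T) (gad T) c} := by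
  intro ω ω' h
  have hsub : vs ends c ⊆ Vof ends (SG (C.biUnion id) T) (gad T) c := by
    unfold Vof
    exact subset_union_left
  have hm : Mon c T ω = Mon c T ω' := by
    unfold Mon
    apply Finset.prod_congr rfl
    intro f hf
    have hf0 : ω f = ω' f := h f ((ends_subset_vs hf).trans hsub)
    match hT : T f with
    | none => simp [mon]
    | some none => simp only [mon]; rw [hf0]
    | some (some g) =>
      simp only [mon]
      rw [hf0]
      congr 1
      apply Finset.prod_congr rfl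
      intro f' hf'
      rw [h f']
      show ends f' ⊆ _
      have hfS : f ∈ (SG (C.biUnion id) T).filter (· ∈ c) := by
        rw [mem_filter, mem_SG]
        refine ⟨⟨mem_biUnion.2 ⟨c, hc, hf⟩, ?_⟩, hf⟩
        rw [gad_of_eq hT]; exact hT
      intro v hv
      unfold Vof
      apply mem_union_right
      rw [mem_biUnion]
      refine ⟨f, hfS, ?_⟩
      rw [gad_of_eq hT]
      exact ends_subset_vs (mem_of_mem_erase hf') hv
  show Mc q ends lam c T ω + - bet q ends lam Sm c T = Mc q ends lam c T ω' + - bet q ends lam Sm c T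
  unfold Mc
  rw [hm]

theorem cen_isolated (hends : ∀ e, (ends e).Nonempty) {C Sm : Finset (Finset E)}
    {T : E → Opt E} {c0 : Finset E} (hc0 : c0 ∈ C) (hc0S : c0 ∈ Sm)
    (hiso : ∀ c' ∈ C, c' ≠ c0 → Disjoint (Vof ends (SG (C.biUnion id) T) (gad T) c0)
      (Vof ends (SG (C.biUnion id) T) (gad T) c')) :
    cen q ends lam C Sm T = 0 := by
  unfold cen
  have h1 : ∀ ω, ∏ c ∈ C, (Mc q ends lam c T ω + - bet q ends lam Sm c T) =
      (Mc q ends lam c0 T ω + - bet q ends lam Sm c0 T) *
      ∏ c ∈ C.erase c0, (Mc q ends lam c T ω + - bet q ends lam Sm c T) := by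
    intro ω
    rw [Finset.mul_prod_erase C (fun c => Mc q ends lam c T ω + - bet q ends lam Sm c T) hc0]
  simp_rw [h1]
  rw [av_mul_indep (F := fun ω => Mc q ends lam c0 T ω + - bet q ends lam Sm c0 T)
    (G := fun ω => ∏ c ∈ C.erase c0, (Mc q ends lam c T ω + - bet q ends lam Sm c T)) _
    (Mc_dep ends lam hc0 T Sm)
    (DependsOn'.prod (fun c hc => Mc_dep ends lam (mem_of_mem_erase hc) T Sm))]
  · have : av (fun ω => Mc q ends lam c0 T ω + - bet q ends lam Sm c0 T) = 0 := by
      rw [av_add, av_const]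
      unfold bet
      rw [if_pos hc0S]
      ring
    rw [this, zero_mul]
  · rw [Set.disjoint_iUnion₂_right]
    intro c' hc'
    rw [mem_erase] at hc'
    rw [Set.disjoint_left]
    intro e he he'
    obtain ⟨v, hv⟩ := hends e
    exact (Finset.disjoint_left.1 (hiso c' hc'.2 hc'.1)) (he hv) (he' hv)

end Parity

end Pool.Agent.LDC
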