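import Mathlib
import Pool.Agent.LDC.Parity

namespace Pool.Agent.LDC

open Finset

set_option linter.unusedSectionVars false

section Weight

variable {V E : Type*} [Fintype V] [DecidableEq V] [Fintype E] [DecidableEq E]
variable {q : ℕ} [NeZero q] (ends : E → Finset V)

theorem abs_col_le (f : E) (t : Opt E) (σ : V → ZMod q) : |col ends f t σ| ≤ 1 := by
  classical
  match t with
  | none =>
    simp only [col]
    split_ifs <;> simp
  | some _ =>
    simp only [col]
    split_ifs <;> simp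

theorem kap_bound {c : Finset E} (hc : Conn ends c) (hends : ∀ e, (ends e).Nonempty)
    (hne : c.Nonempty) (T : E → Opt E)
    {ι : Type*} (A : Finset ι) (e : ι → Finset V)
    (hcov : ∀ f ∈ c, T f ≠ none → ∃ a ∈ A, ends f ⊆ e a) :
    |kap q ends c T| * (q : ℝ) ^ ((vs ends c).card - 1) ≤ (q : ℝ) ^ (∑ a ∈ A, ((e a).card - 1)) := by
  classical
  have hqpos : (0 : ℝ) < q := by exact_mod_cast Nat.pos_of_ne_zero (NeZero.ne q)
  set I := c.filter (fun f => T f = none) with hI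
  set K := univ.filter (fun σ : V → ZMod q =>
      ∀ f ∈ I, ∀ u ∈ ends f, ∀ v ∈ ends f, σ u = σ v) with hK
  have hvne : (vs ends c).Nonempty := by
    obtain ⟨f, hf⟩ := hne
    obtain ⟨v, hv⟩ := hends f
    exact ⟨v, mem_vs.2 ⟨f, hf, hv⟩⟩
  have h1 : |kap q ends c T| ≤ (K.card : ℝ) / (Fintype.card (V → ZMod q) : ℝ) := by
    unfold kap
    refine (abs_av_le _).trans ?_
    unfold av
    apply div_le_div_of_nonneg_right _ (Nat.cast_nonneg _)
    have h2 : ∀ σ : V → ZMod q, |∏ f ∈ c, col ends f (T f) σ| ≤ if σ ∈ K then 1 else 0 := by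
      intro σ
      split_ifs with hσ
      · rw [Finset.abs_prod]
        exact Finset.prod_le_one (fun _ _ => abs_nonneg _) (fun f _ => abs_col_le ends f _ σ)
      · rw [hK, mem_filter] at hσ
        have : ∃ f ∈ I, ¬ Within ends σ f := by
          by_contra hcon
          push Not at hcon
          exact hσ ⟨mem_univ _, fun f hf => hcon f hf⟩
        obtain ⟨f, hf, hW⟩ := this
        rw [hI, mem_filter] at hf
        have h0 : col ends f (T f) σ = 0 := by
          rw [hf.2]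
          simp only [col]
          rw [if_neg hW]
        rw [Finset.prod_eq_zero hf.1 h0, abs_zero]
    refine (Finset.sum_le_sum (fun σ _ => h2 σ)).trans ?_
    rw [Finset.sum_ite_mem, Finset.univ_inter]
    simp
  have h3 := color_lemma (q := q) ends c hc hvne I A e (by
    intro f hf hfI
    apply hcov f hf
    intro h
    exact hfI (mem_filter.2 ⟨hf, h⟩))
  have hcard : (Fintype.card (V → ZMod q) : ℝ) = (q : ℝ) ^ (Fintype.card V) := by
    rw [Fintype.card_fun, ZMod.card]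
    push_cast
    rfl
  rw [hcard] at h1
  have h4 : (K.card : ℝ) * (q : ℝ) ^ ((vs ends c).card - 1) ≤
      (q : ℝ) ^ (Fintype.card V) * (q : ℝ) ^ (∑ a ∈ A, ((e a).card - 1)) := by
    rw [← pow_add]
    exact_mod_cast h3
  have hpos : (0 : ℝ) < (q : ℝ) ^ (Fintype.card V) := pow_pos hqpos _
  calc |kap q ends c T| * (q : ℝ) ^ ((vs ends c).card - 1)
      ≤ ((K.card : ℝ) / (q : ℝ) ^ (Fintype.card V)) * (q : ℝ) ^ ((vs ends c).card - 1) :=
        mul_le_mul_of_nonneg_right h1 (pow_nonneg hqpos.le _)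
    _ = ((K.card : ℝ) * (q : ℝ) ^ ((vs ends c).card - 1)) / (q : ℝ) ^ (Fintype.card V) := by
        ring
    _ ≤ ((q : ℝ) ^ (Fintype.card V) * (q : ℝ) ^ (∑ a ∈ A, ((e a).card - 1))) /
          (q : ℝ) ^ (Fintype.card V) := div_le_div_of_nonneg_right h4 hpos.le
    _ = _ := by field_simp

theorem disjoint_edges (hends : ∀ e, (ends e).Nonempty) {C : Finset (Finset E)}
    (hdisj : ∀ c ∈ C, ∀ c' ∈ C, c ≠ c' → Disjoint (vs ends c) (vs ends c')) :
    ∀ c ∈ C, ∀ c' ∈ C, c ≠ c' → Disjoint c c' := by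
  intro c hc c' hc' hne
  rw [Finset.disjoint_left]
  intro f hf hf'
  exact hne (comp_unique hends hdisj hc hc' hf hf')

/-- the product of the colour coefficients against the exponents -/
theorem kap_prod_bound [Nonempty V] (hends : ∀ e, (ends e).Nonempty)
    {C Sm : Finset (Finset E)} (hC : ∀ c ∈ C, c.Nonempty ∧ Conn ends c)
    (hdisj : ∀ c ∈ C, ∀ c' ∈ C, c ≠ c' → Disjoint (vs ends c) (vs ends c'))
    (hSmC : Sm ⊆ C) {T : E → Opt E}
    (hg : ∀ f ∈ SG (C.biUnion id) T, f ∈ gad T f ∧ Conn ends (gad T f))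
    (P1 : ∀ f ∈ SG (C.biUnion id) T, ∀ f' ∈ gad T f, f' ≠ f →
      (∃ f'' ∈ SG (C.biUnion id) T, f'' ≠ f ∧ f' ∈ gad T f'') ∨ f' ∈ BS (C.biUnion id) T)
    (P2 : ∀ f' ∈ BS (C.biUnion id) T, ∃ f ∈ SG (C.biUnion id) T, f' ∈ gad T f)
    (hlink : ∀ c ∈ Sm, ∃ c' ∈ C, c' ≠ c ∧ ¬ Disjoint (Vof ends (SG (C.biUnion id) T) (gad T) c)
      (Vof ends (SG (C.biUnion id) T) (gad T) c')) :
    (∏ c ∈ C, |kap q ends c T|) * (q : ℝ) ^ (∑ c ∈ C, ((vs ends c).card - 1) +
      2 * (Ext ends (SG (C.biUnion id) T) (gad T) (C.biUnion id)).card + Sm.card) ≤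
      (q : ℝ) ^ (∑ f ∈ SG (C.biUnion id) T, ((vs ends (gad T f)).card - 1)) := by
  classical
  have hq1 : (1 : ℝ) ≤ q := by exact_mod_cast Nat.pos_of_ne_zero (NeZero.ne q)
  have hq0 : (0 : ℝ) ≤ q := by linarith
  set H := C.biUnion id with hH
  set S := SG H T with hS
  have hSH : S ⊆ H := filter_subset _ _
  have hBH : BS H T ⊆ H := filter_subset _ _
  have hexp := expo_lemma (hends := hends) (hdisj := hdisj) (hS := hSH) (hg := hg)
    (hBs := hBH) (P1 := P1) Sm hSmC hlink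
  have hcolor : ∀ c ∈ C, |kap q ends c T| * (q : ℝ) ^ ((vs ends c).card - 1) ≤
      (q : ℝ) ^ (∑ f ∈ S.filter (· ∈ c), ((vs ends (gad T f) ∩ vs ends c).card - 1) +
        ((Ntouch ends S (gad T) c).card - 1)) := by
    intro c hc
    let A : Finset (Option E) := insert none ((S.filter (· ∈ c)).image some)
    let e : Option E → Finset V := fun a => match a with
      | none => Ntouch ends S (gad T) c
      | some f => vs ends (gad T f) ∩ vs ends c
    have h1 := kap_bound (q := q) ends (hC c hc).2 hends (hC c hc).1 T A e (by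
      intro f hf hne
      have hfH : f ∈ H := mem_biUnion.2 ⟨c, hc, hf⟩
      rcases cases_opt (T := T) hfH with h | h | h
      · exact absurd (mem_filter.1 h).2 hne
      · obtain ⟨f2, hf2, hff2⟩ := P2 f h
        by_cases hf2c : f2 ∈ c
        · refine ⟨some f2, mem_insert_of_mem (mem_image.2 ⟨f2, mem_filter.2 ⟨hf2, hf2c⟩, rfl⟩), ?_⟩
          exact subset_inter (ends_subset_vs hff2) (ends_subset_vs hf)
        · refine ⟨none, mem_insert_self _ _, ?_⟩
          intro v hv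
          show v ∈ Ntouch ends S (gad T) c
          rw [Ntouch, mem_filter]
          exact ⟨ends_subset_vs hf hv, f2, hf2, hf2c, ends_subset_vs hff2 hv⟩
      · refine ⟨some f, mem_insert_of_mem (mem_image.2 ⟨f, mem_filter.2 ⟨h, hf⟩, rfl⟩), ?_⟩
        exact subset_inter (ends_subset_vs (hg f h).1) (ends_subset_vs hf))
    have h2 : ∑ a ∈ A, ((e a).card - 1) =
        ∑ f ∈ S.filter (· ∈ c), ((vs ends (gad T f) ∩ vs ends c).card - 1) +
        ((Ntouch ends S (gad T) c).card - 1) := by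
      rw [Finset.sum_insert (by simp), Finset.sum_image (fun a _ b _ h => Option.some.inj h),
        add_comm]
    rw [h2] at h1
    exact h1
  have hprod : (∏ c ∈ C, |kap q ends c T|) * (q : ℝ) ^ (∑ c ∈ C, ((vs ends c).card - 1)) ≤
      (q : ℝ) ^ (∑ c ∈ C, ∑ f ∈ S.filter (· ∈ c), ((vs ends (gad T f) ∩ vs ends c).card - 1) +
        ∑ c ∈ C, ((Ntouch ends S (gad T) c).card - 1)) := by
    rw [← Finset.prod_pow_eq_pow_sum, ← Finset.prod_mul_distrib, ← Finset.sum_add_distrib,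
      ← Finset.prod_pow_eq_pow_sum]
    apply Finset.prod_le_prod
    · intro c _
      exact mul_nonneg (abs_nonneg _) (pow_nonneg hq0 _)
    · intro c hc
      exact hcolor c hc
  calc (∏ c ∈ C, |kap q ends c T|) * (q : ℝ) ^ (∑ c ∈ C, ((vs ends c).card - 1) +
      2 * (Ext ends S (gad T) H).card + Sm.card)
      = ((∏ c ∈ C, |kap q ends c T|) * (q : ℝ) ^ (∑ c ∈ C, ((vs ends c).card - 1))) *
        (q : ℝ) ^ (2 * (Ext ends S (gad T) H).card + Sm.card) := by
          rw [mul_assoc, ← pow_add, add_assoc]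
    _ ≤ (q : ℝ) ^ (∑ c ∈ C, ∑ f ∈ S.filter (· ∈ c), ((vs ends (gad T f) ∩ vs ends c).card - 1) +
        ∑ c ∈ C, ((Ntouch ends S (gad T) c).card - 1)) *
        (q : ℝ) ^ (2 * (Ext ends S (gad T) H).card + Sm.card) :=
          mul_le_mul_of_nonneg_right hprod (pow_nonneg hq0 _)
    _ = (q : ℝ) ^ (∑ c ∈ C, ∑ f ∈ S.filter (· ∈ c), ((vs ends (gad T f) ∩ vs ends c).card - 1) +
        ∑ c ∈ C, ((Ntouch ends S (gad T) c).card - 1) +
        (2 * (Ext ends S (gad T) H).card + Sm.card)) := by rw [← pow_add]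
    _ ≤ (q : ℝ) ^ (∑ f ∈ S, ((vs ends (gad T f)).card - 1)) := by
        rw [← hH] at hexp
        apply pow_le_pow_right₀ hq1
        omega

/-- product of the weights over the components -/
theorem prod_Wt {C : Finset (Finset E)} (hedge : ∀ c ∈ C, ∀ c' ∈ C, c ≠ c' → Disjoint c c')
    (lam : Finset E → ℝ) (T : E → Opt E) :
    ∏ c ∈ C, Wt lam c T = ∏ f ∈ SG (C.biUnion id) T, lam (gad T f) := by
  unfold Wt
  have h1 : ∏ c ∈ C, ∏ f ∈ c, wt lam (T f) = ∏ f ∈ C.biUnion id, wt lam (T f) := by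
    rw [Finset.prod_biUnion]
    · rfl
    · intro c hc c' hc' hne
      exact hedge c hc c' hc' hne
  rw [h1]
  have h2 : ∀ f ∈ C.biUnion id, f ∉ SG (C.biUnion id) T → wt lam (T f) = 1 := by
    intro f hf hfS
    match hT : T f with
    | none => simp [wt]
    | some none => simp [wt]
    | some (some g) =>
      exact absurd (mem_SG.2 ⟨hf, by rw [gad_of_eq hT]; exact hT⟩) hfS
  rw [← Finset.prod_subset (filter_subset _ _ : SG (C.biUnion id) T ⊆ C.biUnion id) h2]
  apply Finset.prod_congr rfl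
  intro f hf
  rw [(mem_SG.1 hf).2]
  rfl

theorem coef_bound [Nonempty V] (hends : ∀ e, (ends e).Nonempty)
    {C Sm : Finset (Finset E)} (hC : ∀ c ∈ C, c.Nonempty ∧ Conn ends c)
    (hdisj : ∀ c ∈ C, ∀ c' ∈ C, c ≠ c' → Disjoint (vs ends c) (vs ends c'))
    (hSmC : Sm ⊆ C) {Gd : Finset (Finset E)} (hGd : ∀ g ∈ Gd, Conn ends g)
    {lam : Finset E → ℝ} {b : ℝ}
    (hlam : ∀ g ∈ Gd, |lam g| * (q : ℝ) ^ ((vs ends g).card - 1) ≤ b)
    {T : E → Opt E} (hT : T ∈ TT (opts Gd) none (C.biUnion id))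
    (hcen : cen q ends lam C Sm T ≠ 0) :
    |coef q ends lam C T| * (q : ℝ) ^ (∑ c ∈ C, ((vs ends c).card - 1) +
      2 * (Ext ends (SG (C.biUnion id) T) (gad T) (C.biUnion id)).card + Sm.card) ≤
      b ^ (SG (C.biUnion id) T).card := by
  classical
  have hq1 : (1 : ℝ) ≤ q := by exact_mod_cast Nat.pos_of_ne_zero (NeZero.ne q)
  have hq0 : (0 : ℝ) ≤ q := by linarith
  have hedge := disjoint_edges ends hends hdisj
  obtain ⟨P1, P2⟩ := cen_P ends lam hedge hcen
  have hlink : ∀ c ∈ Sm, ∃ c' ∈ C, c' ≠ c ∧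
      ¬ Disjoint (Vof ends (SG (C.biUnion id) T) (gad T) c)
      (Vof ends (SG (C.biUnion id) T) (gad T) c') := by
    intro c hc
    by_contra hcon
    push Not at hcon
    exact hcen (cen_isolated ends lam hends (hSmC hc) hc hcon)
  have h1 := kap_prod_bound (q := q) ends hends hC hdisj hSmC
    (fun f hf => ⟨(mem_SG_of_TT hT hf).2, hGd _ (mem_SG_of_TT hT hf).1⟩) P1 P2 hlink
  set S := SG (C.biUnion id) T with hS
  have h2 : |coef q ends lam C T| = (∏ c ∈ C, |kap q ends c T|) * ∏ f ∈ S, |lam (gad T f)| := by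
    unfold coef
    rw [Finset.prod_mul_distrib, abs_mul, prod_Wt hedge lam T, Finset.abs_prod, Finset.abs_prod]
  rw [h2]
  calc (∏ c ∈ C, |kap q ends c T|) * (∏ f ∈ S, |lam (gad T f)|) *
      (q : ℝ) ^ (∑ c ∈ C, ((vs ends c).card - 1) +
      2 * (Ext ends S (gad T) (C.biUnion id)).card + Sm.card)
      = ((∏ c ∈ C, |kap q ends c T|) * (q : ℝ) ^ (∑ c ∈ C, ((vs ends c).card - 1) +
      2 * (Ext ends S (gad T) (C.biUnion id)).card + Sm.card)) * ∏ f ∈ S, |lam (gad T f)| := by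
        ring
    _ ≤ (q : ℝ) ^ (∑ f ∈ S, ((vs ends (gad T f)).card - 1)) * ∏ f ∈ S, |lam (gad T f)| :=
        mul_le_mul_of_nonneg_right h1 (Finset.prod_nonneg (fun _ _ => abs_nonneg _))
    _ = ∏ f ∈ S, (|lam (gad T f)| * (q : ℝ) ^ ((vs ends (gad T f)).card - 1)) := by
        rw [Finset.prod_mul_distrib, Finset.prod_pow_eq_pow_sum]
        ring
    _ ≤ ∏ f ∈ S, b := by
        apply Finset.prod_le_prod
        · intro f _
          exact mul_nonneg (abs_nonneg _) (pow_nonneg hq0 _)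
        · intro f hf
          exact hlam _ (mem_SG_of_TT hT hf).1
    _ = b ^ S.card := by rw [Finset.prod_const]

end Weight

end Pool.Agent.LDC
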