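import Mathlib
import Pool.Agent.LDC.Weight

namespace Pool.Agent.LDC

open Finset

set_option linter.unusedSectionVars false

section Count

variable {V E : Type*} [Fintype V] [DecidableEq V] [Fintype E] [DecidableEq E]

theorem card_small_subsets (F : Finset E) (M : ℕ) :
    (F.powerset.filter (fun g => g.card ≤ M)).card ≤ (F.card + 1) ^ M := by
  induction M with
  | zero =>
    have : F.powerset.filter (fun g => g.card ≤ 0) ⊆ {∅} := by
      intro g hg
      rw [mem_filter, Nat.le_zero, card_eq_zero] at hg
      rw [mem_singleton]; exact hg.2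
    exact (card_le_card this).trans (by simp)
  | succ M ih =>
    have hsub : F.powerset.filter (fun g => g.card ≤ M + 1) ⊆
        ((insert none (F.image some)) ×ˢ (F.powerset.filter (fun g => g.card ≤ M))).image
          (fun p : Option E × Finset E => match p.1 with
            | none => p.2
            | some x => insert x p.2) := by
      intro g hg
      rw [mem_filter, mem_powerset] at hg
      rw [mem_image]
      rcases g.eq_empty_or_nonempty with rfl | ⟨x, hx⟩
      · refine ⟨(none, ∅), ?_, rfl⟩
        rw [mem_product]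
        exact ⟨mem_insert_self _ _, mem_filter.2 ⟨mem_powerset.2 (empty_subset _), by simp⟩⟩
      · refine ⟨(some x, g.erase x), ?_, insert_erase hx⟩
        rw [mem_product]
        refine ⟨mem_insert_of_mem (mem_image.2 ⟨x, hg.1 hx, rfl⟩), mem_filter.2
          ⟨mem_powerset.2 ((erase_subset _ _).trans hg.1), ?_⟩⟩
        rw [card_erase_of_mem hx]
        omega
    have h1 : (insert none (F.image some)).card ≤ F.card + 1 := by
      refine (card_insert_le _ _).trans ?_
      exact Nat.add_le_add_right card_image_le 1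
    calc _ ≤ _ := card_le_card hsub
      _ ≤ _ := card_image_le
      _ = (insert none (F.image some)).card *
          (F.powerset.filter (fun g => g.card ≤ M)).card := card_product _ _
      _ ≤ (F.card + 1) * (F.card + 1) ^ M := Nat.mul_le_mul h1 ih
      _ = (F.card + 1) ^ (M + 1) := by rw [pow_succ, mul_comm]

variable {ends : E → Finset V}

theorem card_edges_inside (hinj : Function.Injective ends) (hends : ∀ e, (ends e).card = 2)
    (A : Finset V) : (univ.filter (fun e => ends e ⊆ A)).card ≤ A.card ^ 2 := by
  have h1 : (univ.filter (fun e => ends e ⊆ A)).card ≤ (A.powersetCard 2).card := by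
    apply card_le_card_of_injOn ends
    · intro e he
      simp only [coe_filter, mem_univ, true_and, Set.mem_ofPred_eq] at he
      rw [mem_coe, mem_powersetCard]
      exact ⟨he, hends e⟩
    · intro a _ b _ h
      exact hinj h
  rw [card_powersetCard] at h1
  refine h1.trans ?_
  have := Nat.choose_le_pow_div (α := ℚ) 2 A.card
  have h2 : ((A.card.choose 2 : ℕ) : ℚ) ≤ (A.card : ℚ) ^ 2 := by
    refine this.trans ?_
    have h3 : (0 : ℚ) ≤ (A.card : ℚ) ^ 2 := by positivity
    have h4 : ((Nat.factorial 2 : ℕ) : ℚ) = 2 := by norm_num [Nat.factorial]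
    rw [h4]
    linarith
  exact_mod_cast h2

theorem card_gadgets_inside (hinj : Function.Injective ends) (hends : ∀ e, (ends e).card = 2)
    {Gd : Finset (Finset E)} {M : ℕ} (hM : ∀ g ∈ Gd, g.card ≤ M) (A : Finset V) :
    (Gd.filter (fun g => vs ends g ⊆ A)).card ≤ (A.card ^ 2 + 1) ^ M := by
  set F := univ.filter (fun e => ends e ⊆ A) with hF
  have hsub : Gd.filter (fun g => vs ends g ⊆ A) ⊆ F.powerset.filter (fun g => g.card ≤ M) := by
    intro g hg
    rw [mem_filter] at hg
    rw [mem_filter, mem_powerset]
    refine ⟨?_, hM g hg.1⟩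
    intro e he
    rw [hF, mem_filter]
    exact ⟨mem_univ _, (ends_subset_vs he).trans hg.2⟩
  calc _ ≤ _ := card_le_card hsub
    _ ≤ (F.card + 1) ^ M := card_small_subsets F M
    _ ≤ (A.card ^ 2 + 1) ^ M :=
        Nat.pow_le_pow_left (Nat.add_le_add_right (card_edges_inside hinj hends A) 1) M

theorem card_vs_le (hends : ∀ e, (ends e).card = 2) (g : Finset E) :
    (vs ends g).card ≤ 2 * g.card := by
  unfold vs
  refine card_biUnion_le.trans ?_
  rw [Finset.sum_congr rfl (fun e _ => hends e), Finset.sum_const, smul_eq_mul, mul_comm]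

theorem card_opts_inside {Gd : Finset (Finset E)} (f : E) (P : Finset E → Prop)
    [DecidablePred P] :
    (opts (Gd.filter P) f).card ≤ 2 + (Gd.filter P).card := by
  unfold opts
  refine (card_insert_le _ _).trans ?_
  refine (Nat.add_le_add_right (card_insert_le _ _) 1).trans ?_
  have : ((((Gd.filter P).filter (fun g => f ∈ g)).image (fun g => some (some g)) :
      Finset (Opt E))).card ≤ (Gd.filter P).card :=
    card_image_le.trans (card_le_card (filter_subset _ _))
  omega

/-- external set of a configuration -/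
def ext (ends : E → Finset V) (H : Finset E) (T : E → Opt E) : Finset V :=
  Ext ends (SG H T) (gad T) H

theorem card_TT_fiber (hinj : Function.Injective ends) (hends : ∀ e, (ends e).card = 2)
    {Gd : Finset (Finset E)} {M : ℕ} (hM : ∀ g ∈ Gd, g.card ≤ M) (H : Finset E) (W : Finset V) :
    ((TT (opts Gd) none H).filter (fun T => ext ends H T = W)).card ≤
      (2 + (((vs ends H).card + W.card) ^ 2 + 1) ^ M) ^ H.card := by
  set A := vs ends H ∪ W with hA
  have hsub : (TT (opts Gd) none H).filter (fun T => ext ends H T = W) ⊆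
      TT (opts (Gd.filter (fun g => vs ends g ⊆ A))) none H := by
    intro T hT
    rw [mem_filter] at hT
    obtain ⟨hT, hext⟩ := hT
    have hT' := mem_TT.1 hT
    rw [mem_TT]
    refine ⟨fun f hf => ?_, hT'.2⟩
    rcases cases_opt (T := T) hf with h | h | h
    · rw [(mem_filter.1 h).2]
      exact mem_insert_self _ _
    · rw [(mem_filter.1 h).2]
      exact mem_insert_of_mem (mem_insert_self _ _)
    · have h1 := mem_SG_of_TT hT h
      rw [(mem_SG.1 h).2]
      apply mem_insert_of_mem
      apply mem_insert_of_mem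
      rw [mem_image]
      refine ⟨gad T f, ?_, rfl⟩
      rw [mem_filter, mem_filter]
      refine ⟨⟨h1.1, ?_⟩, h1.2⟩
      intro v hv
      rw [hA, mem_union]
      by_cases hvH : v ∈ vs ends H
      · exact Or.inl hvH
      · right
        rw [← hext, ext, Ext, mem_sdiff, mem_biUnion]
        exact ⟨⟨f, h, hv⟩, hvH⟩
  refine (card_le_card hsub).trans ?_
  unfold TT
  rw [Fintype.card_piFinset]
  have h2 : ∏ f, (if f ∈ H then opts (Gd.filter (fun g => vs ends g ⊆ A)) f
      else ({none} : Finset (Opt E))).card =
      ∏ f ∈ H, (opts (Gd.filter (fun g => vs ends g ⊆ A)) f).card := by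
    symm
    rw [← Finset.prod_subset (Finset.subset_univ H)]
    · apply Finset.prod_congr rfl
      intro f hf
      simp [hf]
    · intro f _ hf
      simp [hf]
  rw [h2]
  have hAcard : A.card ≤ (vs ends H).card + W.card := card_union_le _ _
  calc ∏ f ∈ H, (opts (Gd.filter (fun g => vs ends g ⊆ A)) f).card
      ≤ ∏ f ∈ H, (2 + (((vs ends H).card + W.card) ^ 2 + 1) ^ M) := by
        apply Finset.prod_le_prod'
        intro f _
        refine (card_opts_inside f _).trans ?_
        apply Nat.add_le_add_left
        refine (card_gadgets_inside hinj hends hM A).trans ?_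
        apply Nat.pow_le_pow_left
        apply Nat.add_le_add_right
        exact Nat.pow_le_pow_left hAcard 2
    _ = _ := by rw [Finset.prod_const]

theorem card_ext_le (hends : ∀ e, (ends e).card = 2)
    {Gd : Finset (Finset E)} {M : ℕ} (hM : ∀ g ∈ Gd, g.card ≤ M) (H : Finset E)
    {T : E → Opt E} (hT : T ∈ TT (opts Gd) none H) :
    (ext ends H T).card ≤ 2 * M * H.card := by
  unfold ext Ext
  refine (card_le_card sdiff_subset).trans ?_
  refine card_biUnion_le.trans ?_
  have h1 : ∀ f ∈ SG H T, (vs ends (gad T f)).card ≤ 2 * M := by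
    intro f hf
    refine (card_vs_le hends _).trans ?_
    exact Nat.mul_le_mul_left 2 (hM _ (mem_SG_of_TT hT hf).1)
  refine (Finset.sum_le_sum h1).trans ?_
  rw [Finset.sum_const, smul_eq_mul, mul_comm]
  exact Nat.mul_le_mul_left _ (card_le_card (filter_subset _ _))

/-- summation over configurations with a given set of external vertex sets -/
theorem sum_fiber_bound (hinj : Function.Injective ends) (hends : ∀ e, (ends e).card = 2)
    {Gd : Finset (Finset E)} {M : ℕ} (hM : ∀ g ∈ Gd, g.card ≤ M) (H : Finset E)
    {Q B0 : ℝ} (hQ : 0 < Q) (hB0 : 0 ≤ B0) (F : (E → Opt E) → ℝ)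
    (hF : ∀ T ∈ TT (opts Gd) none H, F T * Q ^ (2 * (ext ends H T).card) ≤ B0)
    (P : Finset V → Prop) [DecidablePred P] :
    ∑ T ∈ (TT (opts Gd) none H).filter (fun T => P (ext ends H T)), F T ≤
      B0 * (2 + (((vs ends H).card + 2 * M * H.card : ℝ) ^ 2 + 1) ^ M) ^ H.card *
        ∑ W ∈ (univ : Finset V).powerset.filter P, ((Q ^ 2)⁻¹) ^ W.card := by
  classical
  set G : ℝ := (2 + (((vs ends H).card + 2 * M * H.card : ℝ) ^ 2 + 1) ^ M) ^ H.card with hG
  have hGpos : 0 ≤ G := by positivity
  have h1 : ∑ T ∈ (TT (opts Gd) none H).filter (fun T => P (ext ends H T)), F T =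
      ∑ W ∈ (univ : Finset V).powerset.filter P,
        ∑ T ∈ (TT (opts Gd) none H).filter (fun T => ext ends H T = W), F T := by
    have hmaps : ∀ T ∈ (TT (opts Gd) none H).filter (fun T => P (ext ends H T)),
        ext ends H T ∈ (univ : Finset V).powerset.filter P := by
      intro T hT
      rw [mem_filter] at hT
      rw [mem_filter, mem_powerset]
      exact ⟨subset_univ _, hT.2⟩
    rw [← Finset.sum_fiberwise_of_maps_to hmaps]
    apply Finset.sum_congr rfl
    intro W hW
    rw [mem_filter] at hW
    apply Finset.sum_congr _ (fun _ _ => rfl)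
    ext T
    rw [mem_filter, mem_filter, mem_filter]
    constructor
    · rintro ⟨⟨h1, _⟩, h3⟩; exact ⟨h1, h3⟩
    · rintro ⟨h1, h3⟩; exact ⟨⟨h1, by rw [h3]; exact hW.2⟩, h3⟩
  rw [h1, Finset.mul_sum]
  apply Finset.sum_le_sum
  intro W _
  by_cases hne : ((TT (opts Gd) none H).filter (fun T => ext ends H T = W)).Nonempty
  · obtain ⟨T0, hT0⟩ := hne
    rw [mem_filter] at hT0
    have hWle : W.card ≤ 2 * M * H.card := by
      rw [← hT0.2]
      exact card_ext_le hends hM H hT0.1
    have h2 : ∀ T ∈ (TT (opts Gd) none H).filter (fun T => ext ends H T = W),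
        F T ≤ B0 * ((Q ^ 2)⁻¹) ^ W.card := by
      intro T hT
      rw [mem_filter] at hT
      have h3 := hF T hT.1
      rw [hT.2] at h3
      have h4 : (Q ^ 2)⁻¹ ^ W.card = (Q ^ (2 * W.card))⁻¹ := by
        rw [inv_pow, ← pow_mul]
      rw [h4, ← div_eq_mul_inv, le_div_iff₀ (pow_pos hQ _)]
      exact h3
    refine (Finset.sum_le_sum h2).trans ?_
    rw [Finset.sum_const, nsmul_eq_mul]
    have h5 : ((((TT (opts Gd) none H).filter (fun T => ext ends H T = W)).card : ℕ) : ℝ) ≤ G := by
      have h6 := card_TT_fiber hinj hends hM H W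
      have h7 : ((((TT (opts Gd) none H).filter (fun T => ext ends H T = W)).card : ℕ) : ℝ) ≤
          (((2 + (((vs ends H).card + W.card) ^ 2 + 1) ^ M) ^ H.card : ℕ) : ℝ) := by
        exact_mod_cast h6
      refine h7.trans ?_
      push_cast
      rw [hG]
      have h8 : (W.card : ℝ) ≤ 2 * M * H.card := by exact_mod_cast hWle
      gcongr
    calc _ ≤ G * (B0 * (Q ^ 2)⁻¹ ^ W.card) := by
          apply mul_le_mul_of_nonneg_right h5
          positivity
      _ = _ := by ring
  · rw [not_nonempty_iff_eq_empty] at hne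
    rw [hne, Finset.sum_empty]
    positivity

theorem sum_powerset_inv (Q : ℝ) :
    ∑ W ∈ (univ : Finset V).powerset, ((Q ^ 2)⁻¹) ^ W.card =
      (1 + (Q ^ 2)⁻¹) ^ (Fintype.card V) := by
  have := Finset.sum_pow_mul_eq_add_pow ((Q ^ 2)⁻¹) 1 (univ : Finset V)
  simp only [one_pow, mul_one, card_univ] at this
  rw [this, add_comm]

end Count

end Pool.Agent.LDC
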