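import Mathlib
import Pool.Agent.LDC.Count

namespace Pool.Agent.LDC

open Finset

set_option linter.unusedSectionVars false

theorem abs_prod_sub_le {ι : Type*} (S : Finset ι) (x y : ι → ℝ)
    (hx : ∀ i ∈ S, |x i| ≤ 1) (hy : ∀ i ∈ S, |y i| ≤ 1) :
    |∏ i ∈ S, x i - ∏ i ∈ S, y i| ≤ ∑ i ∈ S, |x i - y i| := by
  classical
  induction S using Finset.induction_on with
  | empty => simp
  | insert a S ha ih =>
    rw [Finset.prod_insert ha, Finset.prod_insert ha, Finset.sum_insert ha]
    have h1 := ih (fun i hi => hx i (mem_insert_of_mem hi)) (fun i hi => hy i (mem_insert_of_mem hi))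
    have h2 : x a * ∏ i ∈ S, x i - y a * ∏ i ∈ S, y i =
        (x a - y a) * ∏ i ∈ S, x i + y a * (∏ i ∈ S, x i - ∏ i ∈ S, y i) := by ring
    rw [h2]
    have h3 : |∏ i ∈ S, x i| ≤ 1 := by
      rw [Finset.abs_prod]
      exact Finset.prod_le_one (fun _ _ => abs_nonneg _) (fun i hi => hx i (mem_insert_of_mem hi))
    have h4 := hy a (mem_insert_self _ _)
    calc |(x a - y a) * ∏ i ∈ S, x i + y a * (∏ i ∈ S, x i - ∏ i ∈ S, y i)|
        ≤ |(x a - y a) * ∏ i ∈ S, x i| + |y a * (∏ i ∈ S, x i - ∏ i ∈ S, y i)| := abs_add_le _ _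
      _ = |x a - y a| * |∏ i ∈ S, x i| + |y a| * |∏ i ∈ S, x i - ∏ i ∈ S, y i| := by
          rw [abs_mul, abs_mul]
      _ ≤ |x a - y a| * 1 + 1 * ∑ i ∈ S, |x i - y i| := by
          apply add_le_add
          · exact mul_le_mul_of_nonneg_left h3 (abs_nonneg _)
          · exact mul_le_mul h4 h1 (abs_nonneg _) zero_le_one
      _ = _ := by ring

theorem av_prod_coord {ι κ : Type*} [Fintype ι] [DecidableEq ι] [Fintype κ]
    (ψ : ι → κ → ℝ) : av (fun ω : ι → κ => ∏ i, ψ i (ω i)) = ∏ i, av (ψ i) := by
  classical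
  unfold av
  rw [Finset.prod_div_distrib, Finset.prod_univ_sum]
  congr 1
  rw [Finset.prod_const, card_univ, Fintype.card_fun]
  push_cast
  rfl

section Single

variable {V E : Type*} [Fintype V] [DecidableEq V] [Fintype E] [DecidableEq E]
variable {q : ℕ} [NeZero q] (ends : E → Finset V)

theorem P_of_av {H : Finset E} {T : E → Opt E} (h : av (Mon H T) ≠ 0) :
    (∀ f ∈ SG H T, ∀ f' ∈ gad T f, f' ≠ f →
      (∃ f'' ∈ SG H T, f'' ≠ f ∧ f' ∈ gad T f'') ∨ f' ∈ BS H T) ∧
    (∀ f' ∈ BS H T, ∃ f ∈ SG H T, f' ∈ gad T f) := by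
  have hchcase : ∀ f ∈ H, ∀ e, ch f (T f) e = true →
      (f = e ∧ f ∈ BS H T) ∨ (f ∈ SG H T ∧ e ∈ gad T f ∧ e ≠ f) := by
    intro f hf e hch
    match hT : T f with
    | none => rw [hT] at hch; simp [ch] at hch
    | some none =>
      rw [hT] at hch
      simp only [ch, decide_eq_true_eq] at hch
      exact Or.inl ⟨hch, mem_filter.2 ⟨hf, hT⟩⟩
    | some (some g) =>
      rw [hT] at hch
      simp only [ch, decide_eq_true_eq, mem_erase] at hch
      have hg := gad_of_eq hT
      refine Or.inr ⟨mem_SG.2 ⟨hf, by rw [hg]; exact hT⟩, by rw [hg]; exact hch.2, hch.1⟩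
  constructor
  · intro f hf f' hf' hne
    have hf1 := mem_SG.1 hf
    have hch : ch f (T f) f' = true := by
      rw [hf1.2]
      simp only [ch, decide_eq_true_eq, mem_erase]
      exact ⟨hne, hf'⟩
    obtain ⟨f2, hf2, hne2, hch2⟩ := second_occ h hf1.1 hch
    rcases hchcase f2 hf2 f' hch2 with ⟨rfl, h3⟩ | ⟨h3, h4, _⟩
    · exact Or.inr h3
    · exact Or.inl ⟨f2, h3, hne2, h4⟩
  · intro f' hf'
    have hf1 := mem_filter.1 hf'
    have hch : ch f' (T f') f' = true := by
      rw [hf1.2]
      simp [ch]
    obtain ⟨f2, hf2, hne2, hch2⟩ := second_occ h hf1.1 hch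
    rcases hchcase f2 hf2 f' hch2 with ⟨rfl, h3⟩ | ⟨h3, h4, _⟩
    · exact absurd rfl hne2
    · exact ⟨f2, h3, h4⟩

theorem kap_single_bound [Nonempty V] (hends : ∀ e, (ends e).Nonempty)
    {H : Finset E} (hH : H.Nonempty) (hc : Conn ends H) {T : E → Opt E}
    (hg : ∀ f ∈ SG H T, f ∈ gad T f ∧ Conn ends (gad T f))
    (hav : av (Mon H T) ≠ 0) :
    |kap q ends H T| * (q : ℝ) ^ (((vs ends H).card - 1) + 2 * (ext ends H T).card) ≤
      (q : ℝ) ^ (∑ f ∈ SG H T, ((vs ends (gad T f)).card - 1)) := by
  have hb : ({H} : Finset (Finset E)).biUnion id = H := by simp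
  obtain ⟨P1, P2⟩ := P_of_av hav
  have := kap_prod_bound (q := q) ends hends (C := {H}) (Sm := ∅) (T := T)
    (by intro c hc'; rw [mem_singleton] at hc'; subst hc'; exact ⟨hH, hc⟩)
    (by
      intro c h1 c' h2 h3
      rw [mem_singleton] at h1 h2
      exact absurd (h1.trans h2.symm) h3)
    (by simp) (by rw [hb]; exact hg) (by rw [hb]; exact P1) (by rw [hb]; exact P2) (by simp)
  rw [hb] at this
  simpa [ext] using this

theorem abs_kap_le_one (H : Finset E) (T : E → Opt E) : |kap q ends H T| ≤ 1 := by
  unfold kap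
  apply abs_av_le_of_bound
  intro σ
  rw [Finset.abs_prod]
  exact Finset.prod_le_one (fun _ _ => abs_nonneg _) (fun f _ => abs_col_le ends f _ σ)

open Classical in
/-- probability that an edge is monochromatic -/
theorem av_within (hends : ∀ e, (ends e).card = 2) (f : E) :
    av (fun σ : V → ZMod q => if Within ends σ f then (1 : ℝ) else 0) * (q : ℝ) ≤ 1 := by
  have hne : ∀ e, (ends e).Nonempty := fun e => card_pos.1 (by rw [hends e]; norm_num)
  have hconn : Conn ends ({f} : Finset E) := by
    intro A hA
    rcases hA f (mem_singleton_self _) with h | h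
    · left; intro e he; rw [mem_singleton] at he; subst he; exact h
    · right; intro e he; rw [mem_singleton] at he; subst he; exact h
  have h1 := kap_bound (q := q) ends hconn hne (singleton_nonempty f) (fun _ => (none : Opt E))
    (∅ : Finset ℕ) (fun _ => ∅) (by intro f _ h; exact absurd rfl h)
  have hvs : vs ends ({f} : Finset E) = ends f := by simp [vs]
  rw [hvs, hends f] at h1
  simp only [sum_empty, pow_zero] at h1
  have h2 : kap q ends {f} (fun _ => (none : Opt E)) =
      - av (fun σ : V → ZMod q => if Within ends σ f then (1 : ℝ) else 0) := by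
    unfold kap
    rw [← av_neg]
    congr 1
    funext σ
    rw [Finset.prod_singleton]
    simp only [col]
    split_ifs <;> simp
  rw [h2, abs_neg, abs_of_nonneg (av_nonneg (fun σ => by split_ifs <;> norm_num))] at h1
  simpa using h1

theorem kap_inner_bound (hends : ∀ e, (ends e).card = 2) {H : Finset E} {T : E → Opt E} {f : E}
    (hf : f ∈ INN H T) : |kap q ends H T| * (q : ℝ) ≤ 1 := by
  classical
  refine le_trans ?_ (av_within (q := q) ends hends f)
  apply mul_le_mul_of_nonneg_right _ (Nat.cast_nonneg _)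
  unfold kap
  refine (abs_av_le _).trans (av_mono ?_)
  intro σ
  rw [INN, mem_filter] at hf
  split_ifs with h
  · rw [Finset.abs_prod]
    exact Finset.prod_le_one (fun _ _ => abs_nonneg _) (fun f _ => abs_col_le ends f _ σ)
  · have : col ends f (T f) σ = 0 := by
      rw [hf.2]; simp only [col]; rw [if_neg h]
    rw [Finset.prod_eq_zero hf.1 this, abs_zero]

/-- main configurations -/
def mainT (H : Finset E) (f : E) : E → Opt E := fun f' =>
  if f' = f then some (some H) else if f' ∈ H then some none else none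

theorem mainT_mem {Gd : Finset (Finset E)} {H : Finset E} (hH : H ∈ Gd) {f : E} (hf : f ∈ H) :
    mainT H f ∈ TT (opts Gd) none H := by
  rw [mem_TT]
  constructor
  · intro f' hf'
    unfold mainT opts
    by_cases h : f' = f
    · subst h
      simp only [if_true]
      apply mem_insert_of_mem
      apply mem_insert_of_mem
      rw [mem_image]
      exact ⟨H, mem_filter.2 ⟨hH, hf⟩, rfl⟩
    · simp only [h, if_false, hf', if_true]
      exact mem_insert_of_mem (mem_insert_self _ _)
  · intro f' hf'
    unfold mainT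
    have : f' ≠ f := by rintro rfl; exact hf' hf
    simp [this, hf']

theorem Wt_mainT (lam : Finset E → ℝ) {H : Finset E} {f : E} (hf : f ∈ H) :
    Wt lam H (mainT H f) = lam H := by
  unfold Wt
  rw [Finset.prod_eq_single_of_mem f hf]
  · simp [mainT, wt]
  · intro f' hf' hne
    simp [mainT, wt, hne, hf']

theorem av_xi_sq : av (fun a : Fin 4 => xi a ^ 2) = 1 / 2 := by
  unfold av
  simp [Fin.sum_univ_four, xi]
  norm_num

theorem av_one_sub_xi_sq : av (fun a : Fin 4 => 1 - xi a ^ 2) = 1 / 2 := by
  unfold av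
  simp [Fin.sum_univ_four, xi]
  norm_num

theorem av_Mon_mainT {H : Finset E} {f : E} (hf : f ∈ H) :
    av (Mon H (mainT H f)) = (1 / 2) ^ H.card := by
  have h1 : ∀ ω : E → Fin 4, Mon H (mainT H f) ω =
      ∏ e, (if e ∈ H then (if e = f then (fun a => 1 - xi a ^ 2) else (fun a => xi a ^ 2))
        else (fun _ => (1 : ℝ))) (ω e) := by
    intro ω
    unfold Mon
    rw [← Finset.mul_prod_erase H _ hf]
    have h2 : mon f (mainT H f f) ω = (1 - xi (ω f) ^ 2) * ∏ f' ∈ H.erase f, xi (ω f') := by
      simp [mainT, mon]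
    have h3 : ∏ e ∈ H.erase f, mon e (mainT H f e) ω = ∏ e ∈ H.erase f, xi (ω e) := by
      apply Finset.prod_congr rfl
      intro e he
      rw [mem_erase] at he
      simp [mainT, mon, he.1, he.2]
    rw [h2, h3, mul_assoc, ← Finset.prod_mul_distrib]
    rw [← Finset.prod_subset (Finset.subset_univ H)
      (f := fun e => (if e ∈ H then (if e = f then (fun a => 1 - xi a ^ 2)
        else (fun a => xi a ^ 2)) else (fun _ => (1 : ℝ))) (ω e))]
    · rw [← Finset.mul_prod_erase H _ hf]
      congr 1
      · simp [hf]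
      · apply Finset.prod_congr rfl
        intro e he
        rw [mem_erase] at he
        simp [he.1, he.2, sq]
    · intro e _ he
      simp [he]
  rw [show (Mon H (mainT H f)) = fun ω => ∏ e, (if e ∈ H then (if e = f then
      (fun a => 1 - xi a ^ 2) else (fun a => xi a ^ 2)) else (fun _ => (1 : ℝ))) (ω e)
      from funext h1, av_prod_coord]
  have h4 : ∀ e, av (if e ∈ H then (if e = f then (fun a => 1 - xi a ^ 2)
      else (fun a => xi a ^ 2)) else (fun _ : Fin 4 => (1 : ℝ))) = if e ∈ H then 1 / 2 else 1 := by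
    intro e
    by_cases he : e ∈ H
    · by_cases hef : e = f
      · simp only [hef, hf, if_true]
        exact av_one_sub_xi_sq
      · simp only [he, hef, if_true, if_false]
        exact av_xi_sq
    · simp only [he, if_false]
      exact av_const 1
  rw [Finset.prod_congr rfl (fun e _ => h4 e), Finset.prod_ite_mem, Finset.univ_inter,
    Finset.prod_const]

theorem kap_mainT (hends : ∀ e, (ends e).card = 2) {H : Finset E} {f : E}
    (hf : f ∈ H) (hq : 2 * H.card ≤ q) : 1 / 2 ≤ kap q ends H (mainT H f) := by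
  classical
  have hqpos : (0 : ℝ) < q := by exact_mod_cast Nat.pos_of_ne_zero (NeZero.ne q)
  have h1 : av (fun σ : V → ZMod q => 1 - ∑ e ∈ H, if Within ends σ e then (1 : ℝ) else 0) ≤
      kap q ends H (mainT H f) := by
    unfold kap
    apply av_mono
    intro σ
    by_cases h : ∃ e ∈ H, Within ends σ e
    · obtain ⟨e, he, hW⟩ := h
      have h2 : (1 : ℝ) ≤ ∑ e ∈ H, if Within ends σ e then (1 : ℝ) else 0 := by
        refine le_trans ?_ (Finset.single_le_sum (f := fun e => if Within ends σ e then (1 : ℝ) else 0)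
          (fun i _ => by split_ifs <;> norm_num) he)
        simp [hW]
      have h3 : 0 ≤ ∏ e ∈ H, col ends e (mainT H f e) σ := by
        apply Finset.prod_nonneg
        intro e he
        by_cases hef : e = f
        · simp only [mainT, hef, if_true, col]
          split_ifs <;> norm_num
        · simp only [mainT, hef, if_false, he, if_true, col]
          split_ifs <;> norm_num
      linarith
    · push Not at h
      have h2 : ∑ e ∈ H, (if Within ends σ e then (1 : ℝ) else 0) = 0 := by
        apply Finset.sum_eq_zero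
        intro e he
        simp [h e he]
      have h3 : ∏ e ∈ H, col ends e (mainT H f e) σ = 1 := by
        apply Finset.prod_eq_one
        intro e he
        by_cases hef : e = f
        · subst hef
          simp only [mainT, if_true, col]
          rw [if_neg (h e he)]
        · simp only [mainT, hef, if_false, he, if_true, col]
          rw [if_neg (h e he)]
      rw [h2, h3]
      norm_num
  refine le_trans ?_ h1
  rw [av_sub, av_const, av_sum]
  have h2 : ∀ e ∈ H, av (fun σ : V → ZMod q => if Within ends σ e then (1 : ℝ) else 0) ≤ 1 / q := by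
    intro e _
    rw [le_div_iff₀ hqpos]
    exact av_within ends hends e
  have h3 := Finset.sum_le_sum h2
  rw [Finset.sum_const, nsmul_eq_mul] at h3
  have h4 : (H.card : ℝ) * (1 / q) ≤ 1 / 2 := by
    rw [mul_one_div, div_le_div_iff₀ hqpos (by norm_num)]
    have : ((2 * H.card : ℕ) : ℝ) ≤ (q : ℝ) := by exact_mod_cast hq
    push_cast at this
    linarith
  linarith

/-- classification of the configurations without external vertices and with a spanning gadget -/
theorem full_case [Nonempty V] (hends : ∀ e, (ends e).card = 2) {Gd : Finset (Finset E)}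
    {H : Finset E} {T : E → Opt E}
    (hT : T ∈ TT (opts Gd) none H) (hav : av (Mon H T) ≠ 0)
    (hmain : ∀ f ∈ H, T ≠ mainT H f) {f0 : E} (hf0 : f0 ∈ SG H T)
    (hfull : (vs ends (gad T f0)).card = (vs ends H).card) :
    |kap q ends H T| * (q : ℝ) ^ (((vs ends H).card - 1) + 1) ≤
      (q : ℝ) ^ (∑ f ∈ SG H T, ((vs ends (gad T f)).card - 1)) := by
  classical
  have hq1 : (1 : ℝ) ≤ q := by exact_mod_cast Nat.pos_of_ne_zero (NeZero.ne q)
  have hq0 : (0 : ℝ) ≤ q := by linarith
  obtain ⟨P1, P2⟩ := P_of_av hav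
  have hsingle : (vs ends H).card - 1 ≤ ∑ f ∈ SG H T, ((vs ends (gad T f)).card - 1) := by
    rw [← hfull]
    exact Finset.single_le_sum (f := fun f => (vs ends (gad T f)).card - 1)
      (fun _ _ => Nat.zero_le _) hf0
  by_cases h1 : ∃ f1 ∈ SG H T, f1 ≠ f0
  · obtain ⟨f1, hf1, hne⟩ := h1
    have h2 : ((vs ends H).card - 1) + 1 ≤ ∑ f ∈ SG H T, ((vs ends (gad T f)).card - 1) := by
      have h3 : ∑ f ∈ ({f0, f1} : Finset E), ((vs ends (gad T f)).card - 1) ≤
          ∑ f ∈ SG H T, ((vs ends (gad T f)).card - 1) := by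
        apply Finset.sum_le_sum_of_subset
        intro x hx
        rw [mem_insert, mem_singleton] at hx
        rcases hx with rfl | rfl
        · exact hf0
        · exact hf1
      rw [Finset.sum_pair (Ne.symm hne), hfull] at h3
      have h4 : 2 ≤ (vs ends (gad T f1)).card := by
        rw [← hends f1]
        exact card_le_card (ends_subset_vs (mem_SG_of_TT hT hf1).2)
      omega
    calc |kap q ends H T| * (q : ℝ) ^ (((vs ends H).card - 1) + 1)
        ≤ 1 * (q : ℝ) ^ (((vs ends H).card - 1) + 1) :=
          mul_le_mul_of_nonneg_right (abs_kap_le_one ends H T) (pow_nonneg hq0 _)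
      _ ≤ _ := by
          rw [one_mul]
          exact pow_le_pow_right₀ hq1 h2
  · push Not at h1
    by_cases h2 : (INN H T).Nonempty
    · obtain ⟨f2, hf2⟩ := h2
      have h3 := kap_inner_bound (q := q) ends hends hf2
      calc |kap q ends H T| * (q : ℝ) ^ (((vs ends H).card - 1) + 1)
          = (|kap q ends H T| * q) * (q : ℝ) ^ ((vs ends H).card - 1) := by
            rw [pow_succ]; ring
        _ ≤ 1 * (q : ℝ) ^ ((vs ends H).card - 1) :=
            mul_le_mul_of_nonneg_right h3 (pow_nonneg hq0 _)
        _ ≤ _ := by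
            rw [one_mul]
            exact pow_le_pow_right₀ hq1 hsingle
    · exfalso
      rw [not_nonempty_iff_eq_empty] at h2
      have hbase : ∀ f' ∈ H, f' ≠ f0 → f' ∈ BS H T := by
        intro f' hf' hne
        rcases cases_opt (T := T) hf' with h | h | h
        · rw [h2] at h; exact absurd h (notMem_empty _)
        · exact h
        · exact absurd (h1 f' h) hne
      have hgH : gad T f0 = H := by
        ext f'
        constructor
        · intro hf'
          by_cases hne : f' = f0
          · rw [hne]; exact (mem_SG.1 hf0).1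
          · rcases P1 f0 hf0 f' hf' hne with ⟨f'', hf'', hne'', _⟩ | h
            · exact absurd (h1 f'' hf'') hne''
            · exact (mem_filter.1 h).1
        · intro hf'
          by_cases hne : f' = f0
          · rw [hne]; exact (mem_SG_of_TT hT hf0).2
          · obtain ⟨f3, hf3, h3⟩ := P2 f' (hbase f' hf' hne)
            rw [h1 f3 hf3] at h3
            exact h3
      apply hmain f0 (mem_SG.1 hf0).1
      funext f'
      unfold mainT
      by_cases hne : f' = f0
      · rw [if_pos hne, hne, (mem_SG.1 hf0).2, hgH]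
      · rw [if_neg hne]
        by_cases hf' : f' ∈ H
        · rw [if_pos hf']
          exact (mem_filter.1 (hbase f' hf' hne)).2
        · rw [if_neg hf']
          exact (mem_TT.1 hT).2 f' hf'

end Single

end Pool.Agent.LDC
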