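import Mathlib
import Pool.Agent.LDC.Single

namespace Pool.Agent.LDC

open Finset

set_option linter.unusedSectionVars false

/-- counting constant -/
noncomputable def NG (M : ℕ) : ℝ := (2 + ((2 * M + 2 * M * M : ℝ) ^ 2 + 1) ^ M) ^ M

/-- growth constant -/
noncomputable def AM (M : ℕ) : ℝ := (M + 1) * NG M * 2 ^ (M + 3)

/-- weight sequence -/
noncomputable def bs (M : ℕ) : ℕ → ℝ
  | 0 => 1
  | (k + 1) => AM M * (bs M k) ^ M

theorem NG_ge (M : ℕ) : 1 ≤ NG M := by
  unfold NG
  apply one_le_pow₀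
  have : (0 : ℝ) ≤ ((2 * M + 2 * M * M : ℝ) ^ 2 + 1) ^ M := by positivity
  linarith

theorem AM_ge (M : ℕ) : 1 ≤ AM M := by
  unfold AM
  have h1 : (1 : ℝ) ≤ (M : ℝ) + 1 := by
    have : (0 : ℝ) ≤ M := Nat.cast_nonneg _
    linarith
  have h2 := NG_ge M
  have h3 : (1 : ℝ) ≤ 2 ^ (M + 3) := one_le_pow₀ (by norm_num)
  have h4 : (1 : ℝ) ≤ ((M : ℝ) + 1) * NG M := one_le_mul_of_one_le_of_one_le h1 h2
  exact one_le_mul_of_one_le_of_one_le h4 h3

theorem bs_ge (M k : ℕ) : 1 ≤ bs M k := by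
  induction k with
  | zero => simp [bs]
  | succ k ih =>
    unfold bs
    exact one_le_mul_of_one_le_of_one_le (AM_ge M) (one_le_pow₀ ih)

theorem bs_mono {M : ℕ} (hM : 1 ≤ M) : Monotone (bs M) := by
  apply monotone_nat_of_le_succ
  intro k
  have h1 := bs_ge M k
  have h2 := AM_ge M
  show bs M k ≤ AM M * bs M k ^ M
  calc bs M k = (bs M k) ^ 1 := (pow_one _).symm
    _ ≤ (bs M k) ^ M := pow_le_pow_right₀ h1 hM
    _ = 1 * (bs M k) ^ M := (one_mul _).symm
    _ ≤ AM M * bs M k ^ M := mul_le_mul_of_nonneg_right h2 (by positivity)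

section Fix

variable {V E : Type*} [Fintype V] [DecidableEq V] [Fintype E] [DecidableEq E]
variable {q : ℕ} [NeZero q] (ends : E → Finset V)

/-- gadgets -/
noncomputable def GdM (ends : E → Finset V) (M : ℕ) : Finset (Finset E) :=
  @Finset.filter _ (fun g => g.Nonempty ∧ Conn ends g ∧ g.card ≤ M)
    (Classical.decPred _) univ

theorem mem_GdM {M : ℕ} {g : Finset E} :
    g ∈ GdM ends M ↔ g.Nonempty ∧ Conn ends g ∧ g.card ≤ M := by
  simp [GdM]

/-- scale of a gadget -/
noncomputable def sc (q : ℕ) (ends : E → Finset V) (M : ℕ) (g : Finset E) : ℝ :=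
  bs M (vs ends g).card * ((q : ℝ) ^ ((vs ends g).card - 1))⁻¹

theorem sc_pos (M : ℕ) (g : Finset E) : 0 < sc q ends M g := by
  unfold sc
  have hqpos : (0 : ℝ) < q := by exact_mod_cast Nat.pos_of_ne_zero (NeZero.ne q)
  have := bs_ge M (vs ends g).card
  positivity

/-- absolute term -/
noncomputable def FT (q : ℕ) [NeZero q] (ends : E → Finset V) (M : ℕ) (H : Finset E)
    (T : E → Opt E) : ℝ :=
  |kap q ends H T * av (Mon H T)| * (∏ f ∈ SG H T, sc q ends M (gad T f)) * ((SG H T).card + 1)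

theorem FT_nonneg (M : ℕ) (H : Finset E) (T : E → Opt E) : 0 ≤ FT q ends M H T := by
  unfold FT
  have : 0 ≤ ∏ f ∈ SG H T, sc q ends M (gad T f) :=
    Finset.prod_nonneg (fun f _ => (sc_pos ends M _).le)
  positivity

theorem FT_bound {M : ℕ} {H : Finset E} (hHM : H.card ≤ M) {T : E → Opt E} {x : ℕ} {β : ℝ}
    (hβ : 1 ≤ β) (hb : ∀ f ∈ SG H T, bs M (vs ends (gad T f)).card ≤ β)
    (hk : av (Mon H T) ≠ 0 → |kap q ends H T| * (q : ℝ) ^ (((vs ends H).card - 1) + x) ≤
      (q : ℝ) ^ (∑ f ∈ SG H T, ((vs ends (gad T f)).card - 1))) :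
    FT q ends M H T * (q : ℝ) ^ x ≤
      β ^ M * (M + 1) * ((q : ℝ) ^ ((vs ends H).card - 1))⁻¹ := by
  have hqpos : (0 : ℝ) < q := by exact_mod_cast Nat.pos_of_ne_zero (NeZero.ne q)
  have hSM : (SG H T).card ≤ M := (card_le_card (filter_subset _ _)).trans hHM
  by_cases hav : av (Mon H T) = 0
  · unfold FT
    rw [hav]
    simp only [mul_zero, abs_zero, zero_mul]
    positivity
  have hk := hk hav
  have h1 : ∏ f ∈ SG H T, sc q ends M (gad T f) ≤
      β ^ M * ((q : ℝ) ^ (∑ f ∈ SG H T, ((vs ends (gad T f)).card - 1)))⁻¹ := by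
    unfold sc
    rw [Finset.prod_mul_distrib, Finset.prod_inv_distrib, Finset.prod_pow_eq_pow_sum]
    apply mul_le_mul_of_nonneg_right _ (by positivity)
    calc ∏ f ∈ SG H T, bs M (vs ends (gad T f)).card ≤ ∏ f ∈ SG H T, β := by
          apply Finset.prod_le_prod
          · intro f _
            exact le_trans zero_le_one (bs_ge M _)
          · exact hb
      _ = β ^ (SG H T).card := by rw [Finset.prod_const]
      _ ≤ β ^ M := pow_le_pow_right₀ hβ hSM
  have h2 : |kap q ends H T * av (Mon H T)| ≤ |kap q ends H T| := by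
    rw [abs_mul]
    have : |av (Mon H T)| ≤ 1 := abs_av_le_of_bound (abs_Mon_le H T)
    calc _ ≤ |kap q ends H T| * 1 := mul_le_mul_of_nonneg_left this (abs_nonneg _)
      _ = _ := mul_one _
  have h3 : ((SG H T).card : ℝ) + 1 ≤ M + 1 := by
    have : ((SG H T).card : ℝ) ≤ M := by exact_mod_cast hSM
    linarith
  have hQ : (0 : ℝ) < (q : ℝ) ^ (∑ f ∈ SG H T, ((vs ends (gad T f)).card - 1)) := pow_pos hqpos _
  have hQk : (0 : ℝ) < (q : ℝ) ^ ((vs ends H).card - 1) := pow_pos hqpos _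
  have h4 : |kap q ends H T| * (q : ℝ) ^ x *
      ((q : ℝ) ^ (∑ f ∈ SG H T, ((vs ends (gad T f)).card - 1)))⁻¹ ≤
      ((q : ℝ) ^ ((vs ends H).card - 1))⁻¹ := by
    rw [← div_eq_mul_inv, div_le_iff₀ hQ, ← div_eq_inv_mul, le_div_iff₀ hQk]
    calc _ = |kap q ends H T| * (q : ℝ) ^ (((vs ends H).card - 1) + x) := by
          rw [pow_add]; ring
      _ ≤ _ := hk
  unfold FT
  calc |kap q ends H T * av (Mon H T)| * (∏ f ∈ SG H T, sc q ends M (gad T f)) *
        ((SG H T).card + 1) * (q : ℝ) ^ x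
      ≤ |kap q ends H T| * (β ^ M * ((q : ℝ) ^ (∑ f ∈ SG H T,
          ((vs ends (gad T f)).card - 1)))⁻¹) * (M + 1) * (q : ℝ) ^ x := by
        apply mul_le_mul_of_nonneg_right _ (by positivity)
        apply mul_le_mul _ h3 (by positivity) (by positivity)
        exact mul_le_mul h2 h1 (Finset.prod_nonneg (fun f _ => (sc_pos ends M _).le))
          (abs_nonneg _)
    _ = β ^ M * (M + 1) * (|kap q ends H T| * (q : ℝ) ^ x *
      ((q : ℝ) ^ (∑ f ∈ SG H T, ((vs ends (gad T f)).card - 1)))⁻¹) := by ring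
    _ ≤ _ := mul_le_mul_of_nonneg_left h4 (by positivity)

/-- main coefficient -/
noncomputable def cH (q : ℕ) [NeZero q] (ends : E → Finset V) (H : Finset E) : ℝ :=
  ∑ f ∈ H, kap q ends H (mainT H f) * av (Mon H (mainT H f))

theorem cH_ge (hends : ∀ e, (ends e).card = 2) {M : ℕ} {H : Finset E} (hH : H.Nonempty)
    (hHM : H.card ≤ M) (hq : 2 * M ≤ q) : (1 / 2) ^ (M + 1) ≤ cH q ends H := by
  unfold cH
  have h1 : ∀ f ∈ H, (1 / 2 : ℝ) ^ (M + 1) ≤ kap q ends H (mainT H f) * av (Mon H (mainT H f)) := by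
    intro f hf
    rw [av_Mon_mainT hf]
    have h2 := kap_mainT (q := q) ends hends hf (by omega)
    calc (1 / 2 : ℝ) ^ (M + 1) = (1 / 2) * (1 / 2) ^ M := by rw [pow_succ]; ring
      _ ≤ kap q ends H (mainT H f) * (1 / 2) ^ H.card := by
          apply mul_le_mul h2 _ (by positivity) (by linarith)
          exact pow_le_pow_of_le_one (by norm_num) (by norm_num) hHM
  obtain ⟨f, hf⟩ := hH
  refine (h1 f hf).trans ?_
  apply Finset.single_le_sum (f := fun f => kap q ends H (mainT H f) * av (Mon H (mainT H f))) _ hf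
  intro g hg
  exact le_trans (by positivity) (h1 g hg)

open Classical in
/-- the error sum -/
theorem key_sum [Nonempty V] (hinj : Function.Injective ends) (hends : ∀ e, (ends e).card = 2)
    {M : ℕ} (hM : 1 ≤ M) (hq : 2 * M ≤ q)
    (hη : (bs M (2 * M)) ^ M * ((q : ℝ)⁻¹ + ((1 + ((q : ℝ) ^ 2)⁻¹) ^ (Fintype.card V) - 1)) ≤ 1)
    {H : Finset E} (hH : H ∈ GdM ends M) :
    ∑ T ∈ (TT (opts (GdM ends M)) none H).filter (fun T => T ∉ H.image (mainT H)),
      FT q ends M H T ≤ (1 / 2) * (cH q ends H * sc q ends M H) := by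
  have hne : ∀ e, (ends e).Nonempty := fun e => card_pos.1 (by rw [hends e]; norm_num)
  have hqpos : (0 : ℝ) < q := by exact_mod_cast Nat.pos_of_ne_zero (NeZero.ne q)
  obtain ⟨hHne, hHc, hHM⟩ := (mem_GdM ends).1 hH
  have hGdM : ∀ g ∈ GdM ends M, g.card ≤ M := fun g hg => ((mem_GdM ends).1 hg).2.2
  have hGdC : ∀ g ∈ GdM ends M, Conn ends g := fun g hg => ((mem_GdM ends).1 hg).2.1
  set 𝒯 := TT (opts (GdM ends M)) none H with h𝒯
  set k := (vs ends H).card with hk
  have hk2 : 2 ≤ k := by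
    obtain ⟨f, hf⟩ := hHne
    rw [← hends f]
    exact card_le_card (ends_subset_vs hf)
  have hvsle : ∀ g ∈ GdM ends M, (vs ends g).card ≤ 2 * M := fun g hg =>
    (card_vs_le hends g).trans (Nat.mul_le_mul_left 2 (hGdM g hg))
  have hg : ∀ T ∈ 𝒯, ∀ f ∈ SG H T, f ∈ gad T f ∧ Conn ends (gad T f) := fun T hT f hf =>
    ⟨(mem_SG_of_TT hT hf).2, hGdC _ (mem_SG_of_TT hT hf).1⟩
  have hbig : ∀ T ∈ 𝒯, ∀ f ∈ SG H T, bs M (vs ends (gad T f)).card ≤ bs M (2 * M) :=
    fun T hT f hf => bs_mono hM (hvsle _ (mem_SG_of_TT hT hf).1)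
  set Qk : ℝ := ((q : ℝ) ^ (k - 1))⁻¹ with hQk
  have hQkpos : 0 < Qk := by positivity
  set B := (bs M (2 * M)) ^ M with hB
  have hB1 : 1 ≤ B := one_le_pow₀ (bs_ge M _)
  -- the three parts
  set E1 := 𝒯.filter (fun T => ext ends H T ≠ ∅) with hE1
  set E0 := 𝒯.filter (fun T => ext ends H T = ∅) with hE0
  have hE0card : (E0.card : ℝ) ≤ NG M := by
    have h1 := card_TT_fiber hinj hends hGdM H ∅
    have h2 : (E0.card : ℝ) ≤ (((2 + (((vs ends H).card + (∅ : Finset V).card) ^ 2 + 1) ^ M) ^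
      H.card : ℕ) : ℝ) := by exact_mod_cast h1
    refine h2.trans ?_
    push_cast
    unfold NG
    have h3 : ((vs ends H).card : ℝ) ≤ 2 * M := by
      exact_mod_cast hvsle H hH
    have h4 : ((vs ends H).card : ℝ) + 0 ≤ 2 * M + 2 * M * M := by
      have : (0 : ℝ) ≤ 2 * M * M := by positivity
      linarith
    have h5 : (1 : ℝ) ≤ 2 + ((2 * M + 2 * M * M : ℝ) ^ 2 + 1) ^ M := by
      have : (0 : ℝ) ≤ ((2 * M + 2 * M * M : ℝ) ^ 2 + 1) ^ M := by positivity
      linarith
    calc (2 + ((((vs ends H).card : ℝ) + ((∅ : Finset V).card : ℝ)) ^ 2 + 1) ^ M) ^ H.card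
        ≤ (2 + ((2 * M + 2 * M * M : ℝ) ^ 2 + 1) ^ M) ^ H.card := by
          simp only [card_empty, Nat.cast_zero]
          gcongr
      _ ≤ (2 + ((2 * M + 2 * M * M : ℝ) ^ 2 + 1) ^ M) ^ M := pow_le_pow_right₀ h5 hHM
  -- part 1
  have hS1 : ∑ T ∈ E1, FT q ends M H T ≤
      B * (M + 1) * Qk * NG M * ((1 + ((q : ℝ) ^ 2)⁻¹) ^ (Fintype.card V) - 1) := by
    have h1 := sum_fiber_bound hinj hends hGdM H hqpos (B0 := B * (M + 1) * Qk)
      (by positivity) (FT q ends M H) (by
        intro T hT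
        exact FT_bound ends hHM (bs_ge M _) (hbig T hT) (fun hav =>
          kap_single_bound ends hne hHne hHc (hg T hT) hav)) (fun W => W ≠ ∅)
    refine h1.trans ?_
    have h2 : ∑ W ∈ (univ : Finset V).powerset.filter (fun W => W ≠ ∅), (((q : ℝ) ^ 2)⁻¹) ^ W.card
        = (1 + ((q : ℝ) ^ 2)⁻¹) ^ (Fintype.card V) - 1 := by
      rw [← sum_powerset_inv, Finset.filter_ne', ← Finset.add_sum_erase _ _ (empty_mem_powerset _)]
      simp
    rw [h2]
    have h3 : 0 ≤ (1 + ((q : ℝ) ^ 2)⁻¹) ^ (Fintype.card V) - 1 := by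
      have : (1 : ℝ) ≤ (1 + ((q : ℝ) ^ 2)⁻¹) ^ (Fintype.card V) :=
        one_le_pow₀ (by have : (0 : ℝ) ≤ ((q : ℝ) ^ 2)⁻¹ := by positivity
                        linarith)
      linarith
    apply mul_le_mul_of_nonneg_right _ h3
    apply mul_le_mul_of_nonneg_left _ (by positivity)
    unfold NG
    have h4 : ((vs ends H).card : ℝ) ≤ 2 * M := by
      exact_mod_cast hvsle H hH
    have h5 : (H.card : ℝ) ≤ M := by exact_mod_cast hHM
    have h6 : (1 : ℝ) ≤ 2 + ((2 * M + 2 * M * M : ℝ) ^ 2 + 1) ^ M := by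
      have : (0 : ℝ) ≤ ((2 * M + 2 * M * M : ℝ) ^ 2 + 1) ^ M := by positivity
      linarith
    calc (2 + (((vs ends H).card + 2 * M * H.card : ℝ) ^ 2 + 1) ^ M) ^ H.card
        ≤ (2 + ((2 * M + 2 * M * M : ℝ) ^ 2 + 1) ^ M) ^ H.card := by gcongr
      _ ≤ (2 + ((2 * M + 2 * M * M : ℝ) ^ 2 + 1) ^ M) ^ M := pow_le_pow_right₀ h6 hHM
  -- pointwise bound without external vertices
  have hpt : ∀ T ∈ E0.filter (fun T => T ∉ H.image (mainT H)), FT q ends M H T ≤
      (bs M (k - 1)) ^ M * (M + 1) * Qk + B * (M + 1) * Qk * (q : ℝ)⁻¹ := by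
    intro T hT
    rw [mem_filter, hE0, mem_filter] at hT
    obtain ⟨⟨hTT, hext⟩, hnm⟩ := hT
    have hpos1 : 0 ≤ (bs M (k - 1)) ^ M * (M + 1) * Qk := by
      have := bs_ge M (k - 1)
      positivity
    have hpos2 : 0 ≤ B * (M + 1) * Qk * (q : ℝ)⁻¹ := by positivity
    have hsubv : ∀ f ∈ SG H T, vs ends (gad T f) ⊆ vs ends H := by
      intro f hf v hv
      by_contra hvH
      have : v ∈ ext ends H T := by
        rw [ext, Ext, mem_sdiff, mem_biUnion]
        exact ⟨⟨f, hf, hv⟩, hvH⟩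
      rw [hext] at this
      exact absurd this (notMem_empty _)
    by_cases hfull : ∃ f0 ∈ SG H T, (vs ends (gad T f0)).card = (vs ends H).card
    · obtain ⟨f0, hf0, hfc⟩ := hfull
      have h1 := FT_bound (q := q) ends hHM (x := 1) (bs_ge M (2 * M)) (hbig T hTT) (fun hav =>
        full_case ends hends hTT hav (by
          intro f hf hTf
          exact hnm (mem_image.2 ⟨f, hf, hTf.symm⟩)) hf0 hfc)
      rw [pow_one] at h1
      have h2 : FT q ends M H T ≤ B * (M + 1) * Qk * (q : ℝ)⁻¹ := by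
        rw [← div_eq_mul_inv, le_div_iff₀ hqpos]
        exact h1
      linarith
    · push Not at hfull
      have h1 := FT_bound (q := q) ends hHM (x := 0) (T := T) (bs_ge M (k - 1)) (by
        intro f hf
        apply bs_mono hM
        have h2 := card_le_card (hsubv f hf)
        have h3 := hfull f hf
        omega) (fun hav => by
          have h4 := kap_single_bound (q := q) ends hne hHne hHc (hg T hTT) hav
          rw [hext, card_empty] at h4
          exact h4)
      rw [pow_zero, mul_one] at h1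
      linarith
  have hS0 : ∑ T ∈ E0.filter (fun T => T ∉ H.image (mainT H)), FT q ends M H T ≤
      NG M * ((bs M (k - 1)) ^ M * (M + 1) * Qk + B * (M + 1) * Qk * (q : ℝ)⁻¹) := by
    refine (Finset.sum_le_sum hpt).trans ?_
    rw [Finset.sum_const, nsmul_eq_mul]
    apply mul_le_mul_of_nonneg_right
    · refine le_trans ?_ hE0card
      exact_mod_cast card_le_card (filter_subset _ _)
    · have := bs_ge M (k - 1)
      positivity
  have hsplit : ∑ T ∈ 𝒯.filter (fun T => T ∉ H.image (mainT H)), FT q ends M H T ≤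
      ∑ T ∈ E1, FT q ends M H T +
      ∑ T ∈ E0.filter (fun T => T ∉ H.image (mainT H)), FT q ends M H T := by
    rw [← Finset.sum_union]
    · apply Finset.sum_le_sum_of_subset_of_nonneg
      · intro T hT
        rw [mem_filter] at hT
        rw [mem_union]
        by_cases h : ext ends H T = ∅
        · right
          rw [mem_filter, hE0, mem_filter]
          exact ⟨⟨hT.1, h⟩, hT.2⟩
        · left
          rw [hE1, mem_filter]
          exact ⟨hT.1, h⟩
      · intro T _ _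
        exact FT_nonneg ends M H T
    · rw [Finset.disjoint_left]
      intro T h1 h2
      rw [hE1, mem_filter] at h1
      rw [mem_filter, hE0, mem_filter] at h2
      exact h1.2 h2.1.2
  have hc := cH_ge (q := q) ends hends hHne hHM hq
  have hbk : bs M k = AM M * (bs M (k - 1)) ^ M := by
    obtain ⟨k', hk'⟩ : ∃ k', k = k' + 1 := ⟨k - 1, by omega⟩
    rw [hk']
    rfl
  have hsc : sc q ends M H = bs M k * Qk := rfl
  set η := ((1 + ((q : ℝ) ^ 2)⁻¹) ^ (Fintype.card V) - 1) with hηd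
  have hNG := NG_ge M
  have hbk1 : 1 ≤ (bs M (k - 1)) ^ M := one_le_pow₀ (bs_ge M _)
  calc ∑ T ∈ 𝒯.filter (fun T => T ∉ H.image (mainT H)), FT q ends M H T
      ≤ B * (M + 1) * Qk * NG M * η +
        NG M * ((bs M (k - 1)) ^ M * (M + 1) * Qk + B * (M + 1) * Qk * (q : ℝ)⁻¹) :=
          hsplit.trans (add_le_add hS1 hS0)
    _ = (M + 1) * NG M * Qk * ((bs M (k - 1)) ^ M + B * ((q : ℝ)⁻¹ + η)) := by ring
    _ ≤ (M + 1) * NG M * Qk * ((bs M (k - 1)) ^ M + (bs M (k - 1)) ^ M) := by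
        apply mul_le_mul_of_nonneg_left _ (by positivity)
        linarith
    _ = (1 / 2) * ((1 / 2) ^ (M + 1) * (bs M k * Qk)) := by
        rw [hbk, AM]
        have : (1 / 2 : ℝ) ^ (M + 1) * 2 ^ (M + 3) = 4 := by
          have h2 : (2 : ℝ) ^ (M + 3) = 2 ^ (M + 1) * 4 := by ring
          rw [h2, ← mul_assoc, ← mul_pow]
          norm_num
        calc (M + 1) * NG M * Qk * ((bs M (k - 1)) ^ M + (bs M (k - 1)) ^ M)
            = (1 / 2) * (4 * ((M + 1) * NG M * (bs M (k - 1)) ^ M * Qk)) := by ring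
          _ = (1 / 2) * (((1 / 2 : ℝ) ^ (M + 1) * 2 ^ (M + 3)) *
                ((M + 1) * NG M * (bs M (k - 1)) ^ M * Qk)) := by rw [this]
          _ = _ := by ring
    _ ≤ (1 / 2) * (cH q ends H * sc q ends M H) := by
        rw [hsc]
        apply mul_le_mul_of_nonneg_left _ (by norm_num)
        apply mul_le_mul_of_nonneg_right hc
        have := bs_ge M k
        positivity

/-- the coefficients from the rescaled unknowns -/
noncomputable def lamOf (q : ℕ) (ends : E → Finset V) (M : ℕ) (θ : Finset E → ℝ)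
    (g : Finset E) : ℝ := sc q ends M g * θ g

open Classical in
/-- the remainder -/
noncomputable def RH (q : ℕ) [NeZero q] (ends : E → Finset V) (M : ℕ) (θ : Finset E → ℝ)
    (H : Finset E) : ℝ :=
  ∑ T ∈ (TT (opts (GdM ends M)) none H).filter (fun T => T ∉ H.image (mainT H)),
    kap q ends H T * av (Mon H T) * ∏ f ∈ SG H T, lamOf q ends M θ (gad T f)

theorem Wt_eq (lam : Finset E → ℝ) (H : Finset E) (T : E → Opt E) :
    Wt lam H T = ∏ f ∈ SG H T, lam (gad T f) := by
  have h := prod_Wt (C := {H}) (by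
    intro c h1 c' h2 h3
    rw [mem_singleton] at h1 h2
    exact absurd (h1.trans h2.symm) h3) lam T
  have hb : ({H} : Finset (Finset E)).biUnion id = H := by simp
  rw [hb, Finset.prod_singleton] at h
  exact h

theorem Phi_split {M : ℕ} (θ : Finset E → ℝ) {H : Finset E} (hH : H ∈ GdM ends M) :
    Phi q ends (GdM ends M) (lamOf q ends M θ) H =
      cH q ends H * (sc q ends M H * θ H) + RH q ends M θ H := by
  classical
  rw [Phi_eq, ← Finset.sum_filter_add_sum_filter_not _ (fun T => T ∈ H.image (mainT H))]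
  congr 1
  · have h1 : (TT (opts (GdM ends M)) none H).filter (fun T => T ∈ H.image (mainT H)) =
        H.image (mainT H) := by
      ext T
      rw [mem_filter]
      constructor
      · exact fun h => h.2
      · intro h
        refine ⟨?_, h⟩
        obtain ⟨f, hf, rfl⟩ := mem_image.1 h
        exact mainT_mem hH hf
    rw [h1, Finset.sum_image]
    · unfold cH
      rw [Finset.sum_mul]
      apply Finset.sum_congr rfl
      intro f hf
      rw [Wt_mainT _ hf]
      unfold lamOf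
      ring
    · intro f hf f' hf' h
      by_contra hne
      have h2 := congrFun h f
      unfold mainT at h2
      simp only [if_true, hne, if_false, mem_coe.1 hf] at h2
      simp at h2
  · unfold RH
    apply Finset.sum_congr rfl
    intro T _
    rw [Wt_eq]
    ring

theorem RH_bound {M : ℕ} {θ : Finset E → ℝ} (hθ : ∀ g, |θ g| ≤ 1) (H : Finset E) :
    |RH q ends M θ H| ≤ ∑ T ∈ (TT (opts (GdM ends M)) none H).filter
      (fun T => T ∉ (H.image (mainT H))), FT q ends M H T := by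
  classical
  unfold RH
  refine (Finset.abs_sum_le_sum_abs _ _).trans ?_
  apply Finset.sum_le_sum
  intro T _
  unfold FT lamOf
  rw [Finset.prod_mul_distrib, abs_mul (kap q ends H T * av (Mon H T)),
    abs_mul (∏ f ∈ SG H T, sc q ends M (gad T f)), Finset.abs_prod, Finset.abs_prod]
  have h1 : ∏ f ∈ SG H T, |θ (gad T f)| ≤ 1 :=
    Finset.prod_le_one (fun _ _ => abs_nonneg _) (fun f _ => hθ _)
  have h2 : ∏ f ∈ SG H T, |sc q ends M (gad T f)| = ∏ f ∈ SG H T, sc q ends M (gad T f) :=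
    Finset.prod_congr rfl (fun f _ => abs_of_pos (sc_pos ends M _))
  rw [h2]
  have h3 : 0 ≤ ∏ f ∈ SG H T, sc q ends M (gad T f) :=
    Finset.prod_nonneg (fun f _ => (sc_pos ends M _).le)
  have h4 : (1 : ℝ) ≤ ((SG H T).card : ℝ) + 1 := by
    have : (0 : ℝ) ≤ ((SG H T).card : ℝ) := Nat.cast_nonneg _
    linarith
  have h5 : 0 ≤ |kap q ends H T * av (Mon H T)| := abs_nonneg _
  calc |kap q ends H T * av (Mon H T)| * ((∏ f ∈ SG H T, sc q ends M (gad T f)) *
        ∏ f ∈ SG H T, |θ (gad T f)|)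
      ≤ |kap q ends H T * av (Mon H T)| * ((∏ f ∈ SG H T, sc q ends M (gad T f)) * 1) := by
        gcongr
    _ = (|kap q ends H T * av (Mon H T)| * (∏ f ∈ SG H T, sc q ends M (gad T f))) * 1 := by ring
    _ ≤ _ := mul_le_mul_of_nonneg_left h4 (by positivity)

theorem RH_lip {M : ℕ} {θ θ' : Finset E → ℝ} (hθ : ∀ g, |θ g| ≤ 1) (hθ' : ∀ g, |θ' g| ≤ 1)
    {δ : ℝ} (hδ : ∀ g, |θ g - θ' g| ≤ δ) (H : Finset E) :
    |RH q ends M θ H - RH q ends M θ' H| ≤ δ * ∑ T ∈ (TT (opts (GdM ends M)) none H).filter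
      (fun T => T ∉ (H.image (mainT H))), FT q ends M H T := by
  classical
  have hδ0 : 0 ≤ δ := (abs_nonneg _).trans (hδ ∅)
  unfold RH
  rw [← Finset.sum_sub_distrib, Finset.mul_sum]
  refine (Finset.abs_sum_le_sum_abs _ _).trans ?_
  apply Finset.sum_le_sum
  intro T _
  unfold FT lamOf
  rw [Finset.prod_mul_distrib, Finset.prod_mul_distrib]
  have h2 : 0 ≤ ∏ f ∈ SG H T, sc q ends M (gad T f) :=
    Finset.prod_nonneg (fun f _ => (sc_pos ends M _).le)
  have h3 : |∏ f ∈ SG H T, θ (gad T f) - ∏ f ∈ SG H T, θ' (gad T f)| ≤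
      ((SG H T).card : ℝ) * δ := by
    refine (abs_prod_sub_le _ _ _ (fun f _ => hθ _) (fun f _ => hθ' _)).trans ?_
    refine (Finset.sum_le_sum (fun f _ => hδ _)).trans ?_
    rw [Finset.sum_const, nsmul_eq_mul]
  have h4 : kap q ends H T * av (Mon H T) * ((∏ f ∈ SG H T, sc q ends M (gad T f)) *
      ∏ f ∈ SG H T, θ (gad T f)) - kap q ends H T * av (Mon H T) *
      ((∏ f ∈ SG H T, sc q ends M (gad T f)) * ∏ f ∈ SG H T, θ' (gad T f)) =
      (kap q ends H T * av (Mon H T)) * (∏ f ∈ SG H T, sc q ends M (gad T f)) *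
      (∏ f ∈ SG H T, θ (gad T f) - ∏ f ∈ SG H T, θ' (gad T f)) := by ring
  rw [h4, abs_mul, abs_mul, abs_of_nonneg h2]
  calc |kap q ends H T * av (Mon H T)| * (∏ f ∈ SG H T, sc q ends M (gad T f)) *
        |∏ f ∈ SG H T, θ (gad T f) - ∏ f ∈ SG H T, θ' (gad T f)|
      ≤ |kap q ends H T * av (Mon H T)| * (∏ f ∈ SG H T, sc q ends M (gad T f)) *
        (((SG H T).card : ℝ) * δ) := mul_le_mul_of_nonneg_left h3 (by positivity)
    _ ≤ |kap q ends H T * av (Mon H T)| * (∏ f ∈ SG H T, sc q ends M (gad T f)) *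
        ((((SG H T).card : ℝ) + 1) * δ) := by
        apply mul_le_mul_of_nonneg_left _ (by positivity)
        nlinarith
    _ = _ := by ring

/-- existence of the coefficients -/
theorem exists_lam [Nonempty V] (hinj : Function.Injective ends) (hends : ∀ e, (ends e).card = 2)
    {M : ℕ} (hM : 1 ≤ M) (hq : 2 * M ≤ q)
    (hη : (bs M (2 * M)) ^ M * ((q : ℝ)⁻¹ + ((1 + ((q : ℝ) ^ 2)⁻¹) ^ (Fintype.card V) - 1)) ≤ 1) :
    ∃ lam : Finset E → ℝ, (∀ g ∈ GdM ends M,
      |lam g| * (q : ℝ) ^ ((vs ends g).card - 1) ≤ bs M (2 * M)) ∧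
      ∀ g ∈ GdM ends M, Phi q ends (GdM ends M) lam g = 0 := by
  classical
  have hqpos : (0 : ℝ) < q := by exact_mod_cast Nat.pos_of_ne_zero (NeZero.ne q)
  let Fm : (Finset E → ℝ) → (Finset E → ℝ) := fun θ g =>
    if g ∈ GdM ends M then - RH q ends M θ g / (cH q ends g * sc q ends M g) else 0
  let s : Set (Finset E → ℝ) := {θ | ∀ g, |θ g| ≤ 1}
  have hden : ∀ g ∈ GdM ends M, 0 < cH q ends g * sc q ends M g := by
    intro g hg
    obtain ⟨h1, _, h3⟩ := (mem_GdM ends).1 hg
    have := cH_ge (q := q) ends hends h1 h3 hq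
    have h4 : (0 : ℝ) < (1 / 2) ^ (M + 1) := by positivity
    exact mul_pos (by linarith) (sc_pos ends M g)
  have hmaps : Set.MapsTo Fm s s := by
    intro θ hθ g
    show |Fm θ g| ≤ 1
    by_cases hg : g ∈ GdM ends M
    · simp only [Fm, hg, if_true]
      rw [abs_div, abs_neg, abs_of_pos (hden g hg), div_le_one (hden g hg)]
      refine (RH_bound ends hθ g).trans ?_
      refine (key_sum ends hinj hends hM hq hη hg).trans ?_
      have := hden g hg
      linarith
    · simp only [Fm, hg, if_false, abs_zero]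
      exact zero_le_one
  have hclosed : IsClosed s := by
    have : s = ⋂ g : Finset E, {θ | |θ g| ≤ 1} := by
      ext θ
      simp [s]
    rw [this]
    apply isClosed_iInter
    intro g
    exact isClosed_le (continuous_abs.comp (continuous_apply g)) continuous_const
  have hcontr : ContractingWith (1 / 2 : NNReal) (hmaps.restrict Fm s s) := by
    refine ⟨by
      rw [← NNReal.coe_lt_coe]
      norm_num, ?_⟩
    apply LipschitzWith.of_dist_le_mul
    rintro ⟨θ, hθ⟩ ⟨θ', hθ'⟩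
    rw [Subtype.dist_eq, Subtype.dist_eq]
    show dist (Fm θ) (Fm θ') ≤ ((1 / 2 : NNReal) : ℝ) * dist θ θ'
    rw [dist_pi_le_iff (by positivity)]
    intro g
    rw [Real.dist_eq]
    by_cases hg : g ∈ GdM ends M
    · simp only [Fm, hg, if_true]
      rw [← sub_div, abs_div, abs_of_pos (hden g hg), div_le_iff₀ (hden g hg)]
      have h1 := RH_lip (q := q) ends (M := M) hθ hθ' (δ := dist θ θ') (fun g => by
        rw [← Real.dist_eq]; exact dist_le_pi_dist θ θ' g) g
      have h2 := key_sum (q := q) ends hinj hends hM hq hη hg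
      have h3 : |-RH q ends M θ g - -RH q ends M θ' g| = |RH q ends M θ g - RH q ends M θ' g| := by
        rw [← abs_neg]
        congr 1
        ring
      rw [h3]
      refine h1.trans ?_
      calc dist θ θ' * ∑ T ∈ (TT (opts (GdM ends M)) none g).filter
            (fun T => T ∉ (g.image (mainT g))), FT q ends M g T
          ≤ dist θ θ' * ((1 / 2) * (cH q ends g * sc q ends M g)) :=
            mul_le_mul_of_nonneg_left h2 dist_nonneg
        _ = ((1 / 2 : NNReal) : ℝ) * dist θ θ' * (cH q ends g * sc q ends M g) := by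
            push_cast
            ring
    · simp only [Fm, hg, if_false, sub_zero, abs_zero]
      positivity
  obtain ⟨θ, hθs, hfix, _⟩ := hcontr.exists_fixedPoint' hclosed.isComplete hmaps
    (x := fun _ => 0) (by intro g; simp) (edist_ne_top _ _)
  refine ⟨lamOf q ends M θ, ?_, ?_⟩
  · intro g hg
    unfold lamOf sc
    rw [abs_mul]
    have h1 : |bs M (vs ends g).card * ((q : ℝ) ^ ((vs ends g).card - 1))⁻¹| =
        bs M (vs ends g).card * ((q : ℝ) ^ ((vs ends g).card - 1))⁻¹ :=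
      abs_of_pos (sc_pos ends M g)
    rw [h1]
    have h2 : bs M (vs ends g).card ≤ bs M (2 * M) :=
      bs_mono hM ((card_vs_le hends g).trans
        (Nat.mul_le_mul_left 2 ((mem_GdM ends).1 hg).2.2))
    have h3 : 0 < (q : ℝ) ^ ((vs ends g).card - 1) := pow_pos hqpos _
    have h4 := hθs g
    have h5 := bs_ge M (vs ends g).card
    calc bs M (vs ends g).card * ((q : ℝ) ^ ((vs ends g).card - 1))⁻¹ * |θ g| *
          (q : ℝ) ^ ((vs ends g).card - 1)
        = bs M (vs ends g).card * |θ g| := by field_simp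
      _ ≤ bs M (vs ends g).card * 1 := mul_le_mul_of_nonneg_left h4 (by linarith)
      _ ≤ _ := by linarith
  · intro g hg
    rw [Phi_split ends θ hg]
    have h1 : θ g = Fm θ g := (congrFun hfix g).symm
    have h2 : Fm θ g = - RH q ends M θ g / (cH q ends g * sc q ends M g) := by
      simp only [Fm, hg, if_true]
    have h3 := hden g hg
    have h4 : cH q ends g * (sc q ends M g * θ g) = - RH q ends M θ g := by
      rw [h1, h2, ← mul_assoc, mul_comm, div_mul_cancel₀ _ h3.ne']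
    rw [h4]
    ring

end Fix

end Pool.Agent.LDC
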