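import Mathlib
import Pool.Agent.LDC.Fix

namespace Pool.Agent.LDC

open Finset

set_option linter.unusedSectionVars false

section PhiBound

variable {V E : Type*} [Fintype V] [DecidableEq V] [Fintype E] [DecidableEq E]
variable {q : ℕ} [NeZero q] (ends : E → Finset V)

theorem Phi_bound [Nonempty V] (hinj : Function.Injective ends) (hends : ∀ e, (ends e).card = 2)
    {M K0 : ℕ} (hK0 : 1 ≤ K0) (hKM : K0 ^ 2 ≤ M) {lam : Finset E → ℝ} {b : ℝ} (hb : 1 ≤ b)
    (hlam : ∀ g ∈ GdM ends M, |lam g| * (q : ℝ) ^ ((vs ends g).card - 1) ≤ b)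
    (hzero : ∀ g ∈ GdM ends M, Phi q ends (GdM ends M) lam g = 0) (H : Finset E) :
    ∃ e : ℕ, (K0 - 1) * (vs ends H).card ≤ K0 * e ∧
      |Phi q ends (GdM ends M) lam H| * (q : ℝ) ^ e ≤
        (2 * b * (2 + (((vs ends H).card + 2 * M * H.card : ℝ) ^ 2 + 1) ^ M)) ^ H.card *
          (1 + ((q : ℝ) ^ 2)⁻¹) ^ (Fintype.card V) := by
  classical
  have hne : ∀ e, (ends e).Nonempty := fun e => card_pos.1 (by rw [hends e]; norm_num)
  have hqpos : (0 : ℝ) < q := by exact_mod_cast Nat.pos_of_ne_zero (NeZero.ne q)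
  obtain ⟨C, hC, hdisj, hCH⟩ := exists_components ends H
  have hedge := disjoint_edges ends hne hdisj
  set Sm := C.filter (fun c => c.card ≤ M) with hSm
  have hSmC : Sm ⊆ C := filter_subset _ _
  have hSm0 : ∀ c ∈ Sm, Phi q ends (GdM ends M) lam c = 0 := by
    intro c hc
    rw [hSm, mem_filter] at hc
    exact hzero c ((mem_GdM ends).2 ⟨(hC c hc.1).1, (hC c hc.1).2, hc.2⟩)
  have hGdM : ∀ g ∈ GdM ends M, g.card ≤ M := fun g hg => ((mem_GdM ends).1 hg).2.2
  have hGdC : ∀ g ∈ GdM ends M, Conn ends g := fun g hg => ((mem_GdM ends).1 hg).2.1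
  set e := ∑ c ∈ C, ((vs ends c).card - 1) + Sm.card with he
  have hvsH : (vs ends H).card = ∑ c ∈ C, (vs ends c).card := by
    have h1 : vs ends H = C.biUnion (fun c => vs ends c) := by
      rw [← hCH]
      unfold vs
      rw [Finset.biUnion_biUnion]
      rfl
    rw [h1, card_biUnion]
    intro c hc c' hc' hne'
    exact hdisj c hc c' hc' hne'
  have hCcard : C.card ≤ H.card := by
    have h1 : H.card = ∑ c ∈ C, c.card := by
      rw [← hCH, card_biUnion]
      · rfl
      · intro c hc c' hc' hne'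
        exact hedge c hc c' hc' hne'
    rw [h1, card_eq_sum_ones]
    apply Finset.sum_le_sum
    intro c hc
    exact card_pos.2 (hC c hc).1
  refine ⟨e, ?_, ?_⟩
  · rw [hvsH, he, hSm, Finset.card_filter, ← Finset.sum_add_distrib, Finset.mul_sum,
      Finset.mul_sum]
    apply Finset.sum_le_sum
    intro c hc
    have hvpos : 1 ≤ (vs ends c).card := by
      obtain ⟨f, hf⟩ := (hC c hc).1
      obtain ⟨v, hv⟩ := hne f
      exact card_pos.2 ⟨v, mem_vs.2 ⟨f, hf, hv⟩⟩
    split_ifs with hcM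
    · have : (vs ends c).card - 1 + 1 = (vs ends c).card := by omega
      rw [this]
      exact Nat.mul_le_mul_right _ (Nat.sub_le _ _)
    · have h1 : c.card ≤ (vs ends c).card ^ 2 := by
        refine le_trans (card_le_card ?_) (card_edges_inside hinj hends (vs ends c))
        intro f hf
        exact mem_filter.2 ⟨mem_univ _, ends_subset_vs hf⟩
      have h2 : K0 ^ 2 < (vs ends c).card ^ 2 := by omega
      have h3 : K0 < (vs ends c).card := lt_of_pow_lt_pow_left₀ 2 (Nat.zero_le _) h2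
      obtain ⟨k, hk⟩ : ∃ k, K0 = k + 1 := ⟨K0 - 1, by omega⟩
      obtain ⟨v, hv⟩ : ∃ v, (vs ends c).card = v + 1 := ⟨(vs ends c).card - 1, by omega⟩
      have h4 : k ≤ v := by omega
      rw [hk, hv]
      simp only [Nat.add_sub_cancel, add_zero]
      nlinarith
  · have hPhi : Phi q ends (GdM ends M) lam H =
        ∑ T ∈ TT (opts (GdM ends M)) none H, cen q ends lam C Sm T := by
      rw [← hCH]
      exact Phi_centred ends (GdM ends M) lam hdisj hedge hSm0
    set B0 : ℝ := 2 ^ H.card * b ^ H.card * ((q : ℝ) ^ e)⁻¹ with hB0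
    have hB0n : 0 ≤ B0 := by positivity
    have hF : ∀ T ∈ TT (opts (GdM ends M)) none H,
        |cen q ends lam C Sm T| * (q : ℝ) ^ (2 * (ext ends H T).card) ≤ B0 := by
      intro T hT
      by_cases h0 : cen q ends lam C Sm T = 0
      · rw [h0, abs_zero, zero_mul]
        exact hB0n
      have hT' : T ∈ TT (opts (GdM ends M)) none (C.biUnion id) := by rw [hCH]; exact hT
      have h1 := coef_bound (q := q) ends hne hC hdisj hSmC hGdC hlam hT' h0
      rw [hCH] at h1
      have h2 := abs_cen_le (q := q) ends lam C Sm hedge T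
      have h3 : b ^ (SG H T).card ≤ b ^ H.card :=
        pow_le_pow_right₀ hb (card_le_card (filter_subset _ _))
      have h4 : (2 : ℝ) ^ C.card ≤ 2 ^ H.card := pow_le_pow_right₀ (by norm_num) hCcard
      have h5 : |coef q ends lam C T| * (q : ℝ) ^ (2 * (ext ends H T).card) ≤
          b ^ H.card * ((q : ℝ) ^ e)⁻¹ := by
        rw [← div_eq_mul_inv, le_div_iff₀ (pow_pos hqpos _)]
        refine le_trans (le_of_eq ?_) (h1.trans h3)
        rw [mul_assoc, ← pow_add]
        congr 2
        rw [he]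
        unfold ext
        ring
      calc |cen q ends lam C Sm T| * (q : ℝ) ^ (2 * (ext ends H T).card)
          ≤ (2 ^ C.card * |coef q ends lam C T|) * (q : ℝ) ^ (2 * (ext ends H T).card) :=
            mul_le_mul_of_nonneg_right h2 (by positivity)
        _ = 2 ^ C.card * (|coef q ends lam C T| * (q : ℝ) ^ (2 * (ext ends H T).card)) := by ring
        _ ≤ 2 ^ H.card * (b ^ H.card * ((q : ℝ) ^ e)⁻¹) := by
            apply mul_le_mul h4 h5 (by positivity) (by positivity)
        _ = B0 := by rw [hB0]; ring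
    have h6 := sum_fiber_bound hinj hends hGdM H hqpos hB0n (fun T => |cen q ends lam C Sm T|)
      hF (fun _ => True)
    simp only [filter_true] at h6
    rw [sum_powerset_inv] at h6
    have h7 : |Phi q ends (GdM ends M) lam H| ≤
        ∑ T ∈ TT (opts (GdM ends M)) none H, |cen q ends lam C Sm T| := by
      rw [hPhi]
      exact Finset.abs_sum_le_sum_abs _ _
    set G : ℝ := 2 + (((vs ends H).card + 2 * M * H.card : ℝ) ^ 2 + 1) ^ M with hG
    have hQe : 0 < (q : ℝ) ^ e := pow_pos hqpos _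
    calc |Phi q ends (GdM ends M) lam H| * (q : ℝ) ^ e
        ≤ (B0 * G ^ H.card * (1 + ((q : ℝ) ^ 2)⁻¹) ^ (Fintype.card V)) * (q : ℝ) ^ e :=
          mul_le_mul_of_nonneg_right (h7.trans h6) hQe.le
      _ = (2 ^ H.card * b ^ H.card * G ^ H.card) * (1 + ((q : ℝ) ^ 2)⁻¹) ^ (Fintype.card V) *
          (((q : ℝ) ^ e)⁻¹ * (q : ℝ) ^ e) := by rw [hB0]; ring
      _ = (2 * b * G) ^ H.card * (1 + ((q : ℝ) ^ 2)⁻¹) ^ (Fintype.card V) := by
          rw [inv_mul_cancel₀ hQe.ne', mul_one, mul_pow, mul_pow]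

end PhiBound

end Pool.Agent.LDC
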