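import Mathlib
import Pool.Agent.LDC.PhiBound

namespace Pool.Agent.LDC

open Finset

set_option linter.unusedSectionVars false

section Trunc

variable {V E : Type*} [Fintype V] [DecidableEq V] [Fintype E] [DecidableEq E]
variable {q : ℕ} [NeZero q] (ends : E → Finset V)

/-- product of signs over a set -/
noncomputable def PX (s : Finset E) (ω : E → Fin 4) : ℝ := ∏ f' ∈ s, xi (ω f')

theorem abs_PX_le (s : Finset E) (ω : E → Fin 4) : |PX s ω| ≤ 1 := by
  unfold PX
  rw [Finset.abs_prod]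
  exact Finset.prod_le_one (fun _ _ => abs_nonneg _) (fun _ _ => abs_xi_le _)

theorem PX_flip (s : Finset E) (e : E) (ω : E → Fin 4) :
    PX s (flipE e ω) = (if e ∈ s then -1 else 1) * PX s ω := by
  unfold PX
  rw [Finset.prod_congr rfl (fun f' _ => xi_flipE e f' ω), Finset.prod_mul_distrib]
  congr 1
  rw [Finset.prod_ite_eq']

theorem parity_PX {ι : Type*} [Fintype ι] {s : ι → Finset E}
    (h : av (fun ω => ∏ i, PX (s i) ω) ≠ 0) (e : E) :
    Even (univ.filter (fun i => e ∈ s i)).card := by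
  classical
  by_contra hodd
  rw [Nat.not_even_iff_odd] at hodd
  apply h
  apply av_eq_zero_of_flip (flipE e)
  intro ω
  rw [Finset.prod_congr rfl (fun i _ => PX_flip (s i) e ω), Finset.prod_mul_distrib,
    Finset.prod_ite]
  simp only [prod_const, one_pow, mul_one]
  rw [hodd.neg_one_pow]
  ring

/-- cardinality estimate behind the moment bound -/
theorem moment_term (hends : ∀ e, (ends e).card = 2) {N : ℕ} {f : E}
    {x : Fin N → Finset E} (hx : ∀ i, f ∈ x i)
    (h : av (fun ω => ∏ i, PX ((x i).erase f) ω) ≠ 0) :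
    N + 2 * ((univ.biUnion (fun i => vs ends (x i))) \ ends f).card ≤
      ∑ i, ((vs ends (x i)).card - 1) := by
  classical
  set W := (univ.biUnion (fun i => vs ends (x i))) \ ends f with hW
  have h1 : ∀ i, (vs ends (x i)).card - 1 = 1 + (vs ends (x i) \ ends f).card := by
    intro i
    have h2 := card_sdiff_add_card_inter (vs ends (x i)) (ends f)
    have h3 : vs ends (x i) ∩ ends f = ends f := by
      rw [inter_eq_right]
      exact ends_subset_vs (hx i)
    rw [h3, hends f] at h2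
    omega
  have h4 : ∑ i, ((vs ends (x i)).card - 1) = N + ∑ i, (vs ends (x i) \ ends f).card := by
    rw [Finset.sum_congr rfl (fun i _ => h1 i), Finset.sum_add_distrib]
    simp
  rw [h4]
  apply Nat.add_le_add_left
  have h5 : ∑ i, (vs ends (x i) \ ends f).card =
      ∑ z ∈ W, (univ.filter (fun i => z ∈ vs ends (x i))).card := by
    simp_rw [Finset.card_filter]
    rw [Finset.sum_comm]
    apply Finset.sum_congr rfl
    intro i _
    rw [← Finset.card_filter]
    congr 1
    ext z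
    rw [mem_sdiff, mem_filter, hW, mem_sdiff, mem_biUnion]
    constructor
    · rintro ⟨h6, h7⟩
      exact ⟨⟨⟨i, mem_univ _, h6⟩, h7⟩, h6⟩
    · rintro ⟨⟨_, h7⟩, h6⟩
      exact ⟨h6, h7⟩
  rw [h5, mul_comm, ← smul_eq_mul, ← Finset.sum_const]
  apply Finset.sum_le_sum
  intro z hz
  rw [hW, mem_sdiff, mem_biUnion] at hz
  obtain ⟨⟨i, _, hzi⟩, hzf⟩ := hz
  obtain ⟨e, he, hze⟩ := mem_vs.1 hzi
  have hef : e ≠ f := by rintro rfl; exact hzf hze
  have hev := parity_PX h e
  have hi : i ∈ univ.filter (fun i => e ∈ (x i).erase f) :=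
    mem_filter.2 ⟨mem_univ _, mem_erase.2 ⟨hef, he⟩⟩
  have hpos : 0 < (univ.filter (fun i => e ∈ (x i).erase f)).card := card_pos.2 ⟨i, hi⟩
  have h2 : 2 ≤ (univ.filter (fun i => e ∈ (x i).erase f)).card := by
    obtain ⟨k, hk⟩ := hev
    omega
  refine h2.trans (card_le_card ?_)
  intro j hj
  rw [mem_filter] at hj ⊢
  exact ⟨hj.1, mem_vs.2 ⟨e, mem_of_mem_erase hj.2, hze⟩⟩

theorem moment_bound (hinj : Function.Injective ends) (hends : ∀ e, (ends e).card = 2)
    {M : ℕ} {lam : Finset E → ℝ} {b : ℝ} (hb : 1 ≤ b)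
    (hlam : ∀ g ∈ GdM ends M, |lam g| * (q : ℝ) ^ ((vs ends g).card - 1) ≤ b) (N : ℕ) (f : E) :
    av (fun ω => (mf (GdM ends M) lam f ω) ^ N) ≤
      (b * (q : ℝ)⁻¹ * ((2 + 2 * M * N : ℝ) ^ 2 + 1) ^ M) ^ N *
        (1 + ((q : ℝ) ^ 2)⁻¹) ^ (Fintype.card V) := by
  classical
  have hqpos : (0 : ℝ) < q := by exact_mod_cast Nat.pos_of_ne_zero (NeZero.ne q)
  have hGdM : ∀ g ∈ GdM ends M, g.card ≤ M := fun g hg => ((mem_GdM ends).1 hg).2.2
  set Gf := (GdM ends M).filter (fun g => f ∈ g) with hGf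
  set X : Finset (Fin N → Finset E) := Fintype.piFinset (fun _ => Gf) with hX
  have hXm : ∀ x ∈ X, ∀ i, x i ∈ GdM ends M ∧ f ∈ x i := by
    intro x hx i
    have := Fintype.mem_piFinset.1 hx i
    exact mem_filter.1 this
  have h1 : ∀ ω, (mf (GdM ends M) lam f ω) ^ N =
      ∑ x ∈ X, (∏ i, lam (x i)) * ∏ i, PX ((x i).erase f) ω := by
    intro ω
    have h2 : (mf (GdM ends M) lam f ω) ^ N = ∏ _i : Fin N, mf (GdM ends M) lam f ω := by
      rw [Finset.prod_const, card_univ, Fintype.card_fin]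
    rw [h2]
    unfold mf
    rw [Finset.prod_univ_sum]
    apply Finset.sum_congr rfl
    intro x _
    rw [Finset.prod_mul_distrib]
    rfl
  have h2 : av (fun ω => (mf (GdM ends M) lam f ω) ^ N) =
      ∑ x ∈ X, (∏ i, lam (x i)) * av (fun ω => ∏ i, PX ((x i).erase f) ω) := by
    rw [show (fun ω => (mf (GdM ends M) lam f ω) ^ N) = fun ω =>
      ∑ x ∈ X, (∏ i, lam (x i)) * ∏ i, PX ((x i).erase f) ω from funext h1, av_sum]
    apply Finset.sum_congr rfl
    intro x _
    rw [av_mul_left]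
  set Wf : (Fin N → Finset E) → Finset V := fun x =>
    (univ.biUnion (fun i => vs ends (x i))) \ ends f with hWf
  set B0 : ℝ := b ^ N * ((q : ℝ) ^ N)⁻¹ with hB0
  have hB0n : 0 ≤ B0 := by positivity
  -- termwise bound
  have h3 : ∀ x ∈ X, (∏ i, lam (x i)) * av (fun ω => ∏ i, PX ((x i).erase f) ω) ≤
      B0 * ((((q : ℝ) ^ 2)⁻¹) ^ (Wf x).card) := by
    intro x hx
    by_cases h0 : av (fun ω => ∏ i, PX ((x i).erase f) ω) = 0
    · rw [h0, mul_zero]
      positivity
    have hm := moment_term ends hends (fun i => (hXm x hx i).2) h0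
    have h4 : |av (fun ω => ∏ i, PX ((x i).erase f) ω)| ≤ 1 := by
      apply abs_av_le_of_bound
      intro ω
      rw [Finset.abs_prod]
      exact Finset.prod_le_one (fun _ _ => abs_nonneg _) (fun _ _ => abs_PX_le _ _)
    have h5 : (∏ i, |lam (x i)|) * (q : ℝ) ^ (∑ i, ((vs ends (x i)).card - 1)) ≤ b ^ N := by
      rw [← Finset.prod_pow_eq_pow_sum, ← Finset.prod_mul_distrib]
      calc _ ≤ ∏ _i : Fin N, b := by
            apply Finset.prod_le_prod
            · intro i _
              positivity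
            · intro i _
              exact hlam _ (hXm x hx i).1
        _ = b ^ N := by rw [Finset.prod_const, card_univ, Fintype.card_fin]
    have hq1 : (1 : ℝ) ≤ q := by exact_mod_cast Nat.pos_of_ne_zero (NeZero.ne q)
    have h6 : (∏ i, |lam (x i)|) * (q : ℝ) ^ (N + 2 * (Wf x).card) ≤ b ^ N := by
      refine le_trans ?_ h5
      apply mul_le_mul_of_nonneg_left _ (Finset.prod_nonneg (fun _ _ => abs_nonneg _))
      exact pow_le_pow_right₀ hq1 hm
    have h7 : (((q : ℝ) ^ 2)⁻¹) ^ (Wf x).card = ((q : ℝ) ^ (2 * (Wf x).card))⁻¹ := by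
      rw [inv_pow, ← pow_mul]
    calc (∏ i, lam (x i)) * av (fun ω => ∏ i, PX ((x i).erase f) ω)
        ≤ |(∏ i, lam (x i)) * av (fun ω => ∏ i, PX ((x i).erase f) ω)| := le_abs_self _
      _ = (∏ i, |lam (x i)|) * |av (fun ω => ∏ i, PX ((x i).erase f) ω)| := by
          rw [abs_mul, Finset.abs_prod]
      _ ≤ (∏ i, |lam (x i)|) * 1 :=
          mul_le_mul_of_nonneg_left h4 (Finset.prod_nonneg (fun _ _ => abs_nonneg _))
      _ ≤ B0 * ((((q : ℝ) ^ 2)⁻¹) ^ (Wf x).card) := by
          rw [mul_one, h7, hB0, mul_assoc, ← mul_inv, ← pow_add, ← div_eq_mul_inv,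
            le_div_iff₀ (pow_pos hqpos _)]
          exact h6
  -- fibres
  set G : ℝ := ((2 + 2 * M * N : ℝ) ^ 2 + 1) ^ M with hG
  have hGn : 0 ≤ G := by positivity
  have h8 : ∑ x ∈ X, B0 * ((((q : ℝ) ^ 2)⁻¹) ^ (Wf x).card) ≤
      ∑ W ∈ (univ : Finset V).powerset, B0 * G ^ N * ((((q : ℝ) ^ 2)⁻¹) ^ W.card) := by
    rw [← Finset.sum_fiberwise_of_maps_to (s := X) (t := (univ : Finset V).powerset) (g := Wf)
      (fun x _ => mem_powerset.2 (subset_univ _))]
    apply Finset.sum_le_sum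
    intro W _
    by_cases hne : (X.filter (fun x => Wf x = W)).Nonempty
    · obtain ⟨x0, hx0⟩ := hne
      rw [mem_filter] at hx0
      have hWle : W.card ≤ 2 * M * N := by
        rw [← hx0.2, hWf]
        refine (card_le_card sdiff_subset).trans (card_biUnion_le.trans ?_)
        have : ∀ i ∈ (univ : Finset (Fin N)), (vs ends (x0 i)).card ≤ 2 * M := fun i _ =>
          (card_vs_le hends _).trans (Nat.mul_le_mul_left 2 (hGdM _ (hXm x0 hx0.1 i).1))
        refine (Finset.sum_le_sum this).trans ?_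
        rw [Finset.sum_const, card_univ, Fintype.card_fin, smul_eq_mul, mul_comm]
      have hcard : ((X.filter (fun x => Wf x = W)).card : ℝ) ≤ G ^ N := by
        have hsub : X.filter (fun x => Wf x = W) ⊆ Fintype.piFinset
            (fun _ : Fin N => (GdM ends M).filter (fun g => vs ends g ⊆ ends f ∪ W)) := by
          intro x hx
          rw [mem_filter] at hx
          rw [Fintype.mem_piFinset]
          intro i
          rw [mem_filter]
          refine ⟨(hXm x hx.1 i).1, ?_⟩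
          intro v hv
          rw [mem_union]
          by_cases hvf : v ∈ ends f
          · exact Or.inl hvf
          · right
            rw [← hx.2, hWf]
            simp only [mem_sdiff, mem_biUnion]
            exact ⟨⟨i, mem_univ _, hv⟩, hvf⟩
        have h9 := card_le_card hsub
        rw [Fintype.card_piFinset, Finset.prod_const, card_univ, Fintype.card_fin] at h9
        have h10 := card_gadgets_inside hinj hends hGdM (ends f ∪ W)
        have h11 : (ends f ∪ W).card ≤ 2 + 2 * M * N := by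
          refine (card_union_le _ _).trans ?_
          rw [hends f]
          omega
        have h12 : (X.filter (fun x => Wf x = W)).card ≤
            (((2 + 2 * M * N) ^ 2 + 1) ^ M) ^ N := by
          refine h9.trans ?_
          apply Nat.pow_le_pow_left
          refine h10.trans ?_
          apply Nat.pow_le_pow_left
          apply Nat.add_le_add_right
          exact Nat.pow_le_pow_left h11 2
        have h13 : ((X.filter (fun x => Wf x = W)).card : ℝ) ≤
            (((((2 + 2 * M * N) ^ 2 + 1) ^ M) ^ N : ℕ) : ℝ) := by exact_mod_cast h12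
        refine h13.trans (le_of_eq ?_)
        rw [hG]
        push_cast
        ring
      have h14 : ∀ x ∈ X.filter (fun x => Wf x = W), B0 * ((((q : ℝ) ^ 2)⁻¹) ^ (Wf x).card) =
          B0 * ((((q : ℝ) ^ 2)⁻¹) ^ W.card) := by
        intro x hx
        rw [(mem_filter.1 hx).2]
      rw [Finset.sum_congr rfl h14, Finset.sum_const, nsmul_eq_mul]
      calc _ ≤ G ^ N * (B0 * ((((q : ℝ) ^ 2)⁻¹) ^ W.card)) :=
            mul_le_mul_of_nonneg_right hcard (by positivity)
        _ = _ := by ring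
    · rw [not_nonempty_iff_eq_empty] at hne
      rw [hne, Finset.sum_empty]
      positivity
  rw [h2]
  refine (Finset.sum_le_sum h3).trans (h8.trans (le_of_eq ?_))
  rw [← Finset.mul_sum, sum_powerset_inv, hB0, hG]
  rw [mul_pow, mul_pow, inv_pow]

open Classical in
/-- truncated mean -/
noncomputable def mub (Gd : Finset (Finset E)) (lam : Finset E → ℝ) (f : E)
    (σ : V → ZMod q) (ω : E → Fin 4) : ℝ :=
  if Within ends σ f then -1 else xi (ω f) + (1 - xi (ω f) ^ 2) *
    (if ∀ f', |mf Gd lam f' ω| ≤ 1 then mf Gd lam f ω else 0)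

theorem abs_mub_le (Gd : Finset (Finset E)) (lam : Finset E → ℝ) (f : E)
    (σ : V → ZMod q) (ω : E → Fin 4) : |mub ends Gd lam f σ ω| ≤ 1 := by
  classical
  unfold mub
  split_ifs with h1 h2
  · simp
  · have h3 := h2 f
    have : ∀ a : Fin 4, ∀ m : ℝ, |m| ≤ 1 → |xi a + (1 - xi a ^ 2) * m| ≤ 1 := by
      intro a m hm
      fin_cases a <;> simp [xi] <;> exact hm
    exact this _ _ h3
  · rw [mul_zero, add_zero]
    exact abs_xi_le _

/-- the moments of the constructed distribution -/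
noncomputable def Pb (q : ℕ) [NeZero q] (ends : E → Finset V) (Gd : Finset (Finset E))
    (lam : Finset E → ℝ) (H : Finset E) : ℝ :=
  av (fun ω : E → Fin 4 => av (fun σ : V → ZMod q => ∏ f ∈ H, mub ends Gd lam f σ ω))

theorem card_GdM_le (M : ℕ) : (GdM ends M).card ≤ (Fintype.card E + 1) ^ M := by
  have h1 := card_small_subsets (univ : Finset E) M
  rw [card_univ] at h1
  refine le_trans (card_le_card ?_) h1
  intro g hg
  rw [mem_filter, mem_powerset]
  exact ⟨subset_univ _, ((mem_GdM ends).1 hg).2.2⟩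

theorem abs_mf_le {M : ℕ} {lam : Finset E → ℝ} {b : ℝ} (hb : 1 ≤ b)
    (hlam : ∀ g ∈ GdM ends M, |lam g| * (q : ℝ) ^ ((vs ends g).card - 1) ≤ b) (f : E)
    (ω : E → Fin 4) : |mf (GdM ends M) lam f ω| ≤ ((Fintype.card E + 1 : ℝ) ^ M) * b := by
  classical
  have hq1 : (1 : ℝ) ≤ q := by exact_mod_cast Nat.pos_of_ne_zero (NeZero.ne q)
  unfold mf
  refine (Finset.abs_sum_le_sum_abs _ _).trans ?_
  have h1 : ∀ g ∈ (GdM ends M).filter (fun g => f ∈ g),
      |lam g * ∏ f' ∈ g.erase f, xi (ω f')| ≤ b := by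
    intro g hg
    rw [mem_filter] at hg
    rw [abs_mul]
    have h2 := hlam g hg.1
    have h3 : |lam g| ≤ b := by
      refine le_trans ?_ h2
      exact le_mul_of_one_le_right (abs_nonneg _) (one_le_pow₀ hq1)
    have h4 : |∏ f' ∈ g.erase f, xi (ω f')| ≤ 1 := abs_PX_le _ _
    calc _ ≤ b * 1 := mul_le_mul h3 h4 (abs_nonneg _) (by linarith)
      _ = b := mul_one b
  refine (Finset.sum_le_sum h1).trans ?_
  rw [Finset.sum_const, nsmul_eq_mul]
  apply mul_le_mul_of_nonneg_right _ (by linarith)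
  have h5 : ((GdM ends M).filter (fun g => f ∈ g)).card ≤ (Fintype.card E + 1) ^ M :=
    (card_le_card (filter_subset _ _)).trans (card_GdM_le ends M)
  exact_mod_cast h5

theorem Pb_sub_Phi (hinj : Function.Injective ends) (hends : ∀ e, (ends e).card = 2)
    {M : ℕ} {lam : Finset E → ℝ} {b : ℝ} (hb : 1 ≤ b)
    (hlam : ∀ g ∈ GdM ends M, |lam g| * (q : ℝ) ^ ((vs ends g).card - 1) ≤ b) (r : ℕ)
    (H : Finset E) :
    |Pb q ends (GdM ends M) lam H - Phi q ends (GdM ends M) lam H| ≤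
      2 * (1 + ((Fintype.card E + 1 : ℝ) ^ M) * b) ^ H.card * ((Fintype.card E : ℝ) *
      ((b * (q : ℝ)⁻¹ * ((2 + 2 * M * (2 * r : ℕ) : ℝ) ^ 2 + 1) ^ M) ^ (2 * r) *
        (1 + ((q : ℝ) ^ 2)⁻¹) ^ (Fintype.card V))) := by
  classical
  set Gd := GdM ends M with hGd
  set Kb : ℝ := 1 + ((Fintype.card E + 1 : ℝ) ^ M) * b with hKb
  have hKb1 : 1 ≤ Kb := by
    have : (0 : ℝ) ≤ ((Fintype.card E + 1 : ℝ) ^ M) * b := by positivity
    linarith
  have hmu : ∀ f σ ω, |mu (q := q) ends Gd lam f σ ω| ≤ Kb := by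
    intro f σ ω
    unfold mu
    split_ifs
    · simpa using hKb1
    · have h1 := abs_mf_le (q := q) ends hb hlam f ω
      obtain ⟨h2, h3⟩ := xi_sq_mem (ω f)
      calc |xi (ω f) + (1 - xi (ω f) ^ 2) * mf Gd lam f ω|
          ≤ |xi (ω f)| + |(1 - xi (ω f) ^ 2) * mf Gd lam f ω| := abs_add_le _ _
        _ = |xi (ω f)| + (1 - xi (ω f) ^ 2) * |mf Gd lam f ω| := by
            rw [abs_mul, abs_of_nonneg h2]
        _ ≤ 1 + 1 * (((Fintype.card E + 1 : ℝ) ^ M) * b) := by
            apply add_le_add (abs_xi_le _)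
            exact mul_le_mul h3 h1 (abs_nonneg _) zero_le_one
        _ = Kb := by rw [one_mul]
  -- the bad event
  have hbad : ∀ σ ω, |∏ f ∈ H, mub (q := q) ends Gd lam f σ ω - ∏ f ∈ H, mu ends Gd lam f σ ω| ≤
      2 * Kb ^ H.card * ∑ f, (mf Gd lam f ω) ^ (2 * r) := by
    intro σ ω
    have hnn : ∀ f, 0 ≤ (mf Gd lam f ω) ^ (2 * r) := fun f => by
      rw [pow_mul]; positivity
    by_cases hgood : ∀ f', |mf Gd lam f' ω| ≤ 1
    · have : ∀ f ∈ H, mub ends Gd lam f σ ω = mu ends Gd lam f σ ω := by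
        intro f _
        unfold mub mu
        rw [if_pos hgood]
      rw [Finset.prod_congr rfl this, sub_self, abs_zero]
      have := Finset.sum_nonneg (fun f (_ : f ∈ (univ : Finset E)) => hnn f)
      positivity
    · push Not at hgood
      obtain ⟨f', hf'⟩ := hgood
      have h1 : 1 ≤ ∑ f, (mf Gd lam f ω) ^ (2 * r) := by
        refine le_trans ?_ (Finset.single_le_sum (f := fun f => (mf Gd lam f ω) ^ (2 * r))
          (fun f _ => hnn f) (mem_univ f'))
        show 1 ≤ (mf Gd lam f' ω) ^ (2 * r)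
        rw [pow_mul, ← sq_abs]
        apply one_le_pow₀
        exact one_le_pow₀ hf'.le
      have h2 : |∏ f ∈ H, mub (q := q) ends Gd lam f σ ω| ≤ 1 := by
        rw [Finset.abs_prod]
        exact Finset.prod_le_one (fun _ _ => abs_nonneg _) (fun f _ => abs_mub_le ends Gd lam f σ ω)
      have h3 : |∏ f ∈ H, mu (q := q) ends Gd lam f σ ω| ≤ Kb ^ H.card := by
        rw [Finset.abs_prod, ← Finset.prod_const]
        exact Finset.prod_le_prod (fun _ _ => abs_nonneg _) (fun f _ => hmu f σ ω)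
      have h4 : (1 : ℝ) ≤ Kb ^ H.card := one_le_pow₀ hKb1
      calc _ ≤ |∏ f ∈ H, mub (q := q) ends Gd lam f σ ω| + |∏ f ∈ H, mu (q := q) ends Gd lam f σ ω| :=
            abs_sub _ _
        _ ≤ 2 * Kb ^ H.card * 1 := by linarith
        _ ≤ _ := mul_le_mul_of_nonneg_left h1 (by positivity)
  have h5 : Pb q ends Gd lam H - Phi q ends Gd lam H = av (fun ω : E → Fin 4 =>
      av (fun σ : V → ZMod q => (∏ f ∈ H, mub ends Gd lam f σ ω - ∏ f ∈ H, mu ends Gd lam f σ ω)))
      := by
    unfold Pb Phi psi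
    rw [← av_sub]
    congr 1
    funext ω
    rw [← av_sub]
  rw [h5]
  have h6 : ∀ ω : E → Fin 4, |av (fun σ : V → ZMod q =>
      (∏ f ∈ H, mub ends Gd lam f σ ω - ∏ f ∈ H, mu ends Gd lam f σ ω))| ≤
      2 * Kb ^ H.card * ∑ f, (mf Gd lam f ω) ^ (2 * r) := fun ω =>
    abs_av_le_of_bound (fun σ => hbad σ ω)
  refine (abs_av_le _).trans ((av_mono h6).trans ?_)
  rw [av_mul_left, av_sum]
  apply mul_le_mul_of_nonneg_left _ (by positivity)
  have h7 : ∀ f ∈ (univ : Finset E), av (fun ω => (mf Gd lam f ω) ^ (2 * r)) ≤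
      ((b * (q : ℝ)⁻¹ * ((2 + 2 * M * (2 * r : ℕ) : ℝ) ^ 2 + 1) ^ M) ^ (2 * r) *
        (1 + ((q : ℝ) ^ 2)⁻¹) ^ (Fintype.card V)) := fun f _ =>
    moment_bound ends hinj hends hb hlam (2 * r) f
  refine (Finset.sum_le_sum h7).trans ?_
  rw [Finset.sum_const, card_univ, nsmul_eq_mul]

end Trunc

end Pool.Agent.LDC
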