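import Mathlib
import Pool.Agent.LDC.Trunc

namespace Pool.Agent.LDC

open Finset

set_option linter.unusedSectionVars false

/-- sign of a bit -/
noncomputable def sg (b : Bool) : ℝ := if b = true then 1 else -1

theorem sg_sq (b : Bool) : sg b * sg b = 1 := by
  cases b <;> simp [sg]

theorem sg_pow (b : Bool) (k : ℕ) : sg b ^ k = if Odd k then sg b else 1 := by
  rcases Nat.even_or_odd k with h | h
  · rw [if_neg (Nat.not_odd_iff_even.2 h)]
    obtain ⟨m, rfl⟩ := h
    rw [← two_mul, pow_mul, sq, sg_sq, one_pow]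
  · rw [if_pos h]
    obtain ⟨m, rfl⟩ := h
    rw [pow_succ, pow_mul, sq, sg_sq, one_pow, one_mul]

theorem av_sg : av sg = 0 := by
  unfold av
  simp [sg]

section Red

variable {V E : Type*} [Fintype V] [DecidableEq V] [Fintype E] [DecidableEq E]

/-- characters -/
noncomputable def chi (H : Finset E) (x : E → Bool) : ℝ := ∏ e ∈ H, sg (x e)

theorem poly_expand (f : MvPolynomial E ℝ) :
    ∃ c : Finset E → ℝ, (∀ H, f.totalDegree < H.card → c H = 0) ∧
      ∀ x : E → Bool, MvPolynomial.eval (fun e => sg (x e)) f = ∑ H, c H * chi H x := by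
  classical
  let od : (E →₀ ℕ) → Finset E := fun d => univ.filter (fun e => Odd (d e))
  refine ⟨fun H => ∑ d ∈ f.support.filter (fun d => od d = H), MvPolynomial.coeff d f, ?_, ?_⟩
  · intro H hH
    apply Finset.sum_eq_zero
    intro d hd
    exfalso
    rw [mem_filter] at hd
    have h1 := MvPolynomial.le_totalDegree hd.1
    have h2 : H.card ≤ d.sum (fun _ k => k) := by
      rw [← hd.2, Finsupp.sum_fintype _ _ (fun _ => rfl), card_eq_sum_ones, Finset.sum_filter]
      apply Finset.sum_le_sum
      intro e _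
      split_ifs with h
      · exact h.pos
      · exact Nat.zero_le _
    omega
  · intro x
    rw [MvPolynomial.eval_eq']
    have h1 : ∀ d : E →₀ ℕ, ∏ i, sg (x i) ^ d i = chi (od d) x := by
      intro d
      unfold chi
      rw [Finset.prod_congr rfl (fun i _ => sg_pow (x i) (d i)), Finset.prod_filter]
    rw [Finset.sum_congr rfl (fun d _ => by rw [h1 d])]
    rw [← Finset.sum_fiberwise_of_maps_to (s := f.support) (t := univ) (g := od)
      (fun d _ => mem_univ _)]
    apply Finset.sum_congr rfl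
    intro H _
    rw [Finset.sum_mul]
    apply Finset.sum_congr rfl
    intro d hd
    rw [(mem_filter.1 hd).2]

theorem chi_orth (H H' : Finset E) :
    av (fun x : E → Bool => chi H x * chi H' x) = if H = H' then 1 else 0 := by
  classical
  have h1 : ∀ x : E → Bool, chi H x * chi H' x = ∏ e, (fun b => (if e ∈ H then sg b else 1) *
      (if e ∈ H' then sg b else 1)) (x e) := by
    intro x
    rw [Finset.prod_mul_distrib]
    unfold chi
    congr 1
    · rw [Finset.prod_ite_mem, Finset.univ_inter]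
    · rw [Finset.prod_ite_mem, Finset.univ_inter]
  rw [show (fun x : E → Bool => chi H x * chi H' x) = fun x => ∏ e, (fun b =>
      (if e ∈ H then sg b else 1) * (if e ∈ H' then sg b else 1)) (x e) from funext h1]
  rw [av_prod_coord (fun e b => (if e ∈ H then sg b else 1) * (if e ∈ H' then sg b else 1))]
  split_ifs with hH
  · subst hH
    apply Finset.prod_eq_one
    intro e _
    by_cases he : e ∈ H
    · simp only [he, if_true, sg_sq]
      exact av_const 1
    · simp only [he, if_false, one_mul]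
      exact av_const 1
  · have : ∃ e, ¬ (e ∈ H ↔ e ∈ H') := by
      by_contra hcon
      push Not at hcon
      exact hH (Finset.ext hcon)
    obtain ⟨e, he⟩ := this
    apply Finset.prod_eq_zero (mem_univ e)
    by_cases h1 : e ∈ H
    · have h2 : e ∉ H' := fun h => he (iff_of_true h1 h)
      simp only [h1, h2, if_true, if_false, mul_one]
      exact av_sg
    · have h2 : e ∈ H' := by
        by_contra h
        exact he (iff_of_false h1 h)
      simp only [h1, h2, if_true, if_false, one_mul]
      exact av_sg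

theorem chi_empty (x : E → Bool) : chi (∅ : Finset E) x = 1 := by
  simp [chi]

theorem av_expand (c : Finset E → ℝ) :
    av (fun x : E → Bool => ∑ H, c H * chi H x) = c ∅ := by
  classical
  rw [av_sum]
  have h1 : ∀ H : Finset E, av (fun x : E → Bool => c H * chi H x) =
      c H * (if H = ∅ then 1 else 0) := by
    intro H
    rw [av_mul_left, ← chi_orth H ∅]
    congr 2
    funext x
    rw [chi_empty, mul_one]
  rw [Finset.sum_congr rfl (fun H _ => h1 H)]
  simp

theorem av_expand_sq (c : Finset E → ℝ) :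
    av (fun x : E → Bool => (∑ H, c H * chi H x) ^ 2) = ∑ H, c H ^ 2 := by
  classical
  have h1 : ∀ x : E → Bool, (∑ H, c H * chi H x) ^ 2 =
      ∑ H, ∑ H', (c H * c H') * (chi H x * chi H' x) := by
    intro x
    rw [sq, Finset.sum_mul_sum]
    apply Finset.sum_congr rfl
    intro H _
    apply Finset.sum_congr rfl
    intro H' _
    ring
  rw [show (fun x : E → Bool => (∑ H, c H * chi H x) ^ 2) = fun x =>
    ∑ H, ∑ H', (c H * c H') * (chi H x * chi H' x) from funext h1, av_sum]
  apply Finset.sum_congr rfl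
  intro H _
  rw [av_sum]
  rw [Finset.sum_congr rfl (fun H' _ => by rw [av_mul_left, chi_orth H H'])]
  simp [sq]

theorem multilinear (c : Finset E → ℝ) (μ : E → ℝ) :
    ∑ x : E → Bool, (∏ e, ((1 + sg (x e) * μ e) / 2)) * (∑ H, c H * chi H x) =
      ∑ H, c H * ∏ e ∈ H, μ e := by
  classical
  have h1 : ∀ x : E → Bool, (∏ e, ((1 + sg (x e) * μ e) / 2)) * (∑ H, c H * chi H x) =
      ∑ H, c H * ∏ e, (((1 + sg (x e) * μ e) / 2) * (if e ∈ H then sg (x e) else 1)) := by
    intro x
    rw [Finset.mul_sum]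
    apply Finset.sum_congr rfl
    intro H _
    rw [Finset.prod_mul_distrib, Finset.prod_ite_mem, Finset.univ_inter]
    unfold chi
    ring
  rw [Finset.sum_congr rfl (fun x _ => h1 x), Finset.sum_comm]
  apply Finset.sum_congr rfl
  intro H _
  rw [← Finset.mul_sum]
  congr 1
  have h2 := Finset.prod_univ_sum (fun _ : E => (univ : Finset Bool))
    (fun e b => ((1 + sg b * μ e) / 2) * (if e ∈ H then sg b else 1))
  rw [Fintype.piFinset_univ] at h2
  rw [← h2]
  rw [← Finset.prod_subset (Finset.subset_univ H)]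
  · apply Finset.prod_congr rfl
    intro e he
    simp [he, sg]
    ring
  · intro e _ he
    simp [he, sg]
    ring

theorem multilinear_ge {c : Finset E → ℝ} {μ : E → ℝ} (hμ : ∀ e, |μ e| ≤ 1) {W : E → Prop}
    (hW : ∀ e, W e → μ e = -1)
    (hF : ∀ x : E → Bool, (∀ e, W e → x e = false) → 1 ≤ ∑ H, c H * chi H x) :
    1 ≤ ∑ H, c H * ∏ e ∈ H, μ e := by
  classical
  rw [← multilinear]
  have hw : ∑ x : E → Bool, (∏ e, ((1 + sg (x e) * μ e) / 2)) = 1 := by
    have h2 := Finset.prod_univ_sum (fun _ : E => (univ : Finset Bool))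
      (fun e b => ((1 + sg b * μ e) / 2))
    rw [Fintype.piFinset_univ] at h2
    rw [← h2]
    apply Finset.prod_eq_one
    intro e _
    simp [sg]
    ring
  refine hw.symm.le.trans ?_
  apply Finset.sum_le_sum
  intro x _
  have hnn : 0 ≤ ∏ e, ((1 + sg (x e) * μ e) / 2) := by
    apply Finset.prod_nonneg
    intro e _
    have h1 := abs_le.1 (hμ e)
    cases x e <;> simp [sg] <;> linarith [h1.1, h1.2]
  by_cases hx : ∀ e, W e → x e = false
  · have := hF x hx
    nlinarith
  · push Not at hx
    obtain ⟨e, he, hxe⟩ := hx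
    have h0 : ∏ e, ((1 + sg (x e) * μ e) / 2) = 0 := by
      apply Finset.prod_eq_zero (mem_univ e)
      rw [hW e he]
      have : x e = true := by
        cases h : x e
        · exact absurd h hxe
        · rfl
      rw [this]
      simp [sg]
    rw [h0, zero_mul]

variable {q : ℕ} [NeZero q] (ends : E → Finset V)

theorem duality {c : Finset E → ℝ} {D : ℕ} (hD : ∀ H, D < H.card → c H = 0) (h0 : c ∅ = 0)
    (hF : ∀ σ : V → ZMod q, ∀ x : E → Bool, (∀ e, Within ends σ e → x e = false) →
      1 ≤ ∑ H, c H * chi H x) (Gd : Finset (Finset E)) (lam : Finset E → ℝ) :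
    1 ≤ (∑ H, c H ^ 2) * ∑ H ∈ univ.filter (fun H : Finset E => 1 ≤ H.card ∧ H.card ≤ D),
      (Pb q ends Gd lam H) ^ 2 := by
  classical
  have h1 : 1 ≤ ∑ H, c H * Pb q ends Gd lam H := by
    have h2 : ∑ H, c H * Pb q ends Gd lam H = av (fun ω : E → Fin 4 =>
        av (fun σ : V → ZMod q => ∑ H, c H * ∏ f ∈ H, mub ends Gd lam f σ ω)) := by
      simp_rw [av_sum, av_mul_left]
      rfl
    rw [h2]
    have h3 : ∀ ω : E → Fin 4, 1 ≤ av (fun σ : V → ZMod q =>
        ∑ H, c H * ∏ f ∈ H, mub ends Gd lam f σ ω) := by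
      intro ω
      have h4 : ∀ σ : V → ZMod q, 1 ≤ ∑ H, c H * ∏ f ∈ H, mub ends Gd lam f σ ω := by
        intro σ
        apply multilinear_ge (fun e => abs_mub_le ends Gd lam e σ ω) (W := Within ends σ) _
          (hF σ)
        intro e he
        unfold mub
        rw [if_pos he]
      calc (1 : ℝ) = av (fun _ : V → ZMod q => (1 : ℝ)) := (av_const 1).symm
        _ ≤ _ := av_mono h4
    calc (1 : ℝ) = av (fun _ : E → Fin 4 => (1 : ℝ)) := (av_const 1).symm
      _ ≤ _ := av_mono h3
  set S := univ.filter (fun H : Finset E => 1 ≤ H.card ∧ H.card ≤ D) with hS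
  have h5 : ∑ H, c H * Pb q ends Gd lam H = ∑ H ∈ S, c H * Pb q ends Gd lam H := by
    symm
    apply Finset.sum_subset (filter_subset _ _)
    intro H _ hH
    rw [mem_filter, not_and, not_and_or] at hH
    rcases hH (mem_univ _) with h | h
    · have : H = ∅ := by
        rw [← card_eq_zero]; omega
      rw [this, h0, zero_mul]
    · rw [hD H (by omega), zero_mul]
  rw [h5] at h1
  have h6 := Finset.sum_mul_sq_le_sq_mul_sq S c (Pb q ends Gd lam)
  have h7 : ∑ H ∈ S, c H ^ 2 ≤ ∑ H, c H ^ 2 :=
    Finset.sum_le_sum_of_subset_of_nonneg (filter_subset _ _) (fun _ _ _ => sq_nonneg _)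
  have h8 : 0 ≤ ∑ H ∈ S, (Pb q ends Gd lam H) ^ 2 := Finset.sum_nonneg (fun _ _ => sq_nonneg _)
  calc (1 : ℝ) ≤ (∑ H ∈ S, c H * Pb q ends Gd lam H) ^ 2 := one_le_pow₀ h1
    _ ≤ _ := h6
    _ ≤ _ := mul_le_mul_of_nonneg_right h7 h8

end Red

end Pool.Agent.LDC
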