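import Mathlib
import Pool.Agent.LDC.Red

namespace Pool.Agent.LDC

open Finset

set_option linter.unusedSectionVars false

section Total

variable {V E : Type*} [Fintype V] [DecidableEq V] [Fintype E] [DecidableEq E]
variable {q : ℕ} [NeZero q] (ends : E → Finset V)

theorem min_le_mul_sqrt (D v : ℕ) : min D (v ^ 2) ≤ v * (Nat.sqrt D + 1) := by
  have h1 : D < (Nat.sqrt D + 1) * (Nat.sqrt D + 1) := Nat.lt_succ_sqrt D
  rcases Nat.lt_or_ge v (Nat.sqrt D + 1) with h | h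
  · refine (min_le_right _ _).trans ?_
    rw [sq]
    exact Nat.mul_le_mul_left v h.le
  · refine (min_le_left _ _).trans ?_
    exact h1.le.trans (Nat.mul_le_mul_right _ h)

/-- the sets `H` with a given vertex set -/
theorem sum_fixed_vs (hinj : Function.Injective ends) (hends : ∀ e, (ends e).card = 2)
    (D : ℕ) (W : Finset V) {Γ : ℝ} (hΓ : 1 ≤ Γ) :
    ∑ H ∈ (univ.filter (fun H : Finset E => 1 ≤ H.card ∧ H.card ≤ D)).filter
      (fun H => vs ends H = W), Γ ^ H.card ≤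
      (((4 * (D : ℝ) ^ 2 + 1) * Γ) ^ (Nat.sqrt D + 1)) ^ W.card := by
  classical
  set S := (univ.filter (fun H : Finset E => 1 ≤ H.card ∧ H.card ≤ D)).filter
      (fun H => vs ends H = W) with hS
  by_cases hne : S.Nonempty
  swap
  · rw [not_nonempty_iff_eq_empty] at hne
    rw [hne, Finset.sum_empty]
    positivity
  obtain ⟨H0, hH0⟩ := hne
  have hW : W.card ≤ 2 * D := by
    rw [hS, mem_filter, mem_filter] at hH0
    rw [← hH0.2]
    exact (card_vs_le hends H0).trans (Nat.mul_le_mul_left 2 hH0.1.2.2)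
  set F := univ.filter (fun e => ends e ⊆ W) with hF
  have hFc : F.card ≤ W.card ^ 2 := card_edges_inside hinj hends W
  set m := min D (W.card ^ 2) with hm
  have hHm : ∀ H ∈ S, H ⊆ F ∧ H.card ≤ m := by
    intro H hH
    rw [hS, mem_filter, mem_filter] at hH
    have h1 : H ⊆ F := by
      intro e he
      rw [hF, mem_filter]
      refine ⟨mem_univ _, ?_⟩
      rw [← hH.2]
      exact ends_subset_vs he
    exact ⟨h1, le_min hH.1.2.2 ((card_le_card h1).trans hFc)⟩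
  have hScard : S.card ≤ (W.card ^ 2 + 1) ^ m := by
    refine le_trans (card_le_card (t := F.powerset.filter (fun g => g.card ≤ m)) ?_) ?_
    · intro H hH
      rw [mem_filter, mem_powerset]
      exact hHm H hH
    · refine (card_small_subsets F m).trans ?_
      exact Nat.pow_le_pow_left (Nat.add_le_add_right hFc 1) m
  have hScard' : (S.card : ℝ) ≤ (4 * (D : ℝ) ^ 2 + 1) ^ m := by
    have h1 : (S.card : ℝ) ≤ (((W.card ^ 2 + 1) ^ m : ℕ) : ℝ) := by exact_mod_cast hScard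
    refine h1.trans ?_
    push_cast
    have h2 : (W.card : ℝ) ≤ 2 * D := by exact_mod_cast hW
    have h3 : (W.card : ℝ) ^ 2 + 1 ≤ 4 * (D : ℝ) ^ 2 + 1 := by
      have : (W.card : ℝ) ^ 2 ≤ (2 * (D : ℝ)) ^ 2 := by gcongr
      nlinarith
    gcongr
  have hΛ1 : 1 ≤ (4 * (D : ℝ) ^ 2 + 1) * Γ := by
    have : (1 : ℝ) ≤ 4 * (D : ℝ) ^ 2 + 1 := by
      have : (0 : ℝ) ≤ (D : ℝ) ^ 2 := by positivity
      linarith
    exact one_le_mul_of_one_le_of_one_le this hΓ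
  calc ∑ H ∈ S, Γ ^ H.card ≤ ∑ H ∈ S, Γ ^ m :=
        Finset.sum_le_sum (fun H hH => pow_le_pow_right₀ hΓ (hHm H hH).2)
    _ = S.card * Γ ^ m := by rw [Finset.sum_const, nsmul_eq_mul]
    _ ≤ (4 * (D : ℝ) ^ 2 + 1) ^ m * Γ ^ m := mul_le_mul_of_nonneg_right hScard' (by positivity)
    _ = ((4 * (D : ℝ) ^ 2 + 1) * Γ) ^ m := by rw [mul_pow]
    _ ≤ ((4 * (D : ℝ) ^ 2 + 1) * Γ) ^ (W.card * (Nat.sqrt D + 1)) :=
        pow_le_pow_right₀ hΛ1 (min_le_mul_sqrt D W.card)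
    _ = _ := by rw [mul_comm W.card, pow_mul]

theorem sum_Phi_sq [Nonempty V] (hinj : Function.Injective ends) (hends : ∀ e, (ends e).card = 2)
    {M K0 : ℕ} (hK0 : 1 ≤ K0) (hKM : K0 ^ 2 ≤ M) {lam : Finset E → ℝ} {b : ℝ} (hb : 1 ≤ b)
    (hlam : ∀ g ∈ GdM ends M, |lam g| * (q : ℝ) ^ ((vs ends g).card - 1) ≤ b)
    (hzero : ∀ g ∈ GdM ends M, Phi q ends (GdM ends M) lam g = 0)
    (hZ : (1 + ((q : ℝ) ^ 2)⁻¹) ^ (Fintype.card V) ≤ 2) {ρ0 : ℝ}
    (hρ : ∀ e u : ℕ, (K0 - 1) * u ≤ K0 * e → ((q : ℝ) ^ e)⁻¹ ≤ ρ0 ^ u) (D : ℕ) {Γ : ℝ}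
    (hΓ : Γ = 2 * b * (2 + ((2 * D + 2 * M * D : ℝ) ^ 2 + 1) ^ M)) :
    ∑ H ∈ univ.filter (fun H : Finset E => 1 ≤ H.card ∧ H.card ≤ D),
      (Phi q ends (GdM ends M) lam H) ^ 2 ≤
      4 * ((1 + ρ0 ^ 2 * ((4 * (D : ℝ) ^ 2 + 1) * Γ ^ 2) ^ (Nat.sqrt D + 1)) ^
        (Fintype.card V) - 1) := by
  classical
  have hqpos : (0 : ℝ) < q := by exact_mod_cast Nat.pos_of_ne_zero (NeZero.ne q)
  have hΓ1 : 1 ≤ Γ := by
    rw [hΓ]
    have h1 : (0 : ℝ) ≤ ((2 * D + 2 * M * D : ℝ) ^ 2 + 1) ^ M := by positivity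
    nlinarith
  set S := univ.filter (fun H : Finset E => 1 ≤ H.card ∧ H.card ≤ D) with hS
  have hpt : ∀ H ∈ S, (Phi q ends (GdM ends M) lam H) ^ 2 ≤
      4 * ((ρ0 ^ 2) ^ (vs ends H).card * (Γ ^ 2) ^ H.card) := by
    intro H hH
    rw [hS, mem_filter] at hH
    obtain ⟨e, he, hbd⟩ := Phi_bound (q := q) ends hinj hends hK0 hKM hb hlam hzero H
    have hQe : 0 < (q : ℝ) ^ e := pow_pos hqpos _
    have h1 : (2 * b * (2 + (((vs ends H).card + 2 * M * H.card : ℝ) ^ 2 + 1) ^ M)) ^ H.card ≤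
        Γ ^ H.card := by
      have h2 : ((vs ends H).card : ℝ) ≤ 2 * D := by
        exact_mod_cast (card_vs_le hends H).trans (Nat.mul_le_mul_left 2 hH.2.2)
      have h3 : (H.card : ℝ) ≤ D := by exact_mod_cast hH.2.2
      rw [hΓ]
      gcongr
    have h4 : |Phi q ends (GdM ends M) lam H| ≤ 2 * (ρ0 ^ (vs ends H).card * Γ ^ H.card) := by
      have h5 : |Phi q ends (GdM ends M) lam H| ≤
          ((2 * b * (2 + (((vs ends H).card + 2 * M * H.card : ℝ) ^ 2 + 1) ^ M)) ^ H.card *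
          (1 + ((q : ℝ) ^ 2)⁻¹) ^ (Fintype.card V)) * ((q : ℝ) ^ e)⁻¹ := by
        rw [← div_eq_mul_inv, le_div_iff₀ hQe]
        exact hbd
      refine h5.trans ?_
      calc _ ≤ (Γ ^ H.card * 2) * ρ0 ^ (vs ends H).card := by
            apply mul_le_mul _ (hρ e _ he) (by positivity) (by positivity)
            apply mul_le_mul h1 hZ (by positivity) (by positivity)
        _ = _ := by ring
    calc (Phi q ends (GdM ends M) lam H) ^ 2 = |Phi q ends (GdM ends M) lam H| ^ 2 :=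
          (sq_abs _).symm
      _ ≤ (2 * (ρ0 ^ (vs ends H).card * Γ ^ H.card)) ^ 2 := by gcongr
      _ = _ := by
          rw [← pow_mul, ← pow_mul, mul_comm 2 (vs ends H).card, mul_comm 2 H.card, pow_mul,
            pow_mul]
          ring
  refine (Finset.sum_le_sum hpt).trans ?_
  rw [← Finset.mul_sum]
  apply mul_le_mul_of_nonneg_left _ (by norm_num)
  set Λ : ℝ := ((4 * (D : ℝ) ^ 2 + 1) * Γ ^ 2) ^ (Nat.sqrt D + 1) with hΛ
  have hmaps : ∀ H ∈ S, vs ends H ∈ (univ : Finset V).powerset.erase ∅ := by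
    intro H hH
    rw [hS, mem_filter] at hH
    rw [mem_erase, mem_powerset]
    refine ⟨?_, subset_univ _⟩
    obtain ⟨f, hf⟩ := card_pos.1 (by omega : 0 < H.card)
    obtain ⟨v, hv⟩ := card_pos.1 (by rw [hends f]; norm_num : 0 < (ends f).card)
    exact ne_empty_of_mem (mem_vs.2 ⟨f, hf, hv⟩)
  rw [← Finset.sum_fiberwise_of_maps_to hmaps]
  have h1 : ∀ W ∈ (univ : Finset V).powerset.erase ∅,
      ∑ H ∈ S.filter (fun H => vs ends H = W), ((ρ0 ^ 2) ^ (vs ends H).card * (Γ ^ 2) ^ H.card) ≤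
      (ρ0 ^ 2 * Λ) ^ W.card := by
    intro W _
    have h2 : ∀ H ∈ S.filter (fun H => vs ends H = W),
        ((ρ0 ^ 2) ^ (vs ends H).card * (Γ ^ 2) ^ H.card) =
        (ρ0 ^ 2) ^ W.card * (Γ ^ 2) ^ H.card := by
      intro H hH
      rw [(mem_filter.1 hH).2]
    rw [Finset.sum_congr rfl h2, ← Finset.mul_sum, mul_pow]
    apply mul_le_mul_of_nonneg_left _ (by positivity)
    exact sum_fixed_vs ends hinj hends D W (one_le_pow₀ hΓ1)
  refine (Finset.sum_le_sum h1).trans (le_of_eq ?_)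
  have h3 := Finset.sum_pow_mul_eq_add_pow (ρ0 ^ 2 * Λ) 1 (univ : Finset V)
  simp only [one_pow, mul_one, card_univ] at h3
  rw [← Finset.add_sum_erase _ _ (empty_mem_powerset _)] at h3
  simp only [card_empty, pow_zero] at h3
  rw [add_comm (1 : ℝ) (ρ0 ^ 2 * Λ), ← h3]
  ring

theorem sum_Pb_sq [Nonempty V] (hinj : Function.Injective ends) (hends : ∀ e, (ends e).card = 2)
    {M K0 : ℕ} (hK0 : 1 ≤ K0) (hKM : K0 ^ 2 ≤ M) {lam : Finset E → ℝ} {b : ℝ} (hb : 1 ≤ b)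
    (hlam : ∀ g ∈ GdM ends M, |lam g| * (q : ℝ) ^ ((vs ends g).card - 1) ≤ b)
    (hzero : ∀ g ∈ GdM ends M, Phi q ends (GdM ends M) lam g = 0)
    (hZ : (1 + ((q : ℝ) ^ 2)⁻¹) ^ (Fintype.card V) ≤ 2) {ρ0 : ℝ}
    (hρ : ∀ e u : ℕ, (K0 - 1) * u ≤ K0 * e → ((q : ℝ) ^ e)⁻¹ ≤ ρ0 ^ u) (D r : ℕ) {Γ : ℝ}
    (hΓ : Γ = 2 * b * (2 + ((2 * D + 2 * M * D : ℝ) ^ 2 + 1) ^ M)) :
    ∑ H ∈ univ.filter (fun H : Finset E => 1 ≤ H.card ∧ H.card ≤ D),
      (Pb q ends (GdM ends M) lam H) ^ 2 ≤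
      8 * ((1 + ρ0 ^ 2 * ((4 * (D : ℝ) ^ 2 + 1) * Γ ^ 2) ^ (Nat.sqrt D + 1)) ^
        (Fintype.card V) - 1) +
      2 * ((Fintype.card E + 1 : ℝ) ^ D *
        (4 * (1 + ((Fintype.card E + 1 : ℝ) ^ M) * b) ^ D * ((Fintype.card E : ℝ) *
        (b * (q : ℝ)⁻¹ * ((2 + 2 * M * (2 * r : ℕ) : ℝ) ^ 2 + 1) ^ M) ^ (2 * r))) ^ 2) := by
  classical
  set S := univ.filter (fun H : Finset E => 1 ≤ H.card ∧ H.card ≤ D) with hS
  set err : ℝ := 4 * (1 + ((Fintype.card E + 1 : ℝ) ^ M) * b) ^ D * ((Fintype.card E : ℝ) *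
        (b * (q : ℝ)⁻¹ * ((2 + 2 * M * (2 * r : ℕ) : ℝ) ^ 2 + 1) ^ M) ^ (2 * r)) with herr
  have h1 := sum_Phi_sq (q := q) ends hinj hends hK0 hKM hb hlam hzero hZ hρ D hΓ
  have hpt : ∀ H ∈ S, (Pb q ends (GdM ends M) lam H) ^ 2 ≤
      2 * (Phi q ends (GdM ends M) lam H) ^ 2 + 2 * err ^ 2 := by
    intro H hH
    rw [hS, mem_filter] at hH
    have h2 := Pb_sub_Phi (q := q) ends hinj hends hb hlam r H
    have h3 : |Pb q ends (GdM ends M) lam H - Phi q ends (GdM ends M) lam H| ≤ err := by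
      refine h2.trans ?_
      rw [herr]
      have hK1 : (1 : ℝ) ≤ 1 + ((Fintype.card E + 1 : ℝ) ^ M) * b := by
        have : (0 : ℝ) ≤ ((Fintype.card E + 1 : ℝ) ^ M) * b := by positivity
        linarith
      have h4 : (1 + ((Fintype.card E + 1 : ℝ) ^ M) * b) ^ H.card ≤
          (1 + ((Fintype.card E + 1 : ℝ) ^ M) * b) ^ D := pow_le_pow_right₀ hK1 hH.2.2
      set X : ℝ := (b * (q : ℝ)⁻¹ * ((2 + 2 * M * (2 * r : ℕ) : ℝ) ^ 2 + 1) ^ M) ^ (2 * r) with hX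
      have hX0 : 0 ≤ X := by
        rw [hX, pow_mul]
        positivity
      calc 2 * (1 + ((Fintype.card E + 1 : ℝ) ^ M) * b) ^ H.card * ((Fintype.card E : ℝ) *
            (X * (1 + ((q : ℝ) ^ 2)⁻¹) ^ (Fintype.card V)))
          ≤ 2 * (1 + ((Fintype.card E + 1 : ℝ) ^ M) * b) ^ D * ((Fintype.card E : ℝ) *
            (X * 2)) := by gcongr
        _ = _ := by ring
    have h5 := abs_le.1 h3
    have herr0 : 0 ≤ err := (abs_nonneg _).trans h3
    have h6 : (Pb q ends (GdM ends M) lam H - Phi q ends (GdM ends M) lam H) ^ 2 ≤ err ^ 2 := by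
      rw [← sq_abs]
      gcongr
    nlinarith [sq_nonneg (Pb q ends (GdM ends M) lam H - 2 * Phi q ends (GdM ends M) lam H)]
  refine (Finset.sum_le_sum hpt).trans ?_
  rw [Finset.sum_add_distrib, ← Finset.mul_sum, Finset.sum_const, nsmul_eq_mul]
  have hScard : (S.card : ℝ) ≤ (Fintype.card E + 1 : ℝ) ^ D := by
    have h2 := card_small_subsets (univ : Finset E) D
    rw [card_univ] at h2
    have h3 : S.card ≤ (Fintype.card E + 1) ^ D := by
      refine le_trans (card_le_card ?_) h2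
      intro H hH
      rw [hS, mem_filter] at hH
      rw [mem_filter, mem_powerset]
      exact ⟨subset_univ _, hH.2.2⟩
    exact_mod_cast h3
  have h7 : (S.card : ℝ) * (2 * err ^ 2) ≤ 2 * ((Fintype.card E + 1 : ℝ) ^ D * err ^ 2) := by
    have h8 : 0 ≤ 2 * err ^ 2 := by positivity
    calc _ ≤ (Fintype.card E + 1 : ℝ) ^ D * (2 * err ^ 2) := mul_le_mul_of_nonneg_right hScard h8
      _ = _ := by ring
  linarith

end Total

end Pool.Agent.LDC
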