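import Mathlib
import Pool.Agent.LDC.Total
import Pool.Agent.LDC.Asym

namespace Pool.Agent.LDC

open Finset Filter Real

theorem rho_cond {ε : ℝ} (hε : 0 < ε) {K0 : ℕ} (hK0 : 1 ≤ K0) (hK : (1 + 2 * ε) / ε ≤ K0)
    {n q : ℕ} (hn : 1 ≤ n) (hq : (n : ℝ) ^ ((1 : ℝ) / 2 + ε) ≤ q) (e u : ℕ)
    (h : (K0 - 1) * u ≤ K0 * e) :
    ((q : ℝ) ^ e)⁻¹ ≤ ((n : ℝ) ^ (-(1 / 2 + ε / 2))) ^ u := by
  have hn1 : (1 : ℝ) ≤ n := by exact_mod_cast hn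
  have hn0 : (0 : ℝ) < n := by linarith
  have hK0' : (1 : ℝ) ≤ K0 := by exact_mod_cast hK0
  have h' : ((K0 : ℝ) - 1) * u ≤ K0 * e := by
    have : (((K0 - 1) * u : ℕ) : ℝ) ≤ ((K0 * e : ℕ) : ℝ) := by exact_mod_cast h
    push_cast [Nat.cast_sub hK0] at this
    exact this
  have h1 : ((n : ℝ) ^ ((1 : ℝ) / 2 + ε)) ^ e ≤ (q : ℝ) ^ e := by gcongr
  have h2 : (n : ℝ) ^ ((1 / 2 + ε / 2) * (u : ℝ)) ≤ ((n : ℝ) ^ ((1 : ℝ) / 2 + ε)) ^ e := by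
    rw [← Real.rpow_natCast ((n : ℝ) ^ ((1 : ℝ) / 2 + ε)) e, ← Real.rpow_mul hn0.le]
    apply Real.rpow_le_rpow_of_exponent_le hn1
    have hKε : 1 + 2 * ε ≤ K0 * ε := by rwa [div_le_iff₀ hε] at hK
    have hu : (0 : ℝ) ≤ u := Nat.cast_nonneg _
    have h3 : (K0 : ℝ) * ((1 / 2 + ε / 2) * u) ≤ K0 * ((1 / 2 + ε) * e) := by
      have h4 : (0 : ℝ) ≤ (K0 * (ε / 2) - (1 / 2 + ε)) * u := by
        apply mul_nonneg _ hu
        linarith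
      have h5 : (1 / 2 + ε) * (((K0 : ℝ) - 1) * u) ≤ (1 / 2 + ε) * (K0 * e) :=
        mul_le_mul_of_nonneg_left h' (by linarith)
      nlinarith
    exact le_of_mul_le_mul_left h3 (by linarith)
  have h6 : ((n : ℝ) ^ (-(1 / 2 + ε / 2))) ^ u = ((n : ℝ) ^ ((1 / 2 + ε / 2) * (u : ℝ)))⁻¹ := by
    rw [← Real.rpow_natCast, ← Real.rpow_mul hn0.le, ← Real.rpow_neg hn0.le]
    congr 1
    ring
  rw [h6]
  exact inv_anti₀ (by positivity) (h2.trans h1)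

theorem second_term {n q M D : ℕ} {b Ec Y : ℝ} (hn : 2 ≤ n) (hb : 1 ≤ b) (hbn : 2 * b ≤ n)
    (hE0 : 0 ≤ Ec) (hE : Ec ≤ (n : ℝ) ^ 2) (hq : (n : ℝ) ^ 2 ≤ (q : ℝ) ^ 4)
    (hY : (b * Y ^ M) ^ 4 ≤ n) :
    2 * ((Ec + 1) ^ D * (4 * (1 + ((Ec + 1) ^ M) * b) ^ D *
      (Ec * (b * (q : ℝ)⁻¹ * Y ^ M) ^ (2 * ((6 * M + 5) * D + 7)))) ^ 2) ≤ 32 / n := by
  set N : ℝ := (n : ℝ) with hN
  have hN2 : 2 ≤ N := by rw [hN]; exact_mod_cast hn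
  have hN0 : 0 < N := by linarith
  set r := (6 * M + 5) * D + 7 with hr
  have h1 : Ec + 1 ≤ N ^ 3 := by nlinarith [sq_nonneg N]
  have h2 : 1 + (Ec + 1) ^ M * b ≤ N ^ (3 * M + 1) := by
    have h3 : (Ec + 1) ^ M ≤ N ^ (3 * M) := by
      calc (Ec + 1) ^ M ≤ (N ^ 3) ^ M := by gcongr
        _ = N ^ (3 * M) := by rw [pow_mul]
    have h4 : 1 ≤ N ^ (3 * M) := one_le_pow₀ (by linarith)
    calc 1 + (Ec + 1) ^ M * b ≤ N ^ (3 * M) * b + N ^ (3 * M) * b := by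
          gcongr
          exact one_le_mul_of_one_le_of_one_le h4 hb
      _ = N ^ (3 * M) * (2 * b) := by ring
      _ ≤ N ^ (3 * M) * N := by gcongr
      _ = N ^ (3 * M + 1) := by rw [pow_succ]
  have h3 : (b * (q : ℝ)⁻¹ * Y ^ M) ^ 4 ≤ N⁻¹ := by
    have h4 : ((q : ℝ) ^ 4)⁻¹ ≤ (N ^ 2)⁻¹ := inv_anti₀ (by positivity) hq
    calc (b * (q : ℝ)⁻¹ * Y ^ M) ^ 4 = (b * Y ^ M) ^ 4 * ((q : ℝ) ^ 4)⁻¹ := by
          rw [← inv_pow]; ring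
      _ ≤ N * (N ^ 2)⁻¹ := by gcongr
      _ = N⁻¹ := by field_simp
  have h5 : ((b * (q : ℝ)⁻¹ * Y ^ M) ^ (2 * r)) ^ 2 ≤ (N ^ r)⁻¹ := by
    calc ((b * (q : ℝ)⁻¹ * Y ^ M) ^ (2 * r)) ^ 2 = ((b * (q : ℝ)⁻¹ * Y ^ M) ^ 4) ^ r := by
          rw [← pow_mul, ← pow_mul]
          congr 1
          ring
      _ ≤ (N⁻¹) ^ r := by gcongr
      _ = (N ^ r)⁻¹ := by rw [inv_pow]
  have hsplit : 2 * ((Ec + 1) ^ D * (4 * (1 + ((Ec + 1) ^ M) * b) ^ D *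
      (Ec * (b * (q : ℝ)⁻¹ * Y ^ M) ^ (2 * r))) ^ 2) =
      32 * ((Ec + 1) ^ D * ((1 + (Ec + 1) ^ M * b) ^ D) ^ 2 * Ec ^ 2 *
      ((b * (q : ℝ)⁻¹ * Y ^ M) ^ (2 * r)) ^ 2) := by ring
  rw [hsplit]
  have hb0 : 0 ≤ b := by linarith
  calc 32 * ((Ec + 1) ^ D * ((1 + (Ec + 1) ^ M * b) ^ D) ^ 2 * Ec ^ 2 *
      ((b * (q : ℝ)⁻¹ * Y ^ M) ^ (2 * r)) ^ 2)
      ≤ 32 * ((N ^ 3) ^ D * ((N ^ (3 * M + 1)) ^ D) ^ 2 * (N ^ 2) ^ 2 * (N ^ r)⁻¹) := by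
        gcongr
    _ = 32 * (N ^ 3)⁻¹ := by
        have h6 : (N ^ 3) ^ D * ((N ^ (3 * M + 1)) ^ D) ^ 2 * (N ^ 2) ^ 2 * N ^ 3 = N ^ r := by
          rw [hr, ← pow_mul, ← pow_mul, ← pow_mul, ← pow_mul, ← pow_add, ← pow_add, ← pow_add]
          congr 1
          ring
        rw [← h6]
        field_simp
    _ ≤ 32 * N⁻¹ := by
        apply mul_le_mul_of_nonneg_left _ (by norm_num)
        apply inv_anti₀ hN0
        nlinarith [sq_nonneg N, sq_nonneg (N - 1)]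
    _ = 32 / N := by rw [div_eq_mul_inv]

theorem first_term {n : ℕ} {ε Λ : ℝ} (hn : 1 ≤ n) (hε : 0 < ε) (hΛ0 : 0 ≤ Λ)
    (hΛ : Λ ≤ (n : ℝ) ^ (ε / 2)) :
    8 * ((1 + ((n : ℝ) ^ (-(1 / 2 + ε / 2))) ^ 2 * Λ) ^ n - 1) ≤ 16 * (n : ℝ) ^ (-(ε / 2)) := by
  have hn1 : (1 : ℝ) ≤ n := by exact_mod_cast hn
  have hn0 : (0 : ℝ) < n := by linarith
  set t : ℝ := ((n : ℝ) ^ (-(1 / 2 + ε / 2))) ^ 2 * Λ with ht
  have ht0 : 0 ≤ t := by positivity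
  have h1 : n * t ≤ (n : ℝ) ^ (-(ε / 2)) := by
    have h2 : ((n : ℝ) ^ (-(1 / 2 + ε / 2))) ^ 2 = (n : ℝ) ^ (-(1 + ε)) := by
      rw [← Real.rpow_natCast, ← Real.rpow_mul hn0.le]
      congr 1
      push_cast
      ring
    rw [ht, h2]
    calc (n : ℝ) * ((n : ℝ) ^ (-(1 + ε)) * Λ)
        ≤ (n : ℝ) * ((n : ℝ) ^ (-(1 + ε)) * (n : ℝ) ^ (ε / 2)) := by gcongr
      _ = (n : ℝ) ^ (1 : ℝ) * ((n : ℝ) ^ (-(1 + ε)) * (n : ℝ) ^ (ε / 2)) := by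
          rw [Real.rpow_one]
      _ = (n : ℝ) ^ (-(ε / 2)) := by
          rw [← Real.rpow_add hn0, ← Real.rpow_add hn0]
          congr 1
          ring
  have h3 : (n : ℝ) ^ (-(ε / 2)) ≤ 1 := by
    apply Real.rpow_le_one_of_one_le_of_nonpos hn1
    linarith
  have h4 := pow_sub_one_le (n := n) ht0 (h1.trans h3)
  linarith

theorem final_bound (ε : ℝ) (hε : 0 < ε) : ∃ κ : ℝ, 0 < κ ∧ ∀ δ : ℝ, 0 < δ →
    ∀ᶠ n : ℕ in atTop, ∀ q : ℕ, (n : ℝ) ^ ((1 : ℝ) / 2 + ε) ≤ q → ∀ [NeZero q],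
      ∀ {V E : Type} [Fintype V] [DecidableEq V] [Fintype E] [DecidableEq E]
        (ends : E → Finset V), Function.Injective ends → (∀ e, (ends e).card = 2) →
        Fintype.card V = n →
        ∃ (Gd : Finset (Finset E)) (lam : Finset E → ℝ), ∀ D : ℕ,
          (D : ℝ) ≤ κ * (Real.log n / Real.log (Real.log n)) ^ 2 →
          ∑ H ∈ univ.filter (fun H : Finset E => 1 ≤ H.card ∧ H.card ≤ D),
            (Pb q ends Gd lam H) ^ 2 ≤ δ := by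
  obtain ⟨K0, hK0⟩ := exists_nat_ge (max ((1 + 2 * ε) / ε) 1)
  have hKa : (1 + 2 * ε) / ε ≤ K0 := (le_max_left _ _).trans hK0
  have hKb : 1 ≤ K0 := by exact_mod_cast (le_max_right _ _).trans hK0
  set M := K0 ^ 2 with hM
  have hM1 : 1 ≤ M := Nat.one_le_pow _ _ hKb
  set b := bs M (2 * M) with hbdef
  have hb : 1 ≤ b := bs_ge M _
  have hb0 : 0 ≤ b := by linarith
  obtain ⟨κ, hκ, hcond⟩ := cond_lam ε hε M b hb
  refine ⟨κ, hκ, ?_⟩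
  intro δ hδ
  have hcast : Tendsto (fun n : ℕ => (n : ℝ)) atTop atTop := tendsto_natCast_atTop_atTop
  have t1 : Tendsto (fun n : ℕ => (n : ℝ) ^ ((1 : ℝ) / 2 + ε)) atTop atTop :=
    (tendsto_rpow_atTop (by linarith)).comp hcast
  have t2 : Tendsto (fun n : ℕ => (n : ℝ) ^ (-((1 : ℝ) / 2 + ε))) atTop (nhds 0) :=
    (tendsto_rpow_neg_atTop (by linarith)).comp hcast
  have t3 : Tendsto (fun n : ℕ => (n : ℝ) ^ (-(2 * ε))) atTop (nhds 0) :=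
    (tendsto_rpow_neg_atTop (by linarith)).comp hcast
  have t4 : Tendsto (fun n : ℕ => (n : ℝ) ^ (-(ε / 2))) atTop (nhds 0) :=
    (tendsto_rpow_neg_atTop (by linarith)).comp hcast
  have t5 : Tendsto (fun n : ℕ => b ^ M * ((n : ℝ) ^ (-((1 : ℝ) / 2 + ε)) +
      2 * (n : ℝ) ^ (-(2 * ε)))) atTop (nhds 0) := by
    have := (t2.add (t3.const_mul 2)).const_mul (b ^ M)
    simpa using this
  have t6 : Tendsto (fun n : ℕ => 16 * (n : ℝ) ^ (-(ε / 2))) atTop (nhds 0) := by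
    simpa using t4.const_mul 16
  have t7 : Tendsto (fun n : ℕ => 32 / (n : ℝ)) atTop (nhds 0) := hcast.const_div_atTop 32
  filter_upwards [hcond, cond_mom M b hb, eventually_ge_atTop 2,
    hcast.eventually (eventually_ge_atTop (2 * b)),
    t1.eventually (eventually_ge_atTop ((2 * M : ℕ) : ℝ)),
    t5.eventually (gt_mem_nhds one_pos),
    t3.eventually (gt_mem_nhds (show (0 : ℝ) < 1 / 2 by norm_num)),
    t6.eventually (gt_mem_nhds (show (0 : ℝ) < δ / 2 by linarith)),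
    t7.eventually (gt_mem_nhds (show (0 : ℝ) < δ / 2 by linarith))]
    with n hcl hcm hn2 hbn hqM h5 h3 h6 h7
  intro q hq _ V E _ _ _ _ ends hinj hends hV
  have hn1 : (1 : ℝ) ≤ n := by exact_mod_cast (by omega : 1 ≤ n)
  have hn0 : (0 : ℝ) < n := by linarith
  have : Nonempty V := by
    rw [← Fintype.card_pos_iff, hV]; omega
  have hq2M : 2 * M ≤ q := by exact_mod_cast le_trans hqM hq
  have hqpos : (0 : ℝ) < q := by exact_mod_cast Nat.pos_of_ne_zero (NeZero.ne q)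
  have hqinv : (q : ℝ)⁻¹ ≤ (n : ℝ) ^ (-((1 : ℝ) / 2 + ε)) := by
    rw [Real.rpow_neg hn0.le]
    exact inv_anti₀ (by positivity) hq
  have hnq : (n : ℝ) * ((q : ℝ) ^ 2)⁻¹ ≤ (n : ℝ) ^ (-(2 * ε)) := by
    have h8 : ((q : ℝ) ^ 2)⁻¹ ≤ ((n : ℝ) ^ (-((1 : ℝ) / 2 + ε))) ^ 2 := by
      rw [← inv_pow]
      gcongr
    calc (n : ℝ) * ((q : ℝ) ^ 2)⁻¹ ≤ n * ((n : ℝ) ^ (-((1 : ℝ) / 2 + ε))) ^ 2 := by gcongr
      _ = (n : ℝ) ^ (1 : ℝ) * ((n : ℝ) ^ (-((1 : ℝ) / 2 + ε))) ^ 2 := by rw [Real.rpow_one]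
      _ = (n : ℝ) ^ (-(2 * ε)) := by
          rw [← Real.rpow_natCast ((n : ℝ) ^ (-((1 : ℝ) / 2 + ε))) 2, ← Real.rpow_mul hn0.le,
            ← Real.rpow_add hn0]
          congr 1
          push_cast
          ring
  have hZ1 : (1 + ((q : ℝ) ^ 2)⁻¹) ^ n - 1 ≤ 2 * (n : ℝ) ^ (-(2 * ε)) := by
    have := pow_sub_one_le (n := n) (t := ((q : ℝ) ^ 2)⁻¹) (by positivity)
      (hnq.trans (by linarith))
    linarith
  have hη : b ^ M * ((q : ℝ)⁻¹ + ((1 + ((q : ℝ) ^ 2)⁻¹) ^ (Fintype.card V) - 1)) ≤ 1 := by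
    rw [hV]
    refine le_trans ?_ h5.le
    gcongr
  obtain ⟨lam, hlam, hzero⟩ := exists_lam (q := q) ends hinj hends hM1 hq2M hη
  refine ⟨GdM ends M, lam, fun D hD => ?_⟩
  have hZ : (1 + ((q : ℝ) ^ 2)⁻¹) ^ (Fintype.card V) ≤ 2 := by
    rw [hV]
    linarith
  have hmain := sum_Pb_sq (q := q) ends hinj hends hKb (le_of_eq hM.symm) hb hlam hzero hZ
    (rho_cond hε hKb hKa (by omega : 1 ≤ n) hq) D ((6 * M + 5) * D + 7) rfl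
  refine hmain.trans ?_
  rw [hV]
  have hE : (Fintype.card E : ℝ) ≤ (n : ℝ) ^ 2 := by
    have h8 := card_edges_inside hinj hends (univ : Finset V)
    simp only [subset_univ, filter_true, card_univ, hV] at h8
    exact_mod_cast h8
  have hq4 : (n : ℝ) ^ 2 ≤ (q : ℝ) ^ 4 := by
    have h8 : (n : ℝ) ^ ((1 : ℝ) / 2) ≤ q := by
      refine le_trans ?_ hq
      apply Real.rpow_le_rpow_of_exponent_le hn1
      linarith
    calc (n : ℝ) ^ 2 = ((n : ℝ) ^ ((1 : ℝ) / 2)) ^ 4 := by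
          rw [← Real.rpow_natCast ((n : ℝ) ^ ((1 : ℝ) / 2)) 4, ← Real.rpow_mul hn0.le,
            ← Real.rpow_natCast]
          congr 1
          push_cast
          norm_num
      _ ≤ (q : ℝ) ^ 4 := by gcongr
  have hA := first_term (n := n) (ε := ε) (by omega) hε (by positivity) ((hcl D hD).2 _ rfl)
  have hB := second_term (n := n) (q := q) (M := M) (D := D) hn2 hb hbn (by positivity) hE hq4
    (hcm D (hcl D hD).1)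
  have := add_le_add hA hB
  refine this.trans ?_
  linarith

end Pool.Agent.LDC
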